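import Mathlib

set_option autoImplicit false
set_option linter.unusedSectionVars false

/-!
# The first Arens product on the second dual of a complex Banach algebra

For a complex normed algebra `A` (not necessarily unital), `Bidual A` is the second dual `A''`
with the first Arens product, defined in the usual three steps:
`(h · a)(b) = h (a b)`, `(Ψ · h)(a) = Ψ (h · a)`, `(Φ □ Ψ)(h) = Φ (Ψ · h)`.
-/

namespace H434R3.Arens

/-- The second dual `A''` of a complex normed algebra `A`, as a type which carries the first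
Arens product. -/
def Bidual (A : Type*) [NonUnitalNormedRing A] [NormedSpace ℂ A] : Type _ :=
  (A →L[ℂ] ℂ) →L[ℂ] ℂ

variable {A : Type*} [NonUnitalNormedRing A] [NormedSpace ℂ A]

noncomputable instance instACG : AddCommGroup (Bidual A) :=
  ContinuousLinearMap.addCommGroup (M := A →L[ℂ] ℂ) (M₂ := ℂ) (σ₁₂ := RingHom.id ℂ)

noncomputable instance instModule : Module ℂ (Bidual A) :=
  ContinuousLinearMap.module (M := A →L[ℂ] ℂ) (M₃ := ℂ) (σ₁₃ := RingHom.id ℂ) (S₃ := ℂ)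

/-- the element of `A''` as a bounded functional on `A'` -/
noncomputable def bd (Φ : Bidual A) : (A →L[ℂ] ℂ) →L[ℂ] ℂ := Φ

/-- evaluation of an element of the second dual at `h ∈ A'` -/
noncomputable def ev (Φ : Bidual A) (h : A →L[ℂ] ℂ) : ℂ := bd Φ h

lemma ext_ev {Φ Ψ : Bidual A} (h : ∀ f, ev Φ f = ev Ψ f) : Φ = Ψ :=
  ContinuousLinearMap.ext (f := bd Φ) (g := bd Ψ) h

@[simp] lemma ev_add (Φ Ψ : Bidual A) (h : A →L[ℂ] ℂ) : ev (Φ + Ψ) h = ev Φ h + ev Ψ h := rfl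
@[simp] lemma ev_sub (Φ Ψ : Bidual A) (h : A →L[ℂ] ℂ) : ev (Φ - Ψ) h = ev Φ h - ev Ψ h := rfl
@[simp] lemma ev_neg (Φ : Bidual A) (h : A →L[ℂ] ℂ) : ev (-Φ) h = -ev Φ h := rfl
@[simp] lemma ev_zero (h : A →L[ℂ] ℂ) : ev (0 : Bidual A) h = 0 := rfl
@[simp] lemma ev_smul (c : ℂ) (Φ : Bidual A) (h : A →L[ℂ] ℂ) : ev (c • Φ) h = c * ev Φ h := rfl
lemma ev_map_add (Φ : Bidual A) (h k : A →L[ℂ] ℂ) : ev Φ (h + k) = ev Φ h + ev Φ k :=
  (bd Φ).map_add h k
lemma ev_map_smul (Φ : Bidual A) (c : ℂ) (h : A →L[ℂ] ℂ) : ev Φ (c • h) = c * ev Φ h :=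
  (bd Φ).map_smul c h
lemma ev_map_zero (Φ : Bidual A) : ev Φ (0 : A →L[ℂ] ℂ) = 0 :=
  (bd Φ).map_zero

/-- the norm of an element of the second dual -/
noncomputable def bnorm (Φ : Bidual A) : ℝ := ‖bd Φ‖

lemma bnorm_nonneg (Φ : Bidual A) : 0 ≤ bnorm Φ := norm_nonneg (bd Φ)

lemma ev_le (Φ : Bidual A) (h : A →L[ℂ] ℂ) : ‖ev Φ h‖ ≤ bnorm Φ * ‖h‖ := (bd Φ).le_opNorm h

variable [IsScalarTower ℂ A A] [SMulCommClass ℂ A A]

lemma hmod_add (h : A →L[ℂ] ℂ) (a b c : A) : h (a * (b + c)) = h (a * b) + h (a * c) := by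
  rw [mul_add, map_add]

lemma hmod_smul (h : A →L[ℂ] ℂ) (a : A) (c : ℂ) (b : A) : h (a * (c • b)) = c • h (a * b) := by
  rw [mul_smul_comm, map_smul]

lemma hmod_bd (h : A →L[ℂ] ℂ) (a b : A) : ‖h (a * b)‖ ≤ ‖h‖ * ‖a‖ * ‖b‖ := by
  calc ‖h (a * b)‖ ≤ ‖h‖ * ‖a * b‖ := h.le_opNorm _
    _ ≤ ‖h‖ * (‖a‖ * ‖b‖) := mul_le_mul_of_nonneg_left (norm_mul_le _ _) (norm_nonneg _)
    _ = ‖h‖ * ‖a‖ * ‖b‖ := by ring

/-- `(h · a)(b) = h (a b)` for `h ∈ A'`, `a ∈ A`. -/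
noncomputable def hmod (h : A →L[ℂ] ℂ) (a : A) : A →L[ℂ] ℂ :=
  LinearMap.mkContinuous
    { toFun := fun b => h (a * b)
      map_add' := hmod_add h a
      map_smul' := hmod_smul h a } (‖h‖ * ‖a‖) (hmod_bd h a)

@[simp] lemma hmod_apply (h : A →L[ℂ] ℂ) (a b : A) : hmod h a b = h (a * b) := rfl

lemma hmod_norm (h : A →L[ℂ] ℂ) (a : A) : ‖hmod h a‖ ≤ ‖h‖ * ‖a‖ :=
  LinearMap.mkContinuous_norm_le _ (mul_nonneg (norm_nonneg _) (norm_nonneg _)) _

lemma psi_add (Ψ : Bidual A) (h : A →L[ℂ] ℂ) (a b : A) :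
    ev Ψ (hmod h (a + b)) = ev Ψ (hmod h a) + ev Ψ (hmod h b) := by
  rw [← ev_map_add]; congr 1; ext c; simp [add_mul]

lemma psi_smul (Ψ : Bidual A) (h : A →L[ℂ] ℂ) (c : ℂ) (a : A) :
    ev Ψ (hmod h (c • a)) = c • ev Ψ (hmod h a) := by
  rw [smul_eq_mul, ← ev_map_smul]; congr 1; ext b; simp [smul_mul_assoc]

lemma psi_bd (Ψ : Bidual A) (h : A →L[ℂ] ℂ) (a : A) :
    ‖ev Ψ (hmod h a)‖ ≤ bnorm Ψ * ‖h‖ * ‖a‖ := by
  calc ‖ev Ψ (hmod h a)‖ ≤ bnorm Ψ * ‖hmod h a‖ := ev_le _ _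
    _ ≤ bnorm Ψ * (‖h‖ * ‖a‖) := mul_le_mul_of_nonneg_left (hmod_norm h a) (bnorm_nonneg Ψ)
    _ = bnorm Ψ * ‖h‖ * ‖a‖ := by ring

/-- `(Ψ · h)(a) = Ψ (h · a)` for `Ψ ∈ A''`, `h ∈ A'`. -/
noncomputable def psi (Ψ : Bidual A) (h : A →L[ℂ] ℂ) : A →L[ℂ] ℂ :=
  LinearMap.mkContinuous
    { toFun := fun a => ev Ψ (hmod h a)
      map_add' := psi_add Ψ h
      map_smul' := psi_smul Ψ h } (bnorm Ψ * ‖h‖) (psi_bd Ψ h)

lemma psi_apply' (Ψ : Bidual A) (h : A →L[ℂ] ℂ) (a : A) : psi Ψ h a = ev Ψ (hmod h a) := rfl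

lemma psi_norm (Ψ : Bidual A) (h : A →L[ℂ] ℂ) : ‖psi Ψ h‖ ≤ bnorm Ψ * ‖h‖ :=
  LinearMap.mkContinuous_norm_le _ (mul_nonneg (bnorm_nonneg _) (norm_nonneg _)) _

lemma box_map_add (Φ Ψ : Bidual A) (h k : A →L[ℂ] ℂ) :
    ev Φ (psi Ψ (h + k)) = ev Φ (psi Ψ h) + ev Φ (psi Ψ k) := by
  have : psi Ψ (h + k) = psi Ψ h + psi Ψ k := by
    ext a
    rw [add_apply, psi_apply', psi_apply', psi_apply', ← ev_map_add]
    congr 1
  rw [this, ev_map_add]

lemma box_map_smul (Φ Ψ : Bidual A) (c : ℂ) (h : A →L[ℂ] ℂ) :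
    ev Φ (psi Ψ (c • h)) = c • ev Φ (psi Ψ h) := by
  have : psi Ψ (c • h) = c • psi Ψ h := by
    ext a
    rw [smul_apply, psi_apply', psi_apply', smul_eq_mul, ← ev_map_smul]
    congr 1
  rw [this, ev_map_smul, smul_eq_mul]

lemma box_bd (Φ Ψ : Bidual A) (h : A →L[ℂ] ℂ) :
    ‖ev Φ (psi Ψ h)‖ ≤ bnorm Φ * bnorm Ψ * ‖h‖ := by
  calc ‖ev Φ (psi Ψ h)‖ ≤ bnorm Φ * ‖psi Ψ h‖ := ev_le _ _
    _ ≤ bnorm Φ * (bnorm Ψ * ‖h‖) := mul_le_mul_of_nonneg_left (psi_norm Ψ h) (bnorm_nonneg Φ)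
    _ = bnorm Φ * bnorm Ψ * ‖h‖ := by ring

/-- The first Arens product `(Φ □ Ψ)(h) = Φ (Ψ · h)`. -/
noncomputable def box (Φ Ψ : Bidual A) : Bidual A :=
  LinearMap.mkContinuous
    { toFun := fun h => ev Φ (psi Ψ h)
      map_add' := box_map_add Φ Ψ
      map_smul' := box_map_smul Φ Ψ } (bnorm Φ * bnorm Ψ) (box_bd Φ Ψ)

lemma ev_box (Φ Ψ : Bidual A) (h : A →L[ℂ] ℂ) : ev (box Φ Ψ) h = ev Φ (psi Ψ h) := rfl

lemma psi_hmod (Ψ : Bidual A) (h : A →L[ℂ] ℂ) (a : A) :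
    psi Ψ (hmod h a) = hmod (psi Ψ h) a := by
  ext b
  rw [psi_apply', hmod_apply, psi_apply']
  congr 1
  ext c
  simp [mul_assoc]

lemma psi_box (Φ Ψ : Bidual A) (h : A →L[ℂ] ℂ) :
    psi (box Φ Ψ) h = psi Φ (psi Ψ h) := by
  ext a
  rw [psi_apply', psi_apply', ev_box, psi_hmod]

lemma box_assoc (Φ Ψ Θ : Bidual A) : box (box Φ Ψ) Θ = box Φ (box Ψ Θ) :=
  ext_ev fun h => by rw [ev_box, ev_box, ev_box, psi_box]

lemma box_add (Φ Ψ Θ : Bidual A) : box Φ (Ψ + Θ) = box Φ Ψ + box Φ Θ :=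
  ext_ev fun h => by
    rw [ev_add, ev_box, ev_box, ev_box, ← ev_map_add]
    congr 1
lemma add_box (Φ Ψ Θ : Bidual A) : box (Φ + Ψ) Θ = box Φ Θ + box Ψ Θ :=
  ext_ev fun h => by simp [ev_box]
lemma psi_zero (h : A →L[ℂ] ℂ) : psi (0 : Bidual A) h = 0 := by
  ext a; rfl
lemma box_zero (Φ : Bidual A) : box Φ 0 = 0 :=
  ext_ev fun h => by
    rw [ev_box, psi_zero, ev_map_zero, ev_zero]
lemma zero_box (Φ : Bidual A) : box 0 Φ = 0 := ext_ev fun h => by simp [ev_box]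
lemma smul_box (c : ℂ) (Φ Ψ : Bidual A) : box (c • Φ) Ψ = c • box Φ Ψ :=
  ext_ev fun h => by simp [ev_box]
lemma box_smul (c : ℂ) (Φ Ψ : Bidual A) : box Φ (c • Ψ) = c • box Φ Ψ :=
  ext_ev fun h => by
    rw [ev_smul, ev_box, ev_box, ← ev_map_smul]
    congr 1

/-- `(A'', □)` is an algebra. -/
noncomputable instance instRing : NonUnitalRing (Bidual A) :=
  { instACG (A := A) with
    mul := box
    left_distrib := box_add
    right_distrib := add_box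
    zero_mul := zero_box
    mul_zero := box_zero
    mul_assoc := box_assoc }

lemma mul_def (Φ Ψ : Bidual A) : Φ * Ψ = box Φ Ψ := rfl

instance instTower : IsScalarTower ℂ (Bidual A) (Bidual A) := ⟨fun c Φ Ψ => smul_box c Φ Ψ⟩
instance instComm : SMulCommClass ℂ (Bidual A) (Bidual A) :=
  ⟨fun c Φ Ψ => (box_smul c Φ Ψ).symm⟩

/-- The Jacobson radical of a (not necessarily unital) complex algebra `B`: the elements of `B`
which lie in the Jacobson radical of its unitization `B ⊕ ℂ 1`. -/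
def InRad {B : Type*} [NonUnitalRing B] [Module ℂ B] [IsScalarTower ℂ B B] [SMulCommClass ℂ B B]
    (x : B) : Prop :=
  (x : Unitization ℂ B) ∈ Ring.jacobson (Unitization ℂ B)

lemma inRad_of_nil {B : Type*} [NonUnitalRing B] [Module ℂ B] [IsScalarTower ℂ B B]
    [SMulCommClass ℂ B B] (x : B) (hx : ∀ y : B, x * y * x = 0) : InRad x := by
  unfold InRad
  rw [← Ideal.jacobson_bot, Ideal.mem_jacobson_iff]
  intro y
  -- (y x)^3 = 0
  set X : Unitization ℂ B := (x : Unitization ℂ B) with hX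
  have hx2 : ∀ z : Unitization ℂ B, X * z * X * z * X = 0 := by
    intro z
    induction z using Unitization.ind with
    | inl_add_inr r b =>
      have e1 : X * (Unitization.inl r + (b : Unitization ℂ B)) * X
          = ((r • (x * x) : B) : Unitization ℂ B) := by
        rw [mul_add, add_mul]
        have h1 : X * (b : Unitization ℂ B) * X = 0 := by
          rw [hX, ← Unitization.inr_mul, ← Unitization.inr_mul, hx b, Unitization.inr_zero]
        rw [h1, add_zero, hX, Unitization.inr_mul_inl, ← Unitization.inr_mul, smul_mul_assoc]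
      rw [e1]
      have h2 : x * x * x = 0 := hx x
      have h3 : x * x * b * x = 0 := by
        rw [mul_assoc x x b, mul_assoc x (x * b) x, hx b, mul_zero]
      rw [mul_add, add_mul, Unitization.inr_mul_inl, hX, ← Unitization.inr_mul,
        ← Unitization.inr_mul, ← Unitization.inr_mul]
      simp [smul_mul_assoc, h2, h3]
  set u : Unitization ℂ B := y * X with hu
  have hu3 : u * u * u = 0 := by
    have : u * u * u = y * (X * y * X * y * X) := by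
      simp [hu, mul_assoc]
    rw [this, hx2 y, mul_zero]
  refine ⟨1 - u + u * u, ?_⟩
  have : (1 - u + u * u) * y * X + (1 - u + u * u) - 1 = u * u * u := by
    have e : (1 - u + u * u) * y * X = (1 - u + u * u) * u := by
      rw [hu, mul_assoc]
    rw [e]; noncomm_ring
  rw [this, hu3]
  exact Ideal.zero_mem _

end H434R3.Arens
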