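import Pool.Agent.H434R3.ND3
import Pool.Agent.H725R3.BeurN

set_option autoImplicit false

/-!
# `L¹(G, w)''` is never semisimple
-/

namespace H434R3.Beurling

open MeasureTheory MeasureTheory.Measure Filter Topology
open H434R3.Arens

universe u v

section
variable {A : Type v} [NonUnitalNormedRing A] [NormedSpace ℂ A] [IsScalarTower ℂ A A]
  [SMulCommClass ℂ A A]

lemma psi_eq (Ψ : Bidual A) (h : A →L[ℂ] ℂ) : psi Ψ h = BeurN.pf (bd Ψ) h := by
  ext a
  rw [psi_apply', BeurN.pf_apply]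
  have : hmod h a = BeurN.fa h a := by
    ext b
    rw [hmod_apply, BeurN.fa_apply]
  rw [this]
  rfl

lemma box_eq_arens (Φ Ψ : Bidual A) : bd (box Φ Ψ) = BeurN.arens (bd Φ) (bd Ψ) := by
  refine ContinuousLinearMap.ext fun f => ?_
  rw [BeurN.arens_apply, ← psi_eq]
  rfl

end

/-- `δ` : point masses -/
def DiscreteDelta : Prop := ∀ {G : Type u} [Group G] [TopologicalSpace G] [IsTopologicalGroup G]
  [LocallyCompactSpace G] [MeasurableSpace G] [BorelSpace G] [DiscreteTopology G] {w : G → ℝ}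
  (_ : IsWeight w) {A : Type v} [NonUnitalNormedRing A] [NormedSpace ℂ A]
  (_ : BeurlingAlgebra w A),
  ∃ δ : G → A, (∀ g h, δ (g * h) = δ g * δ h) ∧
    (∀ c : G →₀ ℂ, ‖Finsupp.linearCombination ℂ δ c‖ = c.sum fun g z => ‖z‖ * w g) ∧
    DenseRange (Finsupp.linearCombination ℂ δ)

theorem discrete_of (hA : Beur.TaskA.{u}) (hB : Beur.TaskB.{u}) (hD : DiscreteDelta.{u, v})
    {G : Type u} [Group G] [TopologicalSpace G] [IsTopologicalGroup G] [LocallyCompactSpace G]
    [MeasurableSpace G] [BorelSpace G] [DiscreteTopology G] [Infinite G] {w : G → ℝ}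
    (hw : IsWeight w) {A : Type v} [NonUnitalNormedRing A] [NormedSpace ℂ A]
    [IsScalarTower ℂ A A] [SMulCommClass ℂ A A] (M : BeurlingAlgebra w A) :
    ∃ Φ : Bidual A, Φ ≠ 0 ∧ ∀ Ψ : Bidual A, Φ * Ψ * Φ = 0 := by
  obtain ⟨δ, h1, h2, h3⟩ := hD hw M
  let W : BeurW.Weight G := ⟨w, hw.pos, hw.submul, hw.one⟩
  have hK : Beur.HasNil W.ker := by
    rcases hA G W.ker with h | ⟨e, he⟩
    · exact h
    · exact hB G W.ker e he
  have H : BeurN.IsBeurling W A δ := by
    refine ⟨fun g h => (h1 g h).symm, ?_, ?_⟩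
    · intro c
      have := h2 c
      rw [Finsupp.linearCombination_apply] at this
      exact this
    · have : (Submodule.span ℂ (Set.range δ) : Set A) = Set.range (Finsupp.linearCombination ℂ δ) := by
        rw [← Finsupp.range_linearCombination]; rfl
      rw [this]
      exact h3
  obtain ⟨n, hn0, hn⟩ := BeurN.transfer H hK
  have key : ∀ N : Bidual A, bd N = n → ∀ Ψ : Bidual A, N * Ψ * N = 0 := by
    intro N hN Ψ
    rw [mul_assoc, mul_def, mul_def]
    have h4 := hn (bd Ψ)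
    rw [← hN, ← box_eq_arens, ← box_eq_arens] at h4
    exact h4
  exact ⟨(n : Bidual A), hn0, key n rfl⟩

theorem main_of (hA : Beur.TaskA.{u}) (hB : Beur.TaskB.{u}) (hD : DiscreteDelta.{u, v})
    (G : Type u) [Group G] [TopologicalSpace G] [IsTopologicalGroup G] [LocallyCompactSpace G]
    [T2Space G] [MeasurableSpace G] [BorelSpace G] [Infinite G] (w : G → ℝ)
    (hw : IsWeight w) (A : Type v) [NonUnitalNormedRing A] [NormedSpace ℂ A]
    [IsScalarTower ℂ A A] [SMulCommClass ℂ A A] (M : BeurlingAlgebra w A) :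
    ∃ Φ : Bidual A, Φ ≠ 0 ∧ InRad Φ ∧ ∀ Ψ : Bidual A, Φ * Ψ * Φ = 0 := by
  by_cases hG : DiscreteTopology G
  · obtain ⟨Φ, h0, h1⟩ := discrete_of hA hB hD hw M
    exact ⟨Φ, h0, inRad_of_nil Φ h1, h1⟩
  · obtain ⟨Φ, h0, h1⟩ := nondiscrete hG hw M
    exact ⟨Φ, h0, inRad_of_nil Φ fun y => h1 _, fun y => h1 _⟩

end H434R3.Beurling
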