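import Mathlib

set_option autoImplicit false

/-!
# Weights and Beurling algebras `L¹(G, w)` of locally compact groups
-/

namespace H434R3.Beurling

open MeasureTheory MeasureTheory.Measure

/-- A weight on a topological group: continuous, positive, submultiplicative, `w 1 = 1`. -/
structure IsWeight {G : Type*} [Group G] [TopologicalSpace G] (w : G → ℝ) : Prop where
  cont : Continuous w
  pos : ∀ s, 0 < w s
  submul : ∀ s t, w (s * t) ≤ w s * w t
  one : w 1 = 1

variable {G : Type*} [Group G] [TopologicalSpace G] [IsTopologicalGroup G] [LocallyCompactSpace G]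
  [MeasurableSpace G] [BorelSpace G]

/-- `f` is integrable with respect to `w dm`, where `m` is the left Haar measure: `f w ∈ L¹(G)`. -/
def IntW (w : G → ℝ) (f : G → ℂ) : Prop :=
  Integrable (fun s => (w s : ℂ) * f s) (haar : Measure G)

/-- The convolution `(f * g)(s) = ∫ f(t) g(t⁻¹ s) dm(t)`, `m` the left Haar measure. -/
noncomputable def convol (f g : G → ℂ) : G → ℂ :=
  fun s => ∫ t, f t * g (t⁻¹ * s) ∂(haar : Measure G)

/-- `A` is the Beurling algebra `L¹(G, w)`: its elements are the classes `cls f` of the functions
`f` on `G` which are integrable with respect to `w dm`, the linear structure is the pointwise one,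
the norm is `∫ |f| w dm`, and the product is convolution. -/
structure L1Alg (w : G → ℝ) (A : Type*) [NonUnitalNormedRing A] [NormedSpace ℂ A] where
  /-- the class of an integrable function -/
  cls : (f : G → ℂ) → IntW w f → A
  surj : ∀ a : A, ∃ (f : G → ℂ) (hf : IntW w f), cls f hf = a
  add : ∀ (f g : G → ℂ) (hf : IntW w f) (hg : IntW w g) (hfg : IntW w fun s => f s + g s),
    cls (fun s => f s + g s) hfg = cls f hf + cls g hg
  smul : ∀ (c : ℂ) (f : G → ℂ) (hf : IntW w f) (hcf : IntW w fun s => c * f s),
    cls (fun s => c * f s) hcf = c • cls f hf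
  norm : ∀ (f : G → ℂ) (hf : IntW w f), ‖cls f hf‖ = ∫ s, ‖f s‖ * w s ∂(haar : Measure G)
  mul : ∀ (f g : G → ℂ) (hf : IntW w f) (hg : IntW w g),
    ∃ h : IntW w (convol f g), cls f hf * cls g hg = cls (convol f g) h

end H434R3.Beurling
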