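import Pool.Agent.H434R3.Arens
import Pool.Agent.H434R3.L1Alg

set_option autoImplicit false
set_option linter.unusedSectionVars false

/-!
# Beurling algebras `L¹(G, ω)` of locally compact groups
-/

namespace H434R3.Beurling

open MeasureTheory MeasureTheory.Measure Filter Topology
open scoped NNReal ENNReal

variable {G : Type*} [Group G] [TopologicalSpace G] [IsTopologicalGroup G] [LocallyCompactSpace G]
  [MeasurableSpace G] [BorelSpace G]

/-- The measure `w dm`, `m` the left Haar measure. -/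
noncomputable def wm (w : G → ℝ) : Measure G :=
  (haar : Measure G).withDensity fun s => ENNReal.ofReal (w s)

/-- `A` is the Beurling algebra `L¹(G, w)`: as a normed space it is `L¹` of the measure `w dm`
(through the isometry `ι`), and its product is the convolution
`(f * g)(s) = ∫ f(t) g(t⁻¹ s) dm(t)`. -/
structure BeurlingAlgebra (w : G → ℝ) (A : Type*) [NonUnitalNormedRing A] [NormedSpace ℂ A] where
  ι : A ≃ₗᵢ[ℂ] Lp ℂ 1 (wm w)
  conv : ∀ (f g : G → ℂ) (hf : Integrable f (wm w)) (hg : Integrable g (wm w)),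
    ∃ h : Integrable (fun s => ∫ t, f t * g (t⁻¹ * s) ∂(haar : Measure G)) (wm w),
      ι.symm (hf.toL1 f) * ι.symm (hg.toL1 g) = ι.symm (h.toL1 _)

section basics

variable {w : G → ℝ}

lemma wm_eq (w : G → ℝ) :
    wm w = (haar : Measure G).withDensity fun s => (((w s).toNNReal : ℝ≥0) : ℝ≥0∞) := rfl

lemma meas_nn (hw : IsWeight w) : Measurable fun s => (w s).toNNReal :=
  hw.cont.measurable.real_toNNReal

lemma integrable_wm_iff (hw : IsWeight w) {f : G → ℂ} :
    Integrable f (wm w) ↔ Integrable (fun s => (w s : ℂ) * f s) (haar : Measure G) := by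
  rw [wm_eq, integrable_withDensity_iff_integrable_smul (meas_nn hw)]
  have : (fun x => (w x).toNNReal • f x) = fun s => (w s : ℂ) * f s := by
    ext s
    rw [NNReal.smul_def, Real.coe_toNNReal _ (hw.pos s).le]
    rfl
  rw [this]

lemma integral_wm (hw : IsWeight w) (f : G → ℂ) :
    ∫ s, f s ∂(wm w) = ∫ s, (w s : ℂ) * f s ∂(haar : Measure G) := by
  rw [wm_eq, integral_withDensity_eq_integral_smul (meas_nn hw)]
  refine integral_congr_ae (Eventually.of_forall fun s => ?_)
  simp only [NNReal.smul_def, Real.coe_toNNReal _ (hw.pos s).le]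
  rfl

lemma integral_wm_real (hw : IsWeight w) (f : G → ℝ) :
    ∫ s, f s ∂(wm w) = ∫ s, w s * f s ∂(haar : Measure G) := by
  rw [wm_eq, integral_withDensity_eq_integral_smul (meas_nn hw)]
  refine integral_congr_ae (Eventually.of_forall fun s => ?_)
  simp only [NNReal.smul_def, Real.coe_toNNReal _ (hw.pos s).le, smul_eq_mul]

end basics

section convert

variable {w : G → ℝ} {A : Type*} [NonUnitalNormedRing A] [NormedSpace ℂ A]

lemma intW_iff (hw : IsWeight w) {f : G → ℂ} : IntW w f ↔ Integrable f (wm w) :=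
  (integrable_wm_iff hw).symm

lemma norm_eq_wm (hw : IsWeight w) (f : G → ℂ) :
    ∫ s, ‖f s‖ * w s ∂(haar : Measure G) = ∫ s, ‖f s‖ ∂(wm w) := by
  rw [integral_wm_real hw]
  refine integral_congr_ae (Eventually.of_forall fun s => ?_)
  exact mul_comm _ _

lemma cls_congr (hw : IsWeight w) (M : L1Alg w A) {f g : G → ℂ} (hf : IntW w f) (hg : IntW w g)
    (h : f =ᵐ[wm w] g) : M.cls f hf = M.cls g hg := by
  have hneg : IntW w fun s => (-1 : ℂ) * g s := by
    rw [intW_iff hw]; exact ((intW_iff hw).1 hg).const_mul _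
  have hsum : IntW w fun s => f s + (-1 : ℂ) * g s := by
    rw [intW_iff hw]; exact ((intW_iff hw).1 hf).add ((intW_iff hw).1 hneg)
  have h1 := M.add f (fun s => (-1 : ℂ) * g s) hf hneg hsum
  have h2 := M.smul (-1) g hg hneg
  have h3 := M.norm _ hsum
  rw [norm_eq_wm hw] at h3
  have h4 : ∫ s, ‖f s + (-1 : ℂ) * g s‖ ∂(wm w) = 0 := by
    rw [integral_eq_zero_iff_of_nonneg (fun s => norm_nonneg _) ((intW_iff hw).1 hsum).norm]
    filter_upwards [h] with s hs
    simp [hs]
  rw [h4, norm_eq_zero, h1, h2] at h3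
  have : M.cls f hf - M.cls g hg = 0 := by
    rw [← h3]; simp [sub_eq_add_neg]
  exact sub_eq_zero.1 this

/-- the isometry of `L¹(w dm)` onto `A` -/
noncomputable def toA (hw : IsWeight w) (M : L1Alg w A) : Lp ℂ 1 (wm w) →ₗᵢ[ℂ] A where
  toFun φ := M.cls φ ((intW_iff hw).2 (L1.integrable_coeFn φ))
  map_add' φ ψ := by
    rw [← M.add _ _ ((intW_iff hw).2 (L1.integrable_coeFn φ))
      ((intW_iff hw).2 (L1.integrable_coeFn ψ))
      ((intW_iff hw).2 ((L1.integrable_coeFn φ).add (L1.integrable_coeFn ψ)))]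
    exact cls_congr hw M _ _ (Lp.coeFn_add φ ψ)
  map_smul' c φ := by
    rw [RingHom.id_apply, ← M.smul c _ ((intW_iff hw).2 (L1.integrable_coeFn φ))
      ((intW_iff hw).2 ((L1.integrable_coeFn φ).const_mul c))]
    exact cls_congr hw M _ _ (Lp.coeFn_smul c φ)
  norm_map' φ := by
    change ‖M.cls φ _‖ = _
    rw [M.norm, norm_eq_wm hw, L1.norm_eq_integral_norm]

lemma toA_toL1 (hw : IsWeight w) (M : L1Alg w A) (f : G → ℂ) (hf : Integrable f (wm w)) :
    toA hw M (hf.toL1 f) = M.cls f ((intW_iff hw).2 hf) :=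
  cls_congr hw M _ _ (Integrable.coeFn_toL1 hf)

lemma toA_surj (hw : IsWeight w) (M : L1Alg w A) : Function.Surjective (toA hw M) := by
  intro a
  obtain ⟨f, hf, rfl⟩ := M.surj a
  exact ⟨((intW_iff hw).1 hf).toL1 f, toA_toL1 hw M f _⟩

/-- the model through an isometry -/
noncomputable def L1Alg.toBA (hw : IsWeight w) (M : L1Alg w A) : BeurlingAlgebra w A where
  ι := (LinearIsometryEquiv.ofSurjective (toA hw M) (toA_surj hw M)).symm
  conv f g hf hg := by
    obtain ⟨h, h1⟩ := M.mul f g ((intW_iff hw).2 hf) ((intW_iff hw).2 hg)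
    refine ⟨(intW_iff hw).1 h, ?_⟩
    rw [LinearIsometryEquiv.symm_symm]
    change toA hw M (hf.toL1 f) * toA hw M (hg.toL1 g) = toA hw M (((intW_iff hw).1 h).toL1 _)
    rw [toA_toL1, toA_toL1, toA_toL1]
    exact h1

end convert

section cluster

variable {A : Type*} [NonUnitalNormedRing A] [NormedSpace ℂ A] [IsScalarTower ℂ A A]
  [SMulCommClass ℂ A A]

open H434R3.Arens

/-- weak-* limits of bounded families of elements of `A` along ultrafilters -/
lemma exists_cluster {I : Type*} (𝒰 : Ultrafilter I) (b : I → A) (C : ℝ) (hb : ∀ i, ‖b i‖ ≤ C) :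
    ∃ Φ : Bidual A, ∀ h : StrongDual ℂ A, Tendsto (fun i => h (b i)) 𝒰 (𝓝 (ev Φ h)) := by
  have hcomp := WeakDual.isCompact_closedBall (𝕜 := ℂ) (E := StrongDual ℂ A)
    (0 : StrongDual ℂ (StrongDual ℂ A)) C
  let φ : I → WeakDual ℂ (StrongDual ℂ A) := fun i =>
    StrongDual.toWeakDual (NormedSpace.inclusionInDoubleDual ℂ A (b i))
  have hin : ((𝒰.map φ : Ultrafilter _) : Filter (WeakDual ℂ (StrongDual ℂ A)))
      ≤ 𝓟 (WeakDual.toStrongDual ⁻¹' Metric.closedBall (0 : StrongDual ℂ (StrongDual ℂ A)) C) := by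
    rw [le_principal_iff]
    change ∀ᶠ n in (𝒰 : Filter I), φ n ∈ _
    refine Eventually.of_forall fun i => ?_
    change NormedSpace.inclusionInDoubleDual ℂ A (b i) ∈
      Metric.closedBall (0 : StrongDual ℂ (StrongDual ℂ A)) C
    rw [Metric.mem_closedBall]
    refine (dist_zero_right (NormedSpace.inclusionInDoubleDual ℂ A (b i))).trans_le ?_
    exact (NormedSpace.double_dual_bound ℂ A (b i)).trans (hb i)
  obtain ⟨m, -, hle⟩ := hcomp.ultrafilter_le_nhds _ hin
  refine ⟨WeakDual.toStrongDual m, fun h => ?_⟩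
  have h1 : Tendsto φ 𝒰 (𝓝 m) := hle
  exact ((WeakDual.eval_continuous h).tendsto m).comp h1

end cluster

end H434R3.Beurling
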