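import Mathlib

set_option autoImplicit false

/-!
# Translation planes from spreads

A spread in an abelian group `V` is a family `W : ι → AddSubgroup V` that covers `V`, whose
members pairwise meet trivially and pairwise generate `V`. It gives a projective plane with
points `V ⊕ ι` and lines `Option (Σ i, V ⧸ W i)`.
-/

namespace Pool.Agent.H434R3.TransPlane

open Configuration

variable {V ι : Type}

/-- A spread of the abelian group `V`. -/
structure IsSpread [AddCommGroup V] (W : ι → AddSubgroup V) : Prop where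
  cover : ∀ v : V, ∃ i, v ∈ W i
  disj : ∀ i j, i ≠ j → ∀ v, v ∈ W i → v ∈ W j → v = 0
  compl : ∀ i j, i ≠ j → ∀ v, ∃ a ∈ W i, ∃ b ∈ W j, v = a + b
  ne_bot : ∀ i, ∃ v ∈ W i, v ≠ 0
  two : ∃ i j : ι, i ≠ j

/-- Points of the translation plane: vectors and slopes. -/
def Pt (V ι : Type) : Type := V ⊕ ι

/-- Lines of the translation plane: cosets of members of the spread, and the line at infinity. -/
def Ln [AddCommGroup V] (W : ι → AddSubgroup V) : Type := Option (Σ i, V ⧸ W i)

/-- Incidence. -/
def inc [AddCommGroup V] (W : ι → AddSubgroup V) : Pt V ι → Ln W → Prop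
  | Sum.inl v, some ⟨i, c⟩ => (QuotientAddGroup.mk v : V ⧸ W i) = c
  | Sum.inr j, some ⟨i, _⟩ => i = j
  | Sum.inl _, none => False
  | Sum.inr _, none => True

variable [AddCommGroup V] (W : ι → AddSubgroup V)

instance : Membership (Pt V ι) (Ln W) := ⟨fun l p => inc W p l⟩

/-- affine point -/
def aff (v : V) : Pt V ι := Sum.inl v
/-- point at infinity -/
def inf (i : ι) : Pt V ι := Sum.inr i
/-- affine line with slope `i` through `v` -/
def line (i : ι) (v : V) : Ln W := some ⟨i, QuotientAddGroup.mk v⟩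
/-- line at infinity -/
def linf : Ln W := none

variable {W}

lemma pt_cases (p : Pt V ι) : (∃ v, p = aff v) ∨ (∃ i, p = inf i) := by
  rcases p with v | i
  · exact Or.inl ⟨v, rfl⟩
  · exact Or.inr ⟨i, rfl⟩

lemma ln_cases (l : Ln W) : (∃ i v, l = line W i v) ∨ l = linf W := by
  rcases l with _ | ⟨i, c⟩
  · exact Or.inr rfl
  · obtain ⟨v, rfl⟩ := QuotientAddGroup.mk_surjective c
    exact Or.inl ⟨i, v, rfl⟩

lemma aff_inj {u v : V} : (aff u : Pt V ι) = aff v ↔ u = v := Sum.inl.injEq u v ▸ Iff.rfl

lemma inf_inj {i j : ι} : (inf i : Pt V ι) = inf j ↔ i = j := Sum.inr.injEq i j ▸ Iff.rfl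

lemma aff_ne_inf {v : V} {i : ι} : (aff v : Pt V ι) ≠ inf i := by
  intro h; exact Sum.inl_ne_inr h

lemma line_ne_linf {i : ι} {v : V} : line W i v ≠ linf W := by
  intro h; exact Option.some_ne_none _ h

lemma aff_mem_line {u v : V} {i : ι} : (aff u : Pt V ι) ∈ line W i v ↔ -u + v ∈ W i := by
  show (QuotientAddGroup.mk u : V ⧸ W i) = QuotientAddGroup.mk v ↔ _
  exact QuotientAddGroup.eq

lemma inf_mem_line {v : V} {i j : ι} : (inf j : Pt V ι) ∈ line W i v ↔ i = j := Iff.rfl

lemma aff_not_mem_linf {u : V} : (aff u : Pt V ι) ∉ linf W := fun h => h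

lemma inf_mem_linf {i : ι} : (inf i : Pt V ι) ∈ linf W := trivial

lemma line_eq_iff {i : ι} {u v : V} : line W i u = line W i v ↔ -u + v ∈ W i := by
  constructor
  · intro h
    have h1 : (aff u : Pt V ι) ∈ line W i v := by
      rw [← h, aff_mem_line]; simp
    exact aff_mem_line.1 h1
  · intro h
    have : (QuotientAddGroup.mk u : V ⧸ W i) = QuotientAddGroup.mk v := QuotientAddGroup.eq.2 h
    show (some ⟨i, QuotientAddGroup.mk u⟩ : Option (Σ i, V ⧸ W i)) = some ⟨i, QuotientAddGroup.mk v⟩
    rw [this]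

lemma exists_mkLine (hW : IsSpread W) (p q : Pt V ι) :
    ∃ l : Ln W, p ∈ l ∧ q ∈ l := by
  rcases pt_cases p with ⟨u, rfl⟩ | ⟨i, rfl⟩ <;> rcases pt_cases q with ⟨v, rfl⟩ | ⟨j, rfl⟩
  · obtain ⟨i, hi⟩ := hW.cover (-v + u)
    exact ⟨line W i u, aff_mem_line.2 (by simp), aff_mem_line.2 hi⟩
  · exact ⟨line W j u, aff_mem_line.2 (by simp), inf_mem_line.2 rfl⟩
  · exact ⟨line W i v, inf_mem_line.2 rfl, aff_mem_line.2 (by simp)⟩
  · exact ⟨linf W, inf_mem_linf, inf_mem_linf⟩

lemma exists_mkPoint (hW : IsSpread W) (l m : Ln W) :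
    ∃ p : Pt V ι, p ∈ l ∧ p ∈ m := by
  rcases ln_cases l with ⟨i, u, rfl⟩ | rfl <;> rcases ln_cases m with ⟨j, v, rfl⟩ | rfl
  · by_cases hij : i = j
    · subst hij
      exact ⟨inf i, inf_mem_line.2 rfl, inf_mem_line.2 rfl⟩
    · obtain ⟨a, ha, b, hb, hab⟩ := hW.compl i j hij (u - v)
      refine ⟨aff (u - a), aff_mem_line.2 ?_, aff_mem_line.2 ?_⟩
      · have : -(u - a) + u = a := by abel
        rw [this]; exact ha
      · have : -(u - a) + v = -b := by
          have : u = a + b + v := by rw [← hab]; abel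
          rw [this]; abel
        rw [this]; exact neg_mem hb
  · exact ⟨inf i, inf_mem_line.2 rfl, inf_mem_linf⟩
  · exact ⟨inf j, inf_mem_linf, inf_mem_line.2 rfl⟩
  · obtain ⟨i, j, -⟩ := hW.two
    exact ⟨inf i, inf_mem_linf, inf_mem_linf⟩

lemma eq_or_eq' (hW : IsSpread W) {p q : Pt V ι} {l m : Ln W} (h1 : p ∈ l) (h2 : q ∈ l)
    (h3 : p ∈ m) (h4 : q ∈ m) : p = q ∨ l = m := by
  rcases ln_cases l with ⟨i, a, rfl⟩ | rfl
  · rcases ln_cases m with ⟨j, b, rfl⟩ | rfl
    · rcases pt_cases p with ⟨u, rfl⟩ | ⟨k, rfl⟩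
      · rcases pt_cases q with ⟨v, rfl⟩ | ⟨k', rfl⟩
        · rw [aff_mem_line] at h1 h2 h3 h4
          by_cases hij : i = j
          · subst hij
            right
            rw [line_eq_iff]
            have : -a + b = -(-u + a) + (-u + b) := by abel
            rw [this]
            exact add_mem (neg_mem h1) h3
          · left
            rw [aff_inj]
            have h5 : -u + v ∈ W i := by
              have : -u + v = (-u + a) - (-v + a) := by abel
              rw [this]; exact sub_mem h1 h2
            have h6 : -u + v ∈ W j := by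
              have : -u + v = (-u + b) - (-v + b) := by abel
              rw [this]; exact sub_mem h3 h4
            have h7 := hW.disj i j hij _ h5 h6
            have : v = u + (-u + v) := by abel
            rw [this, h7, add_zero]
        · rw [inf_mem_line] at h2 h4
          subst h2
          subst h4
          right
          rw [aff_mem_line] at h1 h3
          rw [line_eq_iff]
          have : -a + b = -(-u + a) + (-u + b) := by abel
          rw [this]
          exact add_mem (neg_mem h1) h3
      · rcases pt_cases q with ⟨v, rfl⟩ | ⟨k', rfl⟩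
        · rw [inf_mem_line] at h1 h3
          subst h1
          subst h3
          right
          rw [aff_mem_line] at h2 h4
          rw [line_eq_iff]
          have : -a + b = -(-v + a) + (-v + b) := by abel
          rw [this]
          exact add_mem (neg_mem h2) h4
        · rw [inf_mem_line] at h1 h2
          left
          rw [← h1, ← h2]
    · rcases pt_cases p with ⟨u, rfl⟩ | ⟨k, rfl⟩
      · exact absurd h3 aff_not_mem_linf
      · rcases pt_cases q with ⟨v, rfl⟩ | ⟨k', rfl⟩
        · exact absurd h4 aff_not_mem_linf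
        · rw [inf_mem_line] at h1 h2
          left
          rw [← h1, ← h2]
  · rcases ln_cases m with ⟨j, b, rfl⟩ | rfl
    · rcases pt_cases p with ⟨u, rfl⟩ | ⟨k, rfl⟩
      · exact absurd h1 aff_not_mem_linf
      · rcases pt_cases q with ⟨v, rfl⟩ | ⟨k', rfl⟩
        · exact absurd h2 aff_not_mem_linf
        · rw [inf_mem_line] at h3 h4
          left
          rw [← h3, ← h4]
    · right; rfl

/-- The projective plane of a spread. -/
noncomputable def plane (hW : IsSpread W) : ProjectivePlane (Pt V ι) (Ln W) where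
  exists_point := by
    intro l
    rcases ln_cases l with ⟨i, a, rfl⟩ | rfl
    · obtain ⟨j, k, hjk⟩ := hW.two
      by_cases hij : i = j
      · exact ⟨inf k, fun h => hjk (hij ▸ inf_mem_line.1 h)⟩
      · exact ⟨inf j, fun h => hij (inf_mem_line.1 h)⟩
    · exact ⟨aff 0, aff_not_mem_linf⟩
  exists_line := by
    intro p
    rcases pt_cases p with ⟨u, rfl⟩ | ⟨k, rfl⟩
    · exact ⟨linf W, aff_not_mem_linf⟩
    · obtain ⟨j, i, hji⟩ := hW.two
      by_cases hij : k = j
      · exact ⟨line W i 0, fun h => hji (hij.symm.trans (inf_mem_line.1 h).symm)⟩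
      · exact ⟨line W j 0, fun h => hij (inf_mem_line.1 h).symm⟩
  eq_or_eq := fun h1 h2 h3 h4 => eq_or_eq' hW h1 h2 h3 h4
  mkPoint := fun {l m} _ => Classical.choose (exists_mkPoint hW l m)
  mkPoint_ax := fun {l m} _ => Classical.choose_spec (exists_mkPoint hW l m)
  mkLine := fun {p q} _ => Classical.choose (exists_mkLine hW p q)
  mkLine_ax := fun {p q} _ => Classical.choose_spec (exists_mkLine hW p q)
  exists_config := by
    obtain ⟨i, j, hij⟩ := hW.two
    obtain ⟨v, hv, hv0⟩ := hW.ne_bot j
    -- p₁ = inf i, l₂, l₃ not through it; p₂ = 0 ∉ l₁ = linf; p₃ = v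
    refine ⟨inf i, aff 0, aff v, linf W, line W j 0, ?_⟩
    by_cases h : ∃ k, k ≠ i ∧ k ≠ j
    · obtain ⟨k, hki, hkj⟩ := h
      refine ⟨line W k 0, ?_, ?_, ?_, ?_, ?_, ?_, ?_, ?_⟩
      · intro h; exact hij (inf_mem_line.1 h).symm
      · intro h; exact hki (inf_mem_line.1 h)
      · exact aff_not_mem_linf
      · rw [aff_mem_line]; simp
      · rw [aff_mem_line]; simp
      · exact aff_not_mem_linf
      · rw [aff_mem_line]; simpa using hv
      · intro h
        rw [aff_mem_line] at h
        exact hv0 (hW.disj j k hkj.symm v hv (by simpa using h))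
    · -- impossible: the sum of nonzero vectors of two components lies in a third one
      exfalso
      obtain ⟨w, hw, hw0⟩ := hW.ne_bot i
      obtain ⟨k, hk⟩ := hW.cover (v + w)
      apply h
      refine ⟨k, ?_, ?_⟩
      · rintro rfl
        have : v ∈ W k := by
          have : v = (v + w) - w := by abel
          rw [this]; exact sub_mem hk hw
        exact hv0 (hW.disj k j hij v this hv)
      · rintro rfl
        have : w ∈ W k := by
          have : w = (v + w) - v := by abel
          rw [this]; exact sub_mem hk hv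
        exact hw0 (hW.disj i k hij w hw this)

section Coll

/-- `g` maps the component `i` onto the component `π i`. -/
def Good (W : ι → AddSubgroup V) (g : V ≃+ V) (π : Equiv.Perm ι) : Prop :=
  ∀ i, (W i).map (g : V →+ V) = W (π i)

lemma good_of (hW : IsSpread W) (g : V ≃+ V) (π : Equiv.Perm ι)
    (h : ∀ i, ∀ v ∈ W i, g v ∈ W (π i)) : Good W g π := by
  intro i
  ext w
  rw [AddSubgroup.mem_map]
  constructor
  · rintro ⟨v, hv, rfl⟩
    exact h i v hv
  · intro hw
    obtain ⟨v, rfl⟩ := g.surjective w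
    refine ⟨v, ?_, rfl⟩
    obtain ⟨j, hj⟩ := hW.cover v
    by_cases hij : π j = π i
    · rw [← π.injective hij]; exact hj
    · have h0 : g v = 0 := hW.disj _ _ hij _ (h j v hj) hw
      have : v = 0 := by simpa using h0
      rw [this]; exact zero_mem _

lemma Good.mul {g g' : V ≃+ V} {π π' : Equiv.Perm ι} (h : Good W g π) (h' : Good W g' π') :
    Good W (g.trans g') (π.trans π') := by
  intro i
  have : ((g.trans g' : V ≃+ V) : V →+ V) = (g' : V →+ V).comp (g : V →+ V) := rfl
  rw [this, ← AddSubgroup.map_map, h i, h' (π i)]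
  rfl

lemma Good.symm {g : V ≃+ V} {π : Equiv.Perm ι} (h : Good W g π) :
    Good W g.symm π.symm := by
  intro i
  have h1 := h (π.symm i)
  rw [Equiv.apply_symm_apply] at h1
  rw [← h1, AddSubgroup.map_map]
  have : ((g.symm : V →+ V).comp (g : V →+ V)) = AddMonoidHom.id V := by
    ext v; simp
  rw [this, AddSubgroup.map_id]

/-- The action on points. -/
def collP (g : V ≃+ V) (π : Equiv.Perm ι) : Equiv.Perm (Pt V ι) := Equiv.sumCongr g.toEquiv π

/-- The action on lines. -/
def collL {g : V ≃+ V} {π : Equiv.Perm ι} (h : Good W g π) : Equiv.Perm (Ln W) :=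
  Equiv.optionCongr (Equiv.sigmaCongr π
    (fun i => (QuotientAddGroup.congr (W i) (W (π i)) g (h i)).toEquiv))

lemma collP_aff (g : V ≃+ V) (π : Equiv.Perm ι) (v : V) :
    collP g π (aff v : Pt V ι) = aff (g v) := rfl

lemma collP_inf (g : V ≃+ V) (π : Equiv.Perm ι) (i : ι) :
    collP g π (inf i : Pt V ι) = inf (π i) := rfl

lemma collL_line {g : V ≃+ V} {π : Equiv.Perm ι} (h : Good W g π) (i : ι) (v : V) :
    collL h (line W i v) = line W (π i) (g v) := rfl

lemma collL_linf {g : V ≃+ V} {π : Equiv.Perm ι} (h : Good W g π) :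
    collL h (linf W) = linf W := rfl

lemma coll_inc {g : V ≃+ V} {π : Equiv.Perm ι} (h : Good W g π) (p : Pt V ι) (l : Ln W) :
    p ∈ l ↔ collP g π p ∈ collL h l := by
  rcases pt_cases p with ⟨u, rfl⟩ | ⟨k, rfl⟩ <;> rcases ln_cases l with ⟨i, a, rfl⟩ | rfl
  · rw [collP_aff, collL_line, aff_mem_line, aff_mem_line, ← h i, AddSubgroup.mem_map]
    constructor
    · intro h1
      exact ⟨_, h1, by simp⟩
    · rintro ⟨w, hw, hw'⟩
      have : w = -u + a := by
        apply g.injective
        rw [map_add, map_neg]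
        exact hw'
      rw [← this]; exact hw
  · rw [collP_aff, collL_linf]
    exact ⟨fun h => absurd h aff_not_mem_linf, fun h => absurd h aff_not_mem_linf⟩
  · rw [collP_inf, collL_line, inf_mem_line, inf_mem_line]
    exact ⟨fun h => by rw [h], fun h => π.injective h⟩
  · rw [collP_inf, collL_linf]
    exact ⟨fun _ => inf_mem_linf, fun _ => inf_mem_linf⟩

end Coll

end Pool.Agent.H434R3.TransPlane
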