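import Mathlib
import Pool.Agent.H434R3.TransPlane

set_option autoImplicit false

/-!
# The Lüneburg spread of order 64

`F` is a field of characteristic two in which `x ^ 8 = x`. The vector space is `F ^ 4`, written
`(y₁, y₂, x₁, x₂)`.
-/

namespace Pool.Agent.H434R3.Luneburg

open Pool.Agent.H434R3.TransPlane Configuration

variable {F : Type} [Field F]

/-- the vector space -/
abbrev Vec (F : Type) : Type := F × F × F × F

/-- the quantity `y₁ - (x M)₁` with `M = ((c, a ^ 4), (c ^ 4 + a ^ 6, c))`. -/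
def comp [CharP F 2] : Option (F × F) → AddSubgroup (Vec F)
  | none =>
    { carrier := {v | v.2.2.1 = 0 ∧ v.2.2.2 = 0}
      add_mem' := by
        rintro ⟨y1, y2, x1, x2⟩ ⟨y1', y2', x1', x2'⟩ ⟨h1, h2⟩ ⟨h3, h4⟩
        simp only at h1 h2 h3 h4
        simp [h1, h2, h3, h4]
      zero_mem' := by simp
      neg_mem' := by
        rintro ⟨y1, y2, x1, x2⟩ ⟨h1, h2⟩
        simp only at h1 h2
        simp [h1, h2] }
  | some (a, c) =>
    { carrier := {v | v.1 = v.2.2.1 * c + v.2.2.2 * (c ^ 4 + a ^ 6) ∧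
        v.2.1 = v.2.2.1 * a ^ 4 + v.2.2.2 * c}
      add_mem' := by
        rintro ⟨y1, y2, x1, x2⟩ ⟨y1', y2', x1', x2'⟩ ⟨h1, h2⟩ ⟨h3, h4⟩
        simp only at h1 h2 h3 h4
        simp only [Set.mem_ofPred_eq, Prod.mk_add_mk]
        exact ⟨by rw [h1, h3]; ring, by rw [h2, h4]; ring⟩
      zero_mem' := by simp
      neg_mem' := by
        rintro ⟨y1, y2, x1, x2⟩ ⟨h1, h2⟩
        simp only at h1 h2
        simp only [Set.mem_ofPred_eq, Prod.neg_mk]
        exact ⟨by rw [h1]; ring, by rw [h2]; ring⟩ }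

variable [CharP F 2]

lemma mem_none {y1 y2 x1 x2 : F} : (y1, y2, x1, x2) ∈ comp (F := F) none ↔ x1 = 0 ∧ x2 = 0 :=
  Iff.rfl

lemma mem_some {a c y1 y2 x1 x2 : F} : (y1, y2, x1, x2) ∈ comp (F := F) (some (a, c)) ↔
    y1 = x1 * c + x2 * (c ^ 4 + a ^ 6) ∧ y2 = x1 * a ^ 4 + x2 * c :=
  Iff.rfl

section arith

set_option linter.unusedSectionVars false

lemma two0 : (2 : F) = 0 := CharTwo.two_eq_zero

variable (h8 : ∀ x : F, x ^ 8 = x)
include h8

lemma no_root (t : F) : t ^ 4 + t ^ 2 + 1 ≠ 0 := by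
  intro h
  have h2 := two0 (F := F)
  have e1 : t ^ 4 = t ^ 2 + 1 := by
    linear_combination h - (t ^ 2 + 1) * h2
  have e2 : t ^ 8 = t ^ 2 := by
    have : t ^ 8 = (t ^ 4) ^ 2 := by ring
    rw [this, e1]
    linear_combination e1 + (t ^ 2 + 1) * h2
  have e3 : t = t ^ 2 := by rw [← e2, h8]
  have e4 : t * (t - 1) = 0 := by linear_combination -e3
  rcases mul_eq_zero.1 e4 with h0 | h0
  · rw [h0] at h; simp at h
  · have : t = 1 := sub_eq_zero.1 h0
    rw [this] at h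
    have : (1 : F) = 0 := by linear_combination h - h2
    exact one_ne_zero this

lemma det_ne (a c : F) (h : a ≠ 0 ∨ c ≠ 0) : c ^ 2 + a ^ 4 * c ^ 4 + a ^ 10 ≠ 0 := by
  by_cases ha : a = 0
  · subst ha
    have hc : c ≠ 0 := by simpa using h
    simpa using hc
  · intro h0
    have h1 := no_root h8 (c / a ^ 5)
    apply h1
    have ha14 : a ^ 14 = 1 ∨ True := Or.inr trivial
    have h7 : a ^ 7 = 1 := by
      have : a * (a ^ 7 - 1) = 0 := by linear_combination h8 a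
      rcases mul_eq_zero.1 this with h | h
      · exact absurd h ha
      · exact sub_eq_zero.1 h
    have h20 : a ^ 20 ≠ 0 := pow_ne_zero _ ha
    have e : (c / a ^ 5) ^ 4 + (c / a ^ 5) ^ 2 + 1 = (c ^ 4 + c ^ 2 * a ^ 10 + a ^ 20) / a ^ 20 := by
      field_simp
    rw [e, div_eq_zero_iff]
    left
    -- multiply by a^4: a^4 c^4 + c^2 a^14 + a^24
    have h4 : a ^ 4 ≠ 0 := pow_ne_zero _ ha
    apply mul_left_cancel₀ h4
    rw [mul_zero]
    have h14 : a ^ 14 = 1 := by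
      have : a ^ 14 = (a ^ 7) ^ 2 := by ring
      rw [this, h7]; ring
    have h24 : a ^ 24 = a ^ 10 := by
      have : a ^ 24 = (a ^ 7) ^ 2 * a ^ 10 := by ring
      rw [this, h7]; ring
    linear_combination h0 + c ^ 2 * h14 + h24

lemma pow4_add (x y : F) : (x + y) ^ 4 = x ^ 4 + y ^ 4 := by
  have h2 := two0 (F := F)
  linear_combination (2 * x ^ 3 * y + 3 * x ^ 2 * y ^ 2 + 2 * x * y ^ 3) * h2

/-- difference of two spread matrices is nonsingular. -/
lemma det_diff (a c a' c' : F) (h : (a, c) ≠ (a', c')) :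
    (c + c') ^ 2 + (a + a') ^ 4 * ((c + c') ^ 4 + (a ^ 6 + a' ^ 6)) ≠ 0 := by
  have h2 := two0 (F := F)
  set α := a + a' with hα
  have ha' : a' = a + α := by rw [hα]; linear_combination (-a) * h2
  have key := det_ne h8 α (c + c' + a * α ^ 4) (by
    by_contra hcon
    rw [not_or, not_not, not_not] at hcon
    obtain ⟨h0, h1⟩ := hcon
    apply h
    rw [h0] at ha' h1
    simp only [add_zero] at ha'
    have : c + c' = 0 := by simpa using h1
    have : c' = c := by linear_combination this - c * h2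
    rw [ha', this])
  intro h0
  apply key
  rw [← h0, ha', pow4_add h8 (c + c') (a * α ^ 4)]
  have h16 : α ^ 16 = α ^ 2 := by
    have : α ^ 16 = (α ^ 8) ^ 2 := by ring
    rw [this, h8]
  have h20 : α ^ 20 = α ^ 6 := by
    have : α ^ 20 = α ^ 16 * α ^ 4 := by ring
    rw [this, h16]; ring
  have e1 : (a * α ^ 4) ^ 4 = a ^ 4 * α ^ 2 := by
    have : (a * α ^ 4) ^ 4 = a ^ 4 * α ^ 16 := by ring
    rw [this, h16]
  rw [e1]
  linear_combination (c * a * α ^ 4 + c' * a * α ^ 4 - a ^ 6 * α ^ 4 - 3 * a ^ 5 * α ^ 5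
    - 7 * a ^ 4 * α ^ 6 - 10 * a ^ 3 * α ^ 7 - 7 * a ^ 2 * α ^ 8 - 3 * a * α ^ 9) * h2

end arith

section spread

variable [Fintype F] (h8 : ∀ x : F, x ^ 8 = x)
include h8

/-- Unique solvability: a nonsingular 2 x 2 system over a field. -/
lemma solve_zero (p q r s x1 x2 : F) (hdet : p * s - q * r ≠ 0)
    (e1 : x1 * p + x2 * r = 0) (e2 : x1 * q + x2 * s = 0) : x1 = 0 ∧ x2 = 0 := by
  constructor
  · have : x1 * (p * s - q * r) = 0 := by linear_combination s * e1 - r * e2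
    exact (mul_eq_zero.1 this).resolve_right hdet
  · have : x2 * (p * s - q * r) = 0 := by linear_combination p * e2 - q * e1
    exact (mul_eq_zero.1 this).resolve_right hdet

lemma det_diff' (a c a' c' : F) (h : (a, c) ≠ (a', c')) :
    (c - c') * (c - c') - (a ^ 4 - a' ^ 4) * ((c ^ 4 + a ^ 6) - (c' ^ 4 + a' ^ 6)) ≠ 0 := by
  have h2 := two0 (F := F)
  intro h0
  apply det_diff h8 a c a' c' h
  rw [pow4_add h8 a a', pow4_add h8 c c']
  rw [← h0]
  linear_combination (2 * c * c' + a ^ 4 * (c ^ 4 + a ^ 6) + a' ^ 4 * (c' ^ 4 + a' ^ 6)) * h2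

lemma cover_some (x1 x2 y1 y2 : F) (hx : ¬ (x1 = 0 ∧ x2 = 0)) :
    ∃ a c : F, y1 = x1 * c + x2 * (c ^ 4 + a ^ 6) ∧ y2 = x1 * a ^ 4 + x2 * c := by
  have inj : Function.Injective (fun m : F × F =>
      ((x1 * m.2 + x2 * (m.2 ^ 4 + m.1 ^ 6), x1 * m.1 ^ 4 + x2 * m.2) : F × F)) := by
    rintro ⟨a, c⟩ ⟨a', c'⟩ h
    simp only [Prod.mk.injEq] at h
    by_contra hne
    apply hx
    refine solve_zero h8 (c - c') (a ^ 4 - a' ^ 4) ((c ^ 4 + a ^ 6) - (c' ^ 4 + a' ^ 6)) (c - c')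
      x1 x2 (det_diff' h8 a c a' c' hne) ?_ ?_
    · linear_combination h.1
    · linear_combination h.2
  obtain ⟨⟨a, c⟩, h⟩ := (Finite.injective_iff_surjective.1 inj) (y1, y2)
  simp only [Prod.mk.injEq] at h
  exact ⟨a, c, h.1.symm, h.2.symm⟩

lemma spread : IsSpread (comp (F := F)) where
  cover := by
    rintro ⟨y1, y2, x1, x2⟩
    by_cases hx : x1 = 0 ∧ x2 = 0
    · exact ⟨none, mem_none.2 hx⟩
    · obtain ⟨a, c, h⟩ := cover_some h8 x1 x2 y1 y2 hx
      exact ⟨some (a, c), mem_some.2 h⟩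
  disj := by
    rintro (_ | ⟨a, c⟩) (_ | ⟨a', c'⟩) hij ⟨y1, y2, x1, x2⟩ h1 h2
    · exact absurd rfl hij
    · rw [mem_none] at h1
      rw [mem_some] at h2
      obtain ⟨rfl, rfl⟩ := h1
      simp at h2
      simp [h2.1, h2.2]
    · rw [mem_none] at h2
      rw [mem_some] at h1
      obtain ⟨rfl, rfl⟩ := h2
      simp at h1
      simp [h1.1, h1.2]
    · rw [mem_some] at h1 h2
      have hne : (a, c) ≠ (a', c') := fun h => hij (by rw [h])
      obtain ⟨rfl, rfl⟩ := solve_zero h8 (c - c') (a ^ 4 - a' ^ 4)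
        ((c ^ 4 + a ^ 6) - (c' ^ 4 + a' ^ 6)) (c - c')
        x1 x2 (det_diff' h8 a c a' c' hne) (by linear_combination h2.1 - h1.1)
        (by linear_combination h2.2 - h1.2)
      simp at h1
      simp [h1.1, h1.2]
  compl := by
    rintro (_ | ⟨a, c⟩) (_ | ⟨a', c'⟩) hij ⟨y1, y2, x1, x2⟩
    · exact absurd rfl hij
    · refine ⟨(y1 - (x1 * c' + x2 * (c' ^ 4 + a' ^ 6)), y2 - (x1 * a' ^ 4 + x2 * c'), 0, 0),
        mem_none.2 ⟨rfl, rfl⟩, (x1 * c' + x2 * (c' ^ 4 + a' ^ 6), x1 * a' ^ 4 + x2 * c', x1, x2),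
        mem_some.2 ⟨rfl, rfl⟩, ?_⟩
      simp
    · refine ⟨(x1 * c + x2 * (c ^ 4 + a ^ 6), x1 * a ^ 4 + x2 * c, x1, x2),
        mem_some.2 ⟨rfl, rfl⟩,
        (y1 - (x1 * c + x2 * (c ^ 4 + a ^ 6)), y2 - (x1 * a ^ 4 + x2 * c), 0, 0),
        mem_none.2 ⟨rfl, rfl⟩, ?_⟩
      simp
    · have hne : (a, c) ≠ (a', c') := fun h => hij (by rw [h])
      have hd := det_diff' h8 a c a' c' hne
      have inj : Function.Injective (fun z : F × F =>
          ((z.1 * (c - c') + z.2 * ((c ^ 4 + a ^ 6) - (c' ^ 4 + a' ^ 6)),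
            z.1 * (a ^ 4 - a' ^ 4) + z.2 * (c - c')) : F × F)) := by
        rintro ⟨z1, z2⟩ ⟨w1, w2⟩ h
        simp only [Prod.mk.injEq] at h
        obtain ⟨h3, h4⟩ := solve_zero h8 (c - c') (a ^ 4 - a' ^ 4)
          ((c ^ 4 + a ^ 6) - (c' ^ 4 + a' ^ 6)) (c - c') (z1 - w1) (z2 - w2) hd
          (by linear_combination h.1) (by linear_combination h.2)
        rw [sub_eq_zero.1 h3, sub_eq_zero.1 h4]
      obtain ⟨⟨z1, z2⟩, h⟩ := (Finite.injective_iff_surjective.1 inj)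
        (y1 - (x1 * c' + x2 * (c' ^ 4 + a' ^ 6)), y2 - (x1 * a' ^ 4 + x2 * c'))
      simp only [Prod.mk.injEq] at h
      refine ⟨(z1 * c + z2 * (c ^ 4 + a ^ 6), z1 * a ^ 4 + z2 * c, z1, z2),
        mem_some.2 ⟨rfl, rfl⟩, ((x1 - z1) * c' + (x2 - z2) * (c' ^ 4 + a' ^ 6),
          (x1 - z1) * a' ^ 4 + (x2 - z2) * c', x1 - z1, x2 - z2), mem_some.2 ⟨rfl, rfl⟩, ?_⟩
      simp only [Prod.mk_add_mk, Prod.mk.injEq]
      refine ⟨?_, ?_, ?_, ?_⟩
      · linear_combination -h.1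
      · linear_combination -h.2
      · ring
      · ring
  ne_bot := by
    rintro (_ | ⟨a, c⟩)
    · exact ⟨(1, 0, 0, 0), mem_none.2 ⟨rfl, rfl⟩, by simp⟩
    · exact ⟨(1 * c + 0 * (c ^ 4 + a ^ 6), 1 * a ^ 4 + 0 * c, 1, 0), mem_some.2 ⟨rfl, rfl⟩,
        by simp⟩
  two := ⟨none, some (0, 0), by simp⟩

end spread

section group

variable [Fintype F] (h8 : ∀ x : F, x ^ 8 = x)

/-- The Suzuki group element `T(a,b)` as an additive map. -/
def tMap (a b : F) : Vec F →+ Vec F where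
  toFun v := (v.1 + a * v.2.1 + v.2.2.1 * (a ^ 5 + b) + v.2.2.2 * (a ^ 6 + a * b + b ^ 4),
    v.2.1 + v.2.2.1 * a ^ 4 + v.2.2.2 * b, v.2.2.1 + a * v.2.2.2, v.2.2.2)
  map_zero' := by simp
  map_add' := by
    rintro ⟨y1, y2, x1, x2⟩ ⟨y1', y2', x1', x2'⟩
    simp only [Prod.mk_add_mk, Prod.mk.injEq]
    exact ⟨by ring, by ring, by ring, trivial⟩

lemma tMap_inj (a b : F) : Function.Injective (tMap a b) := by
  rw [injective_iff_map_eq_zero]
  rintro ⟨y1, y2, x1, x2⟩ h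
  simp only [tMap, AddMonoidHom.coe_mk, ZeroHom.coe_mk, Prod.mk_eq_zero] at h
  obtain ⟨h1, h2, h3, h4⟩ := h
  subst h4
  have h3' : x1 = 0 := by simpa using h3
  subst h3'
  have h2' : y2 = 0 := by simpa using h2
  subst h2'
  have h1' : y1 = 0 := by simpa using h1
  subst h1'
  rfl

/-- `T(a,b)` as an additive equivalence. -/
noncomputable def tEquiv (a b : F) : Vec F ≃+ Vec F :=
  AddEquiv.ofBijective (tMap a b) (Finite.injective_iff_bijective.1 (tMap_inj a b))

/-- The action of `T(a,b)` on slopes. -/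
def tPerm (a b : F) : Equiv.Perm (Option (F × F)) :=
  Equiv.optionCongr
    { toFun := fun m => (m.1 + a, m.2 + a * m.1 ^ 4 + a ^ 5 + b)
      invFun := fun m => (m.1 - a, m.2 - a * (m.1 - a) ^ 4 - a ^ 5 - b)
      left_inv := by
        rintro ⟨a', c'⟩
        simp only [Prod.mk.injEq]
        exact ⟨by ring, by ring⟩
      right_inv := by
        rintro ⟨a', c'⟩
        simp only [Prod.mk.injEq]
        exact ⟨by ring, by ring⟩ }

include h8

lemma tGood (a b : F) : Good (comp (F := F)) (tEquiv a b) (tPerm a b) := by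
  have h2 := two0 (F := F)
  apply good_of (spread h8)
  rintro (_ | ⟨a', c'⟩) ⟨y1, y2, x1, x2⟩ h
  · rw [mem_none] at h
    obtain ⟨rfl, rfl⟩ := h
    show (_, _, _, _) ∈ comp none
    rw [mem_none]
    simp
  · rw [mem_some] at h
    obtain ⟨rfl, rfl⟩ := h
    show (_, _, _, _) ∈ comp (some (_, _))
    rw [mem_some]
    have p16 : ∀ x : F, x ^ 16 = x ^ 2 := by
      intro x
      have : x ^ 16 = (x ^ 8) ^ 2 := by ring
      rw [this, h8]
    have hc : (c' + a * a' ^ 4 + a ^ 5 + b) ^ 4 = c' ^ 4 + a ^ 4 * a' ^ 2 + a ^ 6 + b ^ 4 := by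
      rw [pow4_add h8, pow4_add h8, pow4_add h8]
      have e1 : (a * a' ^ 4) ^ 4 = a ^ 4 * a' ^ 16 := by ring
      have e2 : (a ^ 5) ^ 4 = a ^ 16 * a ^ 4 := by ring
      rw [e1, e2, p16, p16]
      ring
    have ha : (a' + a) ^ 6 = a' ^ 6 + a' ^ 4 * a ^ 2 + a ^ 4 * a' ^ 2 + a ^ 6 := by
      have e1 : (a' + a) ^ 6 = (a' + a) ^ 4 * (a' + a) ^ 2 := by ring
      rw [e1, pow4_add h8]
      linear_combination (a' * a * (a' ^ 4 + a ^ 4)) * h2
    simp only
    rw [hc, ha, pow4_add h8]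
    constructor
    · linear_combination (-x2 * (a ^ 2 * a' ^ 4 + a ^ 6 + a ^ 4 * a' ^ 2)) * h2
    · linear_combination (-x2 * (a * a' ^ 4 + a ^ 5)) * h2

/-- The swap. -/
def wEquiv : Vec F ≃+ Vec F where
  toFun v := (v.2.2.2, v.2.2.1, v.2.1, v.1)
  invFun v := (v.2.2.2, v.2.2.1, v.2.1, v.1)
  left_inv := fun _ => rfl
  right_inv := fun _ => rfl
  map_add' := fun _ _ => rfl

omit [CharP F 2] [Fintype F] h8 in
lemma wEquiv_wEquiv (v : Vec F) : wEquiv (wEquiv v) = v := rfl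

open Classical in
/-- The action of the swap on slopes. -/
noncomputable def wFun : Option (F × F) → Option (F × F)
  | none => some (0, 0)
  | some (a, c) => if a = 0 ∧ c = 0 then none else
      some (((c ^ 4 + a ^ 6) / (c ^ 2 + a ^ 4 * c ^ 4 + a ^ 10)) ^ 2,
        c / (c ^ 2 + a ^ 4 * c ^ 4 + a ^ 10))

lemma wFun_spec (i : Option (F × F)) (v : Vec F) (hv : v ∈ comp i) :
    wEquiv v ∈ comp (wFun i) := by
  have h2 := two0 (F := F)
  obtain ⟨y1, y2, x1, x2⟩ := v
  have p16 : ∀ x : F, x ^ 16 = x ^ 2 := by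
    intro x
    have : x ^ 16 = (x ^ 8) ^ 2 := by ring
    rw [this, h8]
  rcases i with _ | ⟨a, c⟩
  · rw [mem_none] at hv
    obtain ⟨rfl, rfl⟩ := hv
    show (_, _, _, _) ∈ comp (some (_, _))
    rw [mem_some]
    simp
  · rw [mem_some] at hv
    obtain ⟨rfl, rfl⟩ := hv
    by_cases h0 : a = 0 ∧ c = 0
    · obtain ⟨rfl, rfl⟩ := h0
      have : wFun (F := F) (some (0, 0)) = none := by simp [wFun]
      rw [this]
      show (_, _, _, _) ∈ comp none
      rw [mem_none]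
      simp
    · have hD : c ^ 2 + a ^ 4 * c ^ 4 + a ^ 10 ≠ 0 := det_ne h8 a c (by tauto)
      have : wFun (F := F) (some (a, c)) =
        some (((c ^ 4 + a ^ 6) / (c ^ 2 + a ^ 4 * c ^ 4 + a ^ 10)) ^ 2,
          c / (c ^ 2 + a ^ 4 * c ^ 4 + a ^ 10)) := by simp [wFun, h0]
      rw [this]
      show (_, _, _, _) ∈ comp (some (_, _))
      rw [mem_some]
      simp only
      set D := c ^ 2 + a ^ 4 * c ^ 4 + a ^ 10 with hDdef
      have hD4 : D ^ 4 = c ^ 8 + a ^ 2 * c ^ 2 + a ^ 12 := by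
        rw [hDdef, pow4_add h8, pow4_add h8]
        have e1 : (a ^ 4 * c ^ 4) ^ 4 = a ^ 16 * c ^ 16 := by ring
        have e2 : (a ^ 10) ^ 4 = (a ^ 16) ^ 2 * a ^ 8 := by ring
        rw [e1, e2, p16, p16]
        ring
      have hE4 : (c ^ 4 + a ^ 6) ^ 4 = c ^ 2 + a ^ 10 := by
        rw [pow4_add h8]
        have e1 : (c ^ 4) ^ 4 = c ^ 16 := by ring
        have e2 : (a ^ 6) ^ 4 = a ^ 16 * a ^ 8 := by ring
        rw [e1, e2, p16, p16]
        ring
      have hDE : D = c ^ 2 + (c ^ 4 + a ^ 6) * a ^ 4 := by rw [hDdef]; ring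
      set E := c ^ 4 + a ^ 6 with hEdef
      have ha4 : ((E / D) ^ 2) ^ 4 = E / D := by
        have : ((E / D) ^ 2) ^ 4 = (E / D) ^ 8 := by ring
        rw [this, h8]
      have ha6 : ((E / D) ^ 2) ^ 6 = (E / D) * (E / D) ^ 4 := by
        have : ((E / D) ^ 2) ^ 6 = (E / D) ^ 8 * (E / D) ^ 4 := by ring
        rw [this, h8]
      have hK : (c / D) ^ 4 + ((E / D) ^ 2) ^ 6 = a ^ 4 / D := by
        rw [ha6, div_pow, div_pow, hE4]
        have hD4' : D ^ 4 ≠ 0 := pow_ne_zero _ hD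
        rw [div_mul_div_comm, div_add_div _ _ hD4' (mul_ne_zero hD hD4'),
          div_eq_div_iff (mul_ne_zero hD4' (mul_ne_zero hD hD4')) hD]
        have key : c ^ 4 * D + E * (c ^ 2 + a ^ 10) = a ^ 4 * D ^ 4 := by
          rw [hD4, hDdef, hEdef]
          linear_combination (c ^ 6 + c ^ 4 * a ^ 10) * h2
        linear_combination (D ^ 4 * D) * key
      rw [hK, ha4]
      constructor
      · field_simp
        rw [hDE]
        linear_combination (-x1 * a ^ 4 * c) * h2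
      · field_simp
        rw [hDE]
        linear_combination (-x2 * c * E) * h2

lemma wFun_invol (i : Option (F × F)) : wFun (wFun i) = i := by
  obtain ⟨v, hv, hv0⟩ := (spread h8).ne_bot i
  have h1 := wFun_spec h8 i v hv
  have h2 := wFun_spec h8 _ _ h1
  rw [wEquiv_wEquiv] at h2
  by_contra hne
  exact hv0 ((spread h8).disj _ _ hne v h2 hv)

/-- The permutation of slopes induced by the swap. -/
noncomputable def wPerm : Equiv.Perm (Option (F × F)) where
  toFun := wFun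
  invFun := wFun
  left_inv := wFun_invol h8
  right_inv := wFun_invol h8

lemma wGood : Good (comp (F := F)) wEquiv (wPerm h8) :=
  good_of (spread h8) _ _ (fun i v hv => wFun_spec h8 i v hv)

/-- The group generated by the `T(a,b)` and the swap is doubly transitive on the components. -/
lemma to_std (i j : Option (F × F)) (hij : i ≠ j) :
    ∃ (g : Vec F ≃+ Vec F) (π : Equiv.Perm (Option (F × F))),
      Good (comp (F := F)) g π ∧ π i = none ∧ π j = some (0, 0) := by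
  -- first move `j`-type elements back to `some (0, 0)` while fixing `none`
  have step : ∀ s : F × F, ∃ (g : Vec F ≃+ Vec F) (π : Equiv.Perm (Option (F × F))),
      Good (comp (F := F)) g π ∧ π none = none ∧ π (some s) = some (0, 0) := by
    rintro ⟨a, c⟩
    refine ⟨(tEquiv a (c - a ^ 5)).symm, (tPerm a (c - a ^ 5)).symm, (tGood h8 _ _).symm,
      rfl, ?_⟩
    rw [Equiv.symm_apply_eq]
    show some (a, c) = some (_, _)
    congr 1
    simp only [Prod.mk.injEq]
    exact ⟨by ring, by ring⟩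
  rcases i with _ | s
  · rcases j with _ | t
    · exact absurd rfl hij
    · exact step t
  · obtain ⟨g, π, hg, h1, h2⟩ := step s
    have h3 : wPerm h8 (π (some s)) = none := by
      rw [h2]
      show wFun (some (0, 0)) = none
      simp [wFun]
    rcases h4 : wPerm h8 (π j) with _ | t
    · exfalso
      apply hij
      apply π.injective
      apply (wPerm h8).injective
      rw [h3, h4]
    · obtain ⟨g', π', hg', h5, h6⟩ := step t
      refine ⟨(g.trans wEquiv).trans g', (π.trans (wPerm h8)).trans π',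
        (hg.mul (wGood h8)).mul hg', ?_, ?_⟩
      · show π' (wPerm h8 (π (some s))) = none
        rw [h3, h5]
      · show π' (wPerm h8 (π j)) = some (0, 0)
        rw [h4, h6]

lemma two_trans (i j k l : Option (F × F)) (hij : i ≠ j) (hkl : k ≠ l) :
    ∃ (g : Vec F ≃+ Vec F) (π : Equiv.Perm (Option (F × F))),
      Good (comp (F := F)) g π ∧ π i = k ∧ π j = l := by
  obtain ⟨g, π, hg, h1, h2⟩ := to_std h8 i j hij
  obtain ⟨g', π', hg', h3, h4⟩ := to_std h8 k l hkl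
  refine ⟨g.trans g'.symm, π.trans π'.symm, hg.mul hg'.symm, ?_, ?_⟩
  · show π'.symm (π i) = k
    rw [h1, Equiv.symm_apply_eq, h3]
  · show π'.symm (π j) = l
    rw [h2, Equiv.symm_apply_eq, h4]

end group

end Pool.Agent.H434R3.Luneburg
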