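import Pool.Agent.H434R3.BModel

set_option autoImplicit false
set_option linter.unusedSectionVars false

/-!
# Non-discrete groups: `L¹(G, w)''` has a nonzero right annihilator
-/

namespace H434R3.Beurling

open MeasureTheory MeasureTheory.Measure Filter Topology
open scoped NNReal ENNReal Pointwise

variable {G : Type*} [Group G] [TopologicalSpace G] [IsTopologicalGroup G] [LocallyCompactSpace G]
  [T2Space G] [MeasurableSpace G] [BorelSpace G]

/-- uniform continuity of functions of compact support -/
lemma unif_cont {f : G → ℂ} (hf : Continuous f) (hc : HasCompactSupport f) {η : ℝ} (hη : 0 < η) :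
    ∀ᶠ t in 𝓝 (1 : G), ∀ s, ‖f (s * t) - f s‖ ≤ η := by
  obtain ⟨K, hK, hK1⟩ := exists_compact_mem_nhds (1 : G)
  have hcomp : IsCompact (tsupport f * K⁻¹) := hc.isCompact.mul hK.inv
  have h1 : ∀ᶠ t in 𝓝 (1 : G), ∀ s ∈ tsupport f * K⁻¹, ‖f (s * t) - f s‖ ≤ η := by
    refine hcomp.eventually_forall_of_forall_eventually (x₀ := (1 : G))
      (P := fun t s => ‖f (s * t) - f s‖ ≤ η) ?_
    intro s _
    have hcont : Continuous fun z : G × G => ‖f (z.2 * z.1) - f z.2‖ := by fun_prop
    have h0 : (fun z : G × G => ‖f (z.2 * z.1) - f z.2‖) (1, s) < η := by simpa using hη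
    have := hcont.continuousAt.eventually_lt_const h0
    filter_upwards [this] with z hz using hz.le
  filter_upwards [h1, hK1] with t ht htK s
  by_cases hs : s ∈ tsupport f * K⁻¹
  · exact ht s hs
  · have e1 : f s = 0 := by
      by_contra hne
      apply hs
      refine ⟨s, subset_tsupport f hne, 1, ?_, mul_one s⟩
      rw [Set.mem_inv, inv_one]
      exact mem_of_mem_nhds hK1
    have e2 : f (s * t) = 0 := by
      by_contra hne
      apply hs
      refine ⟨s * t, subset_tsupport f hne, t⁻¹, ?_, by group⟩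
      rw [Set.mem_inv, inv_inv]
      exact htK
    rw [e1, e2, sub_zero, norm_zero]
    exact hη.le

/-- difference of two normalised indicator functions -/
noncomputable def beta (E E' : Set G) : G → ℂ := fun s =>
  E.indicator (fun _ => (((haar : Measure G).real E : ℂ))⁻¹) s -
    E'.indicator (fun _ => (((haar : Measure G).real E' : ℂ))⁻¹) s

lemma beta_symm {E E' : Set G} (h : E⁻¹ = E) (h' : E'⁻¹ = E') (t : G) :
    beta E E' t⁻¹ = beta E E' t := by
  have e1 : t⁻¹ ∈ E ↔ t ∈ E := by rw [← Set.mem_inv, h]
  have e2 : t⁻¹ ∈ E' ↔ t ∈ E' := by rw [← Set.mem_inv, h']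
  unfold beta
  by_cases h1 : t ∈ E <;> by_cases h2 : t ∈ E' <;>
    simp [Set.indicator, e1, e2, h1, h2]

lemma ind_integrable (ν : Measure G) {E : Set G} (hE : MeasurableSet E) (hf : ν E ≠ ∞) (c : ℂ) :
    Integrable (E.indicator fun _ => c) ν :=
  (integrable_indicator_iff hE).2 (integrableOn_const hf)

lemma beta_integrable (ν : Measure G) {E E' : Set G} (hE : MeasurableSet E)
    (hE' : MeasurableSet E') (hf : ν E ≠ ∞) (hf' : ν E' ≠ ∞) : Integrable (beta E E') ν :=
  (ind_integrable ν hE hf _).sub (ind_integrable ν hE' hf' _)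

lemma beta_integral {E E' : Set G} (hE : MeasurableSet E) (hE' : MeasurableSet E')
    (hf : (haar : Measure G) E ≠ ∞) (hf' : (haar : Measure G) E' ≠ ∞)
    (h0 : (haar : Measure G) E ≠ 0) (h0' : (haar : Measure G) E' ≠ 0) :
    ∫ s, beta E E' s ∂(haar : Measure G) = 0 := by
  unfold beta
  rw [integral_sub (ind_integrable _ hE hf _) (ind_integrable _ hE' hf' _),
    integral_indicator hE, integral_indicator hE', setIntegral_const, setIntegral_const]
  have h1 : (haar : Measure G).real E ≠ 0 := by
    rw [measureReal_def]; exact ENNReal.toReal_ne_zero.2 ⟨h0, hf⟩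
  have h1' : (haar : Measure G).real E' ≠ 0 := by
    rw [measureReal_def]; exact ENNReal.toReal_ne_zero.2 ⟨h0', hf'⟩
  have h2 : ((haar : Measure G).real E : ℂ) ≠ 0 := by exact_mod_cast h1
  have h2' : ((haar : Measure G).real E' : ℂ) ≠ 0 := by exact_mod_cast h1'
  rw [Complex.real_smul, Complex.real_smul, mul_inv_cancel₀ h2, mul_inv_cancel₀ h2', sub_self]

lemma real_inv_mul_le (x : ℝ) : x * x⁻¹ ≤ 1 := by
  by_cases h : x = 0
  · simp [h]
  · rw [mul_inv_cancel₀ h]

/-- `L¹`-norm of `beta` with respect to a measure `ν ≤ C · haar` on the sets. -/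
lemma beta_norm_le (ν : Measure G) (C : ℝ) (hC : 0 ≤ C) {E E' : Set G} (hE : MeasurableSet E)
    (hE' : MeasurableSet E') (hf : ν E ≠ ∞) (hf' : ν E' ≠ ∞)
    (h1 : ν.real E ≤ C * (haar : Measure G).real E)
    (h2 : ν.real E' ≤ C * (haar : Measure G).real E') :
    ∫ s, ‖beta E E' s‖ ∂ν ≤ 2 * C := by
  have hb : ∀ s, ‖beta E E' s‖ ≤ E.indicator (fun _ => ((haar : Measure G).real E)⁻¹) s +
      E'.indicator (fun _ => ((haar : Measure G).real E')⁻¹) s := by
    intro s
    unfold beta
    refine (norm_sub_le _ _).trans (le_of_eq ?_)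
    congr 1
    · by_cases h : s ∈ E
      · simp [Set.indicator, h, abs_of_nonneg measureReal_nonneg]
      · simp [Set.indicator, h]
    · by_cases h : s ∈ E'
      · simp [Set.indicator, h, abs_of_nonneg measureReal_nonneg]
      · simp [Set.indicator, h]
  have hi1 : Integrable (E.indicator (fun _ : G => ((haar : Measure G).real E)⁻¹)) ν :=
    (integrable_indicator_iff hE).2 (integrableOn_const hf)
  have hi2 : Integrable (E'.indicator (fun _ : G => ((haar : Measure G).real E')⁻¹)) ν :=
    (integrable_indicator_iff hE').2 (integrableOn_const hf')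
  refine (integral_mono_of_nonneg (Eventually.of_forall fun s => norm_nonneg _) (hi1.add hi2)
    (Eventually.of_forall hb)).trans ?_
  have hsplit : ∫ a, ((E.indicator (fun _ : G => ((haar : Measure G).real E)⁻¹)) +
      (E'.indicator (fun _ : G => ((haar : Measure G).real E')⁻¹))) a ∂ν
      = ν.real E * ((haar : Measure G).real E)⁻¹ + ν.real E' * ((haar : Measure G).real E')⁻¹ := by
    simp only [Pi.add_apply]
    rw [integral_add hi1 hi2, integral_indicator hE, integral_indicator hE', setIntegral_const,
      setIntegral_const, smul_eq_mul, smul_eq_mul]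
  rw [hsplit]
  have k1 : ν.real E * ((haar : Measure G).real E)⁻¹ ≤ C := by
    calc ν.real E * ((haar : Measure G).real E)⁻¹
        ≤ (C * (haar : Measure G).real E) * ((haar : Measure G).real E)⁻¹ :=
          mul_le_mul_of_nonneg_right h1 (inv_nonneg.2 measureReal_nonneg)
      _ = C * ((haar : Measure G).real E * ((haar : Measure G).real E)⁻¹) := by ring
      _ ≤ C * 1 := mul_le_mul_of_nonneg_left (real_inv_mul_le _) hC
      _ = C := mul_one C
  have k2 : ν.real E' * ((haar : Measure G).real E')⁻¹ ≤ C := by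
    calc ν.real E' * ((haar : Measure G).real E')⁻¹
        ≤ (C * (haar : Measure G).real E') * ((haar : Measure G).real E')⁻¹ :=
          mul_le_mul_of_nonneg_right h2 (inv_nonneg.2 measureReal_nonneg)
      _ = C * ((haar : Measure G).real E' * ((haar : Measure G).real E')⁻¹) := by ring
      _ ≤ C * 1 := mul_le_mul_of_nonneg_left (real_inv_mul_le _) hC
      _ = C := mul_one C
  linarith

/-- the convolution of `f` with a symmetric `beta` is small -/
lemma conv_pt_le {f : G → ℂ} (hf : Continuous f) (hc : HasCompactSupport f) {E E' : Set G}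
    (hE : MeasurableSet E) (hE' : MeasurableSet E')
    (hfin : (haar : Measure G) E ≠ ∞) (hfin' : (haar : Measure G) E' ≠ ∞)
    (h0 : (haar : Measure G) E ≠ 0) (h0' : (haar : Measure G) E' ≠ 0)
    (hs : E⁻¹ = E) (hs' : E'⁻¹ = E') {η : ℝ} (hη : 0 ≤ η)
    (hu : ∀ t ∈ E ∪ E', ∀ s, ‖f (s * t) - f s‖ ≤ η) (s : G) :
    ‖∫ t, f t * beta E E' (t⁻¹ * s) ∂(haar : Measure G)‖ ≤ 2 * η := by
  have e1 : ∫ t, f t * beta E E' (t⁻¹ * s) ∂(haar : Measure G)
      = ∫ t, f (s * t) * beta E E' t ∂(haar : Measure G) := by
    rw [← integral_mul_left_eq_self (fun t => f t * beta E E' (t⁻¹ * s)) s]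
    refine integral_congr_ae (Eventually.of_forall fun t => ?_)
    simp only
    rw [show (s * t)⁻¹ * s = t⁻¹ by group, beta_symm hs hs']
  have hbi := beta_integrable (haar : Measure G) hE hE' hfin hfin'
  have hfi : Integrable (fun t => f (s * t) * beta E E' t) (haar : Measure G) := by
    obtain ⟨C, hC⟩ := hf.bounded_above_of_compact_support hc
    refine hbi.bdd_mul (c := C) ?_ (Eventually.of_forall fun x => hC _)
    exact (hf.comp (continuous_const.mul continuous_id)).aestronglyMeasurable
  have e2 : ∫ t, f (s * t) * beta E E' t ∂(haar : Measure G)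
      = ∫ t, (f (s * t) - f s) * beta E E' t ∂(haar : Measure G) := by
    have : (fun t => (f (s * t) - f s) * beta E E' t) =
        fun t => f (s * t) * beta E E' t - f s * beta E E' t := by
      ext t; ring
    rw [this, integral_sub hfi (hbi.const_mul _), integral_const_mul,
      beta_integral hE hE' hfin hfin' h0 h0', mul_zero, sub_zero]
  rw [e1, e2]
  refine (norm_integral_le_integral_norm _).trans ?_
  have hle : ∀ t, ‖(f (s * t) - f s) * beta E E' t‖ ≤ η * ‖beta E E' t‖ := by
    intro t
    rw [norm_mul]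
    by_cases ht : t ∈ E ∪ E'
    · exact mul_le_mul_of_nonneg_right (hu t ht s) (norm_nonneg _)
    · have : beta E E' t = 0 := by
        have h1 : t ∉ E := fun h => ht (Or.inl h)
        have h2 : t ∉ E' := fun h => ht (Or.inr h)
        simp [beta, Set.indicator, h1, h2]
      simp [this]
  refine (integral_mono_of_nonneg (Eventually.of_forall fun t => norm_nonneg _)
    (hbi.norm.const_mul η) (Eventually.of_forall hle)).trans ?_
  rw [integral_const_mul]
  have := beta_norm_le (haar : Measure G) 1 zero_le_one hE hE' hfin hfin' (by simp) (by simp)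
  nlinarith

end H434R3.Beurling
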