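import Pool.Agent.H434R3.ND1
import Pool.Agent.H434R3.CcDense

set_option autoImplicit false
set_option linter.unusedSectionVars false

/-!
# Non-discrete groups: the right annihilator of `L¹(G, w)''`
-/

namespace H434R3.Beurling

open MeasureTheory MeasureTheory.Measure Filter Topology
open scoped NNReal ENNReal Pointwise
open H434R3.Arens

variable {G : Type*} [Group G] [TopologicalSpace G] [IsTopologicalGroup G] [LocallyCompactSpace G]
  [T2Space G] [MeasurableSpace G] [BorelSpace G]

lemma wm_le {w : G → ℝ} {E : Set G} (hE : MeasurableSet E) {c : ℝ} (hc : 0 ≤ c)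
    (h : ∀ s ∈ E, w s ≤ c) : wm w E ≤ ENNReal.ofReal c * (haar : Measure G) E := by
  unfold wm
  rw [withDensity_apply _ hE, ← setLIntegral_const]
  exact setLIntegral_mono' hE fun s hs => ENNReal.ofReal_le_ofReal (h s hs)

lemma le_wm {w : G → ℝ} {E : Set G} (hE : MeasurableSet E) {c : ℝ}
    (h : ∀ s ∈ E, c ≤ w s) : ENNReal.ofReal c * (haar : Measure G) E ≤ wm w E := by
  unfold wm
  rw [withDensity_apply _ hE, ← setLIntegral_const]
  exact setLIntegral_mono' hE fun s hs => ENNReal.ofReal_le_ofReal (h s hs)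

lemma locFin {w : G → ℝ} (hw : IsWeight w) : IsLocallyFiniteMeasure (wm w) :=
  IsLocallyFiniteMeasure.withDensity_ofReal hw.cont

/-- `C_c(G)` is dense in `L¹(G, w)` -/
lemma exists_Cc {w : G → ℝ} (hw : IsWeight w) (φ : Lp ℂ 1 (wm w)) {ε : ℝ} (hε : 0 < ε) :
    ∃ (f : G → ℂ) (_ : Continuous f) (_ : HasCompactSupport f) (hi : Integrable f (wm w)),
      ‖φ - hi.toL1 f‖ ≤ ε := by
  have hφ : Integrable (φ : G → ℂ) (wm w) := L1.integrable_coeFn φ
  have h1 := (integrable_wm_iff hw).1 hφ
  obtain ⟨g, hgs, hgi, hgc, hgint⟩ := CcDense.dense_L1 h1 hε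
  have hw0 : ∀ s, (w s : ℂ) ≠ 0 := fun s => by exact_mod_cast (hw.pos s).ne'
  have hwc : Continuous fun s => (w s : ℂ) := Complex.continuous_ofReal.comp hw.cont
  set f : G → ℂ := fun s => (w s : ℂ)⁻¹ * g s with hf
  have hfc : Continuous f := (hwc.inv₀ hw0).mul hgc
  have hfs : HasCompactSupport f := hgs.mul_left
  have hwf : (fun s => (w s : ℂ) * f s) = g := by
    ext s; rw [hf]; simp only; rw [← mul_assoc, mul_inv_cancel₀ (hw0 s), one_mul]
  have hfi : Integrable f (wm w) := by
    rw [integrable_wm_iff hw, hwf]; exact hgint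
  refine ⟨f, hfc, hfs, hfi, ?_⟩
  have e1 : φ - hfi.toL1 f = (hφ.sub hfi).toL1 ((φ : G → ℂ) - f) := by
    rw [Integrable.toL1_sub _ _ hφ hfi, Integrable.toL1_coeFn]
  rw [e1, L1.norm_of_fun_eq_integral_norm, integral_wm_real hw]
  refine le_trans (le_of_eq ?_) hgi
  refine integral_congr_ae (Eventually.of_forall fun s => ?_)
  simp only [Pi.sub_apply]
  have : (w s : ℂ) * φ s - g s = (w s : ℂ) * (φ s - f s) := by
    rw [mul_sub]; congr 1; exact (congrFun hwf s).symm
  rw [this, norm_mul, Complex.norm_real, Real.norm_of_nonneg (hw.pos s).le]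

section main

variable {w : G → ℝ} {A : Type*} [NonUnitalNormedRing A] [NormedSpace ℂ A] [IsScalarTower ℂ A A]
  [SMulCommClass ℂ A A]

/-- the functional `a ↦ ∫_S a dm·w` -/
noncomputable def h0 (M : BeurlingAlgebra w A) (S : Set G) : StrongDual ℂ A :=
  LinearMap.mkContinuous
    { toFun := fun a => ∫ s in S, (M.ι a : G → ℂ) s ∂(wm w)
      map_add' := fun a b => by
        rw [← integral_add (L1.integrable_coeFn (M.ι a)).integrableOn
          (L1.integrable_coeFn (M.ι b)).integrableOn, map_add]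
        refine integral_congr_ae (ae_restrict_of_ae ?_)
        exact Lp.coeFn_add _ _
      map_smul' := fun c a => by
        rw [RingHom.id_apply, smul_eq_mul, ← integral_const_mul, map_smul]
        refine integral_congr_ae (ae_restrict_of_ae ?_)
        filter_upwards [Lp.coeFn_smul c (M.ι a)] with s hs
        rw [hs]; rfl }
    1 fun a => by
      change ‖∫ s in S, (M.ι a : G → ℂ) s ∂(wm w)‖ ≤ _
      refine (norm_integral_le_integral_norm _).trans ?_
      refine (setIntegral_le_integral (L1.integrable_coeFn (M.ι a)).norm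
        (Eventually.of_forall fun s => norm_nonneg _)).trans (le_of_eq ?_)
      rw [one_mul, ← M.ι.norm_map a, L1.norm_eq_integral_norm]

lemma h0_apply (M : BeurlingAlgebra w A) (S : Set G) (a : A) :
    h0 M S a = ∫ s in S, (M.ι a : G → ℂ) s ∂(wm w) := rfl

/-- the neighbourhoods used in the construction -/
def UU (U0 V : Set G) : Set G := (interior V ∩ (interior V)⁻¹) ∩ U0

theorem exists_right_ann (hw : IsWeight w) (M : BeurlingAlgebra w A) {S : Set G}
    (hS : MeasurableSet S) (hsym : S⁻¹ = S)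
    (hpos : ∀ V ∈ 𝓝 (1 : G), 0 < (haar : Measure G) (S ∩ V) ∧ 0 < (haar : Measure G) (V \ S)) :
    ∃ Φ : Bidual A, Φ ≠ 0 ∧ ∀ Ψ : Bidual A, Ψ * Φ = 0 := by
  have := locFin hw
  obtain ⟨K, hK, hK1⟩ := exists_compact_mem_nhds (1 : G)
  set W : Set G := interior K ∩ {s | 1 / 2 < w s ∧ w s < 2} with hW
  have hWo : IsOpen W := isOpen_interior.inter
    ((isOpen_lt continuous_const hw.cont).inter (isOpen_lt hw.cont continuous_const))
  have hW1 : (1 : G) ∈ W := ⟨mem_interior_iff_mem_nhds.2 hK1, by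
    simp only [Set.mem_setOf_eq, hw.one]; norm_num⟩
  set U0 : Set G := W ∩ W⁻¹ with hU0
  have hU0o : IsOpen U0 := hWo.inter hWo.inv
  have hU01 : (1 : G) ∈ U0 := ⟨hW1, by rw [Set.mem_inv, inv_one]; exact hW1⟩
  have hU0i : U0⁻¹ = U0 := by
    rw [hU0, Set.inter_inv, inv_inv, Set.inter_comm]
  have hU0K : U0 ⊆ K := fun s hs => interior_subset hs.1.1
  have hU0w : ∀ s ∈ U0, 1 / 2 ≤ w s ∧ w s ≤ 2 := fun s hs => ⟨hs.1.2.1.le, hs.1.2.2.le⟩
  have hUo : ∀ V : Set G, IsOpen (UU U0 V) := fun V =>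
    (isOpen_interior.inter isOpen_interior.inv).inter hU0o
  have hUi : ∀ V : Set G, (UU U0 V)⁻¹ = UU U0 V := by
    intro V
    unfold UU
    rw [Set.inter_inv, Set.inter_inv, inv_inv, hU0i, Set.inter_comm (interior V)⁻¹]
  have hUV : ∀ V : Set G, UU U0 V ⊆ V := fun V s hs => interior_subset hs.1.1
  have hUU0 : ∀ V : Set G, UU U0 V ⊆ U0 := fun V s hs => hs.2
  have hU1 : ∀ V ∈ 𝓝 (1 : G), UU U0 V ∈ 𝓝 (1 : G) := by
    intro V hV
    refine (hUo V).mem_nhds ⟨⟨mem_interior_iff_mem_nhds.2 hV, ?_⟩, hU01⟩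
    rw [Set.mem_inv, inv_one]
    exact mem_interior_iff_mem_nhds.2 hV
  -- the sets
  set E : Set G → Set G := fun V => S ∩ UU U0 V with hEdef
  set E' : Set G → Set G := fun V => UU U0 V \ S with hE'def
  have hEm : ∀ V, MeasurableSet (E V) := fun V => hS.inter (hUo V).measurableSet
  have hE'm : ∀ V, MeasurableSet (E' V) := fun V => (hUo V).measurableSet.diff hS
  have hEU : ∀ V, E V ⊆ UU U0 V := fun V => Set.inter_subset_right
  have hE'U : ∀ V, E' V ⊆ UU U0 V := fun V => Set.diff_subset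
  have hEi : ∀ V, (E V)⁻¹ = E V := fun V => by
    simp only [hEdef]; rw [Set.inter_inv, hsym, hUi]
  have hE'i : ∀ V, (E' V)⁻¹ = E' V := fun V => by
    ext s
    have e1 : s⁻¹ ∈ UU U0 V ↔ s ∈ UU U0 V := by rw [← Set.mem_inv, hUi]
    have e2 : s⁻¹ ∈ S ↔ s ∈ S := by rw [← Set.mem_inv, hsym]
    simp only [hE'def, Set.mem_inv, Set.mem_diff, e1, e2]
  have hKfin : (haar : Measure G) K < ∞ := hK.measure_lt_top
  have hKfin' : wm w K < ∞ := hK.measure_lt_top
  have hEK : ∀ V, E V ⊆ K := fun V => (hEU V).trans ((hUU0 V).trans hU0K)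
  have hE'K : ∀ V, E' V ⊆ K := fun V => (hE'U V).trans ((hUU0 V).trans hU0K)
  have hEf : ∀ V, (haar : Measure G) (E V) ≠ ∞ := fun V =>
    ((measure_mono (hEK V)).trans_lt hKfin).ne
  have hE'f : ∀ V, (haar : Measure G) (E' V) ≠ ∞ := fun V =>
    ((measure_mono (hE'K V)).trans_lt hKfin).ne
  have hEf2 : ∀ V, wm w (E V) ≠ ∞ := fun V => ((measure_mono (hEK V)).trans_lt hKfin').ne
  have hE'f2 : ∀ V, wm w (E' V) ≠ ∞ := fun V => ((measure_mono (hE'K V)).trans_lt hKfin').ne
  have hbi : ∀ V, Integrable (beta (E V) (E' V)) (wm w) := fun V =>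
    beta_integrable (wm w) (hEm V) (hE'm V) (hEf2 V) (hE'f2 V)
  set b : Set G → A := fun V => M.ι.symm ((hbi V).toL1 (beta (E V) (E' V))) with hbdef
  have hreal : ∀ D : Set G, MeasurableSet D → D ⊆ U0 → (haar : Measure G) D ≠ ∞ →
      (wm w).real D ≤ 2 * (haar : Measure G).real D := by
    intro D hD hDU hDf
    have h1 := wm_le (w := w) hD (c := 2) (by norm_num) fun s hs => (hU0w s (hDU hs)).2
    have h2 := ENNReal.toReal_mono (ENNReal.mul_ne_top ENNReal.ofReal_ne_top hDf) h1
    rw [ENNReal.toReal_mul, ENNReal.toReal_ofReal (by norm_num)] at h2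
    exact h2
  have hbn : ∀ V, ‖b V‖ ≤ 4 := by
    intro V
    rw [hbdef]
    simp only
    rw [M.ι.symm.norm_map, L1.norm_of_fun_eq_integral_norm]
    have := beta_norm_le (wm w) 2 (by norm_num) (hEm V) (hE'm V) (hEf2 V) (hE'f2 V)
      (hreal _ (hEm V) ((hEU V).trans (hUU0 V)) (hEf V))
      (hreal _ (hE'm V) ((hE'U V).trans (hUU0 V)) (hE'f V))
    linarith
  -- the filter
  set F : Filter (Set G) := (𝓝 (1 : G)).smallSets ⊓ 𝓟 {V | V ∈ 𝓝 (1 : G)} with hF
  have hFne : F.NeBot := by
    rw [hF, inf_principal_neBot_iff]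
    intro T hT
    obtain ⟨V, hV1, hV2⟩ := (Filter.frequently_smallSets_mem (𝓝 (1 : G))).and_eventually hT |>.exists
    exact ⟨V, hV2, hV1⟩
  have hFsub : ∀ D ∈ 𝓝 (1 : G), ∀ᶠ V in F, V ⊆ D := by
    intro D hD
    refine Eventually.filter_mono inf_le_left ?_
    rw [Filter.eventually_smallSets]
    exact ⟨D, hD, fun t ht => ht⟩
  have hFmem : ∀ᶠ V in F, V ∈ 𝓝 (1 : G) := by
    refine Eventually.filter_mono inf_le_right ?_
    exact mem_principal_self _
  -- key estimate
  have key : ∀ a : A, ∀ ε > 0, ∀ᶠ V in F, ‖a * b V‖ ≤ ε := by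
    intro a ε hε
    obtain ⟨f, hfc, hfs, hfi, hfn⟩ := exists_Cc hw (M.ι a) (ε := ε / 8) (by linarith)
    set K' : Set G := tsupport f * K with hK'
    have hK'c : IsCompact K' := hfs.isCompact.mul hK
    have hK'm : MeasurableSet K' := hK'c.measurableSet
    have hK'fin : wm w K' < ∞ := hK'c.measure_lt_top
    set C : ℝ := (wm w).real K' with hC
    have hC0 : 0 ≤ C := measureReal_nonneg
    set η : ℝ := ε / (4 * (C + 1)) with hη
    have hη0 : 0 < η := by positivity
    filter_upwards [hFsub _ (unif_cont hfc hfs hη0), hFmem] with V hV1 hV2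
    have hp := hpos (UU U0 V) (hU1 V hV2)
    have hpt : ∀ s, ‖∫ t, f t * beta (E V) (E' V) (t⁻¹ * s) ∂(haar : Measure G)‖ ≤ 2 * η := by
      intro s
      refine conv_pt_le hfc hfs (hEm V) (hE'm V) (hEf V) (hE'f V) hp.1.ne' hp.2.ne' (hEi V)
        (hE'i V) hη0.le ?_ s
      intro t ht
      have : t ∈ UU U0 V := by
        rcases ht with ht | ht
        · exact hEU V ht
        · exact hE'U V ht
      exact hV1 (hUV V this)
    have hpt2 : ∀ s, ‖∫ t, f t * beta (E V) (E' V) (t⁻¹ * s) ∂(haar : Measure G)‖ ≤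
        K'.indicator (fun _ => 2 * η) s := by
      intro s
      by_cases hs : s ∈ K'
      · rw [Set.indicator_of_mem hs]; exact hpt s
      · rw [Set.indicator_of_notMem hs]
        have : ∀ t, f t * beta (E V) (E' V) (t⁻¹ * s) = 0 := by
          intro t
          by_cases ht : f t = 0
          · rw [ht, zero_mul]
          · have : beta (E V) (E' V) (t⁻¹ * s) = 0 := by
              have h1 : t⁻¹ * s ∉ K := by
                intro hk
                exact hs ⟨t, subset_tsupport f ht, t⁻¹ * s, hk, by group⟩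
              have h2 : t⁻¹ * s ∉ E V := fun h => h1 (hEK V h)
              have h3 : t⁻¹ * s ∉ E' V := fun h => h1 (hE'K V h)
              unfold beta
              rw [Set.indicator_of_notMem h2, Set.indicator_of_notMem h3, sub_zero]
            rw [this, mul_zero]
        simp [this]
    set af : A := M.ι.symm (hfi.toL1 f) with haf
    have haf1 : ‖a - af‖ ≤ ε / 8 := by
      rw [← M.ι.norm_map, map_sub, haf, M.ι.apply_symm_apply]
      exact hfn
    have haf2 : ‖af * b V‖ ≤ ε / 2 := by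
      obtain ⟨hh, hconv⟩ := M.conv f (beta (E V) (E' V)) hfi (hbi V)
      rw [haf, hbdef]
      rw [hconv, M.ι.symm.norm_map, L1.norm_of_fun_eq_integral_norm]
      refine (integral_mono_of_nonneg (Eventually.of_forall fun s => norm_nonneg _)
        ((integrable_indicator_iff hK'm).2 (integrableOn_const hK'fin.ne))
        (Eventually.of_forall hpt2)).trans ?_
      rw [integral_indicator hK'm, setIntegral_const, smul_eq_mul, ← hC, hη]
      have : C * (2 * (ε / (4 * (C + 1)))) = (C / (C + 1)) * (ε / 2) := by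
        field_simp; ring
      rw [this]
      have h1 : C / (C + 1) ≤ 1 := by rw [div_le_one (by linarith)]; linarith
      have h2 : 0 ≤ ε / 2 := by linarith
      calc C / (C + 1) * (ε / 2) ≤ 1 * (ε / 2) := mul_le_mul_of_nonneg_right h1 h2
        _ = ε / 2 := one_mul _
    calc ‖a * b V‖ = ‖(a - af) * b V + af * b V‖ := by rw [sub_mul, sub_add_cancel]
      _ ≤ ‖(a - af) * b V‖ + ‖af * b V‖ := norm_add_le _ _
      _ ≤ ‖a - af‖ * ‖b V‖ + ε / 2 := add_le_add (norm_mul_le _ _) haf2
      _ ≤ ε / 8 * 4 + ε / 2 := by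
          have := mul_le_mul haf1 (hbn V) (norm_nonneg _) (by linarith)
          linarith
      _ = ε := by ring
  -- the cluster point
  set 𝒰 : Ultrafilter (Set G) := Ultrafilter.of F with h𝒰
  have hle : (𝒰 : Filter (Set G)) ≤ F := Ultrafilter.of_le F
  obtain ⟨Φ, hΦ⟩ := exists_cluster 𝒰 b 4 hbn
  refine ⟨Φ, ?_, ?_⟩
  · intro hΦ0
    have hlim := hΦ (h0 M S)
    rw [hΦ0, ev_zero] at hlim
    have hge : ∀ᶠ V in (𝒰 : Filter (Set G)), 1 / 2 ≤ (h0 M S (b V)).re := by
      filter_upwards [hle hFmem] with V hV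
      have hp := hpos (UU U0 V) (hU1 V hV)
      have e1 : h0 M S (b V) = ∫ s in S, beta (E V) (E' V) s ∂(wm w) := by
        rw [h0_apply]
        refine integral_congr_ae (ae_restrict_of_ae ?_)
        rw [hbdef]
        rw [M.ι.apply_symm_apply]
        exact Integrable.coeFn_toL1 _
      have e2 : ∫ s in S, beta (E V) (E' V) s ∂(wm w) =
          ∫ s in S, (E V).indicator (fun _ => (((haar : Measure G).real (E V) : ℂ))⁻¹) s ∂(wm w) := by
        refine setIntegral_congr_fun hS fun s hs => ?_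
        unfold beta
        have : s ∉ E' V := fun h => h.2 hs
        rw [Set.indicator_of_notMem this, sub_zero]
      have e3 : ∫ s in S, (E V).indicator (fun _ => (((haar : Measure G).real (E V) : ℂ))⁻¹) s ∂(wm w)
          = (((wm w).real (E V) / (haar : Measure G).real (E V) : ℝ) : ℂ) := by
        rw [setIntegral_indicator (hEm V), setIntegral_const]
        have : S ∩ E V = E V := Set.inter_eq_right.2 Set.inter_subset_left
        rw [this, Complex.real_smul]
        push_cast
        rw [div_eq_mul_inv]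
      rw [e1, e2, e3, Complex.ofReal_re]
      have hpr : 0 < (haar : Measure G).real (E V) := by
        rw [measureReal_def]
        exact ENNReal.toReal_pos hp.1.ne' (hEf V)
      rw [le_div_iff₀ hpr]
      have h1 := le_wm (w := w) (hEm V) (c := 1 / 2) fun s hs => (hU0w s (hUU0 V (hEU V hs))).1
      have h2 := ENNReal.toReal_mono (hEf2 V) h1
      rw [ENNReal.toReal_mul, ENNReal.toReal_ofReal (by norm_num)] at h2
      exact h2
    have hre : Tendsto (fun V => (h0 M S (b V)).re) 𝒰 (𝓝 (0 : ℂ).re) :=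
      (Complex.continuous_re.tendsto _).comp hlim
    have := ge_of_tendsto hre hge
    simp at this
    linarith
  · intro Ψ
    refine ext_ev fun h => ?_
    rw [mul_def, ev_box, ev_zero]
    have : psi Φ h = 0 := by
      ext a
      rw [psi_apply']
      have hlim := hΦ (hmod h a)
      have hz : Tendsto (fun V => hmod h a (b V)) 𝒰 (𝓝 0) := by
        rw [Metric.tendsto_nhds]
        intro ε hε
        have h1 := hle (key a (ε / (2 * (‖h‖ + 1))) (by positivity))
        filter_upwards [h1] with V hV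
        rw [dist_zero_right, hmod_apply]
        have hn : 0 ≤ ‖h‖ := norm_nonneg h
        calc ‖h (a * b V)‖ ≤ ‖h‖ * ‖a * b V‖ := h.le_opNorm _
          _ ≤ ‖h‖ * (ε / (2 * (‖h‖ + 1))) := mul_le_mul_of_nonneg_left hV hn
          _ < ε := by
            have : ‖h‖ * (ε / (2 * (‖h‖ + 1))) = (‖h‖ / (‖h‖ + 1)) * (ε / 2) := by
              field_simp
            rw [this]
            have h3 : ‖h‖ / (‖h‖ + 1) ≤ 1 := by rw [div_le_one (by linarith)]; linarith
            nlinarith
      exact tendsto_nhds_unique hlim hz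
    rw [this, ev_map_zero]

end main

end H434R3.Beurling
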