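import Pool.Agent.H434R3.ND2
import Pool.Agent.H516R3.BeurSet

set_option autoImplicit false

/-!
# Non-discrete groups
-/

namespace H434R3.Beurling

open MeasureTheory MeasureTheory.Measure Filter Topology
open H434R3.Arens

/-- For a non-discrete group `L¹(G, w)''` has a nonzero right annihilator. -/
theorem nondiscrete {G : Type*} [Group G] [TopologicalSpace G] [IsTopologicalGroup G]
    [LocallyCompactSpace G] [T2Space G] [MeasurableSpace G] [BorelSpace G]
    (hG : ¬ DiscreteTopology G) {w : G → ℝ} (hw : IsWeight w)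
    {A : Type*} [NonUnitalNormedRing A] [NormedSpace ℂ A] [IsScalarTower ℂ A A]
    [SMulCommClass ℂ A A] (M : BeurlingAlgebra w A) :
    ∃ Φ : Bidual A, Φ ≠ 0 ∧ ∀ Ψ : Bidual A, Ψ * Φ = 0 := by
  obtain ⟨S, hS, hsym, hpos⟩ := Pool.Agent.H516R3.BeurSet.exists_sym_set G hG (haar : Measure G)
  exact exists_right_ann hw M hS hsym hpos

end H434R3.Beurling
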