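import Mathlib

set_option autoImplicit false

namespace Pool.Agent.H434R3.WH

open scoped ENNReal

/-- Square summable families indexed by `I` with values in `E`. -/
abbrev L2 (I : Type) (E : Type) [NormedAddCommGroup E] := lp (fun _ : I => E) 2

section basic

variable {I : Type} {E : Type} [NormedAddCommGroup E]

lemma two_toReal_pos : 0 < (2 : ℝ≥0∞).toReal := by norm_num

lemma norm_sq_eq (x : L2 I E) : ‖x‖ ^ 2 = ∑' i, ‖x i‖ ^ 2 := by
  have h := lp.norm_rpow_eq_tsum two_toReal_pos x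
  simpa using h

lemma summable_sq (x : L2 I E) : Summable fun i => ‖x i‖ ^ 2 := by
  have h := (lp.memℓp x).summable two_toReal_pos
  simpa using h

lemma L2ext {x y : L2 I E} (h : ∀ i, x i = y i) : x = y :=
  lp.ext (funext h)

lemma L2_add (x y : L2 I E) (i : I) : (x + y) i = x i + y i := rfl
lemma L2_sub (x y : L2 I E) (i : I) : (x - y) i = x i - y i := rfl
lemma L2_neg (x : L2 I E) (i : I) : (-x) i = -(x i) := rfl
lemma L2_zero (i : I) : (0 : L2 I E) i = 0 := rfl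

lemma L2_smul [NormedSpace ℂ E] (c : ℂ) (x : L2 I E) (i : I) : (c • x) i = c • x i := rfl

lemma norm_coord_le (x : L2 I E) (i : I) : ‖x i‖ ≤ ‖x‖ :=
  lp.norm_apply_le_norm (by norm_num) x i

end basic

section wc

variable {I J : Type} {E F : Type} [NormedAddCommGroup E] [NormedAddCommGroup F]
  [NormedSpace ℂ E] [NormedSpace ℂ F]

lemma wc_mem (σ : J → I) (hσ : Function.Injective σ) (A : J → E →L[ℂ] F) (C : ℝ)
    (hA : ∀ j, ‖A j‖ ≤ C) (x : L2 I E) :
    Summable fun j => ‖A j (x (σ j))‖ ^ 2 := by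
  have h1 : Summable fun j => C ^ 2 * ‖x (σ j)‖ ^ 2 :=
    ((summable_sq x).comp_injective hσ).mul_left _
  refine Summable.of_nonneg_of_le (fun j => by positivity) (fun j => ?_) h1
  have h2 : ‖A j (x (σ j))‖ ≤ C * ‖x (σ j)‖ :=
    (A j).le_of_opNorm_le (hA j) _
  calc ‖A j (x (σ j))‖ ^ 2 ≤ (C * ‖x (σ j)‖) ^ 2 := by gcongr
    _ = C ^ 2 * ‖x (σ j)‖ ^ 2 := by ring

/-- The linear map underlying the weighted composition operator. -/
noncomputable def wcLin (σ : J → I) (hσ : Function.Injective σ) (A : J → E →L[ℂ] F) (C : ℝ)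
    (hA : ∀ j, ‖A j‖ ≤ C) : L2 I E →ₗ[ℂ] L2 J F where
  toFun := fun x => ⟨fun j => A j (x (σ j)), by
        refine memℓp_gen ?_
        simpa using wc_mem σ hσ A C hA x⟩
  map_add' := fun x y => L2ext fun j => by
    show A j ((x + y) (σ j)) = A j (x (σ j)) + A j (y (σ j))
    rw [L2_add, map_add]
  map_smul' := fun c x => L2ext fun j => by
    show A j ((c • x) (σ j)) = c • A j (x (σ j))
    rw [L2_smul, map_smul]

lemma wcLin_apply (σ : J → I) (hσ : Function.Injective σ) (A : J → E →L[ℂ] F) (C : ℝ)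
    (hA : ∀ j, ‖A j‖ ≤ C) (x : L2 I E) (j : J) :
    wcLin σ hσ A C hA x j = A j (x (σ j)) := rfl

lemma wcLin_norm (σ : J → I) (hσ : Function.Injective σ) (A : J → E →L[ℂ] F) (C : ℝ)
    (hA : ∀ j, ‖A j‖ ≤ C) (x : L2 I E) : ‖wcLin σ hσ A C hA x‖ ≤ |C| * ‖x‖ := by
  have h1 : ‖wcLin σ hσ A C hA x‖ ^ 2 ≤ (|C| * ‖x‖) ^ 2 := by
    rw [norm_sq_eq, mul_pow, norm_sq_eq, ← tsum_mul_left]
    have h2 : Summable fun j => |C| ^ 2 * ‖x (σ j)‖ ^ 2 :=
      ((summable_sq x).comp_injective hσ).mul_left _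
    calc ∑' j, ‖wcLin σ hσ A C hA x j‖ ^ 2 ≤ ∑' j, |C| ^ 2 * ‖x (σ j)‖ ^ 2 := by
          refine Summable.tsum_le_tsum (fun j => ?_) (wc_mem σ hσ A C hA x) h2
          rw [wcLin_apply]
          have h3 : ‖A j (x (σ j))‖ ≤ |C| * ‖x (σ j)‖ :=
            (A j).le_of_opNorm_le ((hA j).trans (le_abs_self C)) _
          calc ‖A j (x (σ j))‖ ^ 2 ≤ (|C| * ‖x (σ j)‖) ^ 2 := by gcongr
            _ = |C| ^ 2 * ‖x (σ j)‖ ^ 2 := by ring
      _ ≤ ∑' i, |C| ^ 2 * ‖x i‖ ^ 2 :=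
          tsum_comp_le_tsum_of_inj ((summable_sq x).mul_left _) (fun i => by positivity) hσ
  exact le_of_sq_le_sq h1 (by positivity)

/-- The weighted composition operator `(wc x) j = A j (x (σ j))`. -/
noncomputable def wc (σ : J → I) (hσ : Function.Injective σ) (A : J → E →L[ℂ] F) (C : ℝ)
    (hA : ∀ j, ‖A j‖ ≤ C) : L2 I E →L[ℂ] L2 J F :=
  LinearMap.mkContinuous (wcLin σ hσ A C hA) (|C|) (wcLin_norm σ hσ A C hA)

lemma wc_apply (σ : J → I) (hσ : Function.Injective σ) (A : J → E →L[ℂ] F) (C : ℝ)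
    (hA : ∀ j, ‖A j‖ ≤ C) (x : L2 I E) (j : J) :
    wc σ hσ A C hA x j = A j (x (σ j)) := rfl

lemma wc_norm_le (σ : J → I) (hσ : Function.Injective σ) (A : J → E →L[ℂ] F) (C : ℝ)
    (hA : ∀ j, ‖A j‖ ≤ C) (hC : 0 ≤ C) : ‖wc σ hσ A C hA‖ ≤ C := by
  have := LinearMap.mkContinuous_norm_le (wcLin σ hσ A C hA) (abs_nonneg C)
    (wcLin_norm σ hσ A C hA)
  exact this.trans_eq (abs_of_nonneg hC)

end wc

section blk

variable {I : Type} {E : Type} [NormedAddCommGroup E] [NormedSpace ℂ E]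

/-- block diagonal operator -/
noncomputable def blk (A : I → E →L[ℂ] E) (C : ℝ) (hA : ∀ j, ‖A j‖ ≤ C) :
    L2 I E →L[ℂ] L2 I E :=
  wc id Function.injective_id A C hA

lemma blk_apply (A : I → E →L[ℂ] E) (C : ℝ) (hA : ∀ j, ‖A j‖ ≤ C) (x : L2 I E) (j : I) :
    blk A C hA x j = A j (x j) := rfl

lemma blk_norm_le (A : I → E →L[ℂ] E) (C : ℝ) (hA : ∀ j, ‖A j‖ ≤ C) (hC : 0 ≤ C) :
    ‖blk A C hA‖ ≤ C := wc_norm_le _ _ _ _ _ hC

/-- constant block diagonal operator -/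
noncomputable def cst (A : E →L[ℂ] E) : L2 I E →L[ℂ] L2 I E :=
  blk (fun _ => A) ‖A‖ (fun _ => le_rfl)

lemma cst_apply (A : E →L[ℂ] E) (x : L2 I E) (j : I) : cst A x j = A (x j) := rfl

lemma cst_norm_le (A : E →L[ℂ] E) : ‖(cst A : L2 I E →L[ℂ] L2 I E)‖ ≤ ‖A‖ :=
  blk_norm_le _ _ _ (norm_nonneg _)

lemma opext {T S : L2 I E →L[ℂ] L2 I E} (h : ∀ x i, T x i = S x i) : T = S :=
  ContinuousLinearMap.ext fun x => L2ext (h x)

/-- matrix units: `(mu p q x) p = x q`, all other components vanish -/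
noncomputable def mu [DecidableEq I] (p q : I) : L2 I E →L[ℂ] L2 I E :=
  wc (Equiv.swap p q) (Equiv.swap p q).injective
    (fun k => if k = p then (1 : E →L[ℂ] E) else 0) 1 (fun k => by
      split_ifs
      · exact ContinuousLinearMap.norm_id_le
      · simp)

lemma mu_apply [DecidableEq I] (p q k : I) (x : L2 I E) :
    (mu p q x : L2 I E) k = if k = p then x q else 0 := by
  unfold mu
  rw [wc_apply]
  split_ifs with h
  · subst h
    simp
  · simp

lemma mu_norm_le [DecidableEq I] (p q : I) : ‖(mu p q : L2 I E →L[ℂ] L2 I E)‖ ≤ 1 :=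
  wc_norm_le _ _ _ _ _ zero_le_one

lemma norm_mu_le [DecidableEq I] (p q : I) (x : L2 I E) : ‖mu p q x‖ ≤ ‖x‖ := by
  have := (mu p q : L2 I E →L[ℂ] L2 I E).le_of_opNorm_le (mu_norm_le p q) x
  simpa using this

end blk

end Pool.Agent.H434R3.WH
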