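import Pool.Agent.H434R3.WH9

set_option autoImplicit false
set_option linter.unusedSectionVars false

namespace Pool.Agent.H434R3.WH

open scoped ComplexConjugate

/-- basis vectors -/
noncomputable def ee (x : Io) : WW := lp.single 2 x (1 : ℂ)

lemma ee_apply (x y : Io) : ee x y = if y = x then (1 : ℂ) else 0 := by
  unfold ee
  by_cases h : y = x
  · rw [if_pos h, h, lp.single_apply_self]
  · rw [if_neg h, lp.single_apply_ne _ _ _ h]

lemma ee_norm (x : Io) : ‖ee x‖ = 1 := by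
  unfold ee
  rw [lp.norm_single (by norm_num), norm_one]

lemma ZZ_ee (x : Io) : ZZ (ee x) = ee (hlf x) := by
  apply L2ext
  intro y
  rw [ZZ_apply, ee_apply, ee_apply]
  by_cases h : y = hlf x
  · rw [if_pos h, if_pos (by rw [h, hlf_hlf])]
  · rw [if_neg h, if_neg (fun h2 => h (by rw [← h2, hlf_hlf]))]

/-- the operator of the counterexample -/
noncomputable abbrev TX : HH WW →L[ℂ] HH WW := TT Gs ZZ ZZ_norm

section X

variable (X : HH WW →L[ℂ] HH WW) (hX : X * TX = (-1 : ℂ) • (TX * X))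

/-- diagonal coefficient -/
noncomputable def ff (X : HH WW →L[ℂ] HH WW) (x : Io) : ℂ := (X (kap (ee x))) j0 0 x

lemma m1 : (-1 : ℂ) * -1 = 1 := by norm_num

include hX in
lemma X_ee (x : Io) : X (kap (ee x)) = ff X x • kap (ee x) := by
  rw [← kap_smul, supp Gs ZZ ZZ_norm Gs_one X (-1) m1 hX ZZ_ZZ (ee x)]
  congr 1
  apply L2ext
  intro y
  rw [L2_smul, ee_apply]
  by_cases h : y = x
  · rw [if_pos h, h]
    simp [ff]
  · rw [if_neg h, smul_zero, ← norm_le_zero_iff]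
    have hlim : Filter.Tendsto (fun i : ℕ => 1 / ((i : ℝ) + 1) * (‖X‖ * 1)) Filter.atTop
        (nhds 0) := by
      have := (tendsto_one_div_add_atTop_nhds_zero_nat (𝕜 := ℝ)).mul_const (‖X‖ * 1)
      simpa using this
    refine ge_of_tendsto' hlim (fun i => ?_)
    obtain ⟨n, hn⟩ := Gs_surj (Sum.inl (x, i))
    obtain ⟨u', hu', hXu⟩ := L1 Gs ZZ ZZ_norm Gs_one X (-1) m1 hX n (ee x)
    rw [hn] at hXu
    have e1 : (Gc (Sum.inl (x, i))).val (ee x) = ee x := by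
      apply L2ext
      intro z
      show (Ga x i).val (ee x) z = _
      rw [Ga_apply, ee_apply]
      split_ifs <;> simp
    rw [e1] at hXu
    rw [hXu, Lf_apply]
    show ‖(Ga x i).val (u' j0 0) y‖ ≤ _
    rw [Ga_apply, if_neg h, norm_mul, norm_inv]
    have e2 : ‖(i : ℂ) + 1‖ = (i : ℝ) + 1 := by
      have := Complex.norm_natCast (i + 1)
      push_cast at this
      exact this
    rw [e2, one_div]
    have e3 : ‖u' j0 0 y‖ ≤ ‖X‖ * 1 := by
      calc ‖u' j0 0 y‖ ≤ ‖u' j0 0‖ := norm_coord_le _ _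
        _ ≤ ‖u' j0‖ := norm_coord_le _ _
        _ ≤ ‖u'‖ := norm_coord_le _ _
        _ ≤ ‖X‖ * ‖ee x‖ := hu'
        _ = ‖X‖ * 1 := by rw [ee_norm]
    gcongr

lemma kap_ee_ne (x : Io) : kap (ee x) ≠ 0 := by
  rw [← norm_ne_zero_iff, kap_norm, ee_norm]
  exact one_ne_zero

include hX in
lemma ff_hlf (x : Io) : ff X (hlf x) = -ff X x := by
  have h := anti Gs ZZ ZZ_norm Gs_one X (-1) m1 hX ZZ_ZZ (ee x)
  rw [ZZ_ee, X_ee X hX, X_ee X hX, map_smul, Lf_kap, ZZ_ee, smul_smul] at h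
  have h2 : (ff X (hlf x) - -1 * ff X x) • kap (ee (hlf x)) = 0 := by
    rw [sub_smul, h, sub_self]
  rcases smul_eq_zero.mp h2 with h3 | h3
  · linear_combination h3
  · exact absurd h3 (kap_ee_ne _)

include hX in
lemma Xpow_ee (n : ℕ) (x : Io) : (X ^ n) (kap (ee x)) = ff X x ^ n • kap (ee x) := by
  induction n with
  | zero => simp
  | succ n ih =>
    rw [pow_succ, mul_apply_eq_comp, X_ee X hX, map_smul, ih, smul_smul, ← pow_succ']

include hX in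
lemma Xpow_T (n : ℕ) : X ^ n * TX = ((-1 : ℂ) ^ n) • (TX * X ^ n) := by
  induction n with
  | zero => simp
  | succ n ih =>
    rw [pow_succ X, mul_assoc, hX, mul_smul_comm, ← mul_assoc, ih, smul_mul_assoc, smul_smul,
      mul_assoc, ← pow_succ X]
    congr 1
    rw [pow_succ]; ring

include hX in
lemma ff_nxt (n : ℕ) (x : Io) :
    ((x.1 : ℝ) + 1) * ‖ff X x ^ n - ff X (nxt x) ^ n‖ ≤ ‖X ^ n‖ := by
  obtain ⟨m, hm⟩ := Gs_surj (Sum.inr x)
  have hε : ((-1 : ℂ) ^ n) * ((-1 : ℂ) ^ n) = 1 := by rw [← mul_pow, m1, one_pow]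
  obtain ⟨u', hu', hXu⟩ := L1 Gs ZZ ZZ_norm Gs_one (X ^ n) ((-1) ^ n) hε (Xpow_T X hX n) m
    (ee (nxt x))
  rw [hm] at hXu
  have e1 : (Gc (Sum.inr x)).val (ee (nxt x)) = ee (nxt x) + ((x.1 : ℂ) + 1) • ee x := by
    apply L2ext
    intro z
    rw [L2_add, L2_smul]
    show (Gb x).val (ee (nxt x)) z = _
    rw [Gb_apply, ee_apply (nxt x) (nxt x), if_pos rfl, ee_apply x z]
    rfl
  have kadd : ∀ a b : WW, kap (a + b) = kap a + kap b := by
    classical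
    intro a b
    apply hext
    intro j k
    have : (kap a + kap b : HH WW) j k = kap a j k + kap b j k := rfl
    rw [this, kap_apply, kap_apply, kap_apply]
    split_ifs <;> simp
  rw [e1, kadd, kap_smul, map_add, map_smul, Xpow_ee X hX, Xpow_ee X hX] at hXu
  have ce : ∀ (a : WW), kap a j0 0 = a := by
    classical
    intro a
    rw [kap_apply, if_pos rfl, if_pos rfl]
  have h1 := congrArg (fun y : HH WW => (y j0 0 : WW) (nxt x)) hXu
  have h2 := congrArg (fun y : HH WW => (y j0 0 : WW) x) hXu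
  have s1 : ∀ z : Io, ((ff X (nxt x) ^ n • kap (ee (nxt x)) +
      ((x.1 : ℂ) + 1) • ff X x ^ n • kap (ee x) : HH WW) j0 0 : WW) z =
      ff X (nxt x) ^ n * (ee (nxt x) z) + ((x.1 : ℂ) + 1) * (ff X x ^ n * (ee x z)) := by
    intro z
    have : ((ff X (nxt x) ^ n • kap (ee (nxt x)) +
      ((x.1 : ℂ) + 1) • ff X x ^ n • kap (ee x) : HH WW) j0 0 : WW) z =
      ff X (nxt x) ^ n * ((kap (ee (nxt x)) j0 0 : WW) z) +
        ((x.1 : ℂ) + 1) * (ff X x ^ n * ((kap (ee x) j0 0 : WW) z)) := rfl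
    rw [this, ce, ce]
  simp only [s1] at h1 h2
  have r1 : ∀ z : Io, ((Lf (Gc (Sum.inr x)).val u') j0 0 : WW) z =
      (u' j0 0) z + ((x.1 : ℂ) + 1) * (if z = x then (u' j0 0) (nxt x) else 0) := by
    intro z
    rw [Lf_apply]
    show (Gb x).val (u' j0 0) z = _
    rw [Gb_apply]
  rw [r1, ee_apply, ee_apply, if_pos rfl, if_neg (nxt_ne x), if_neg (nxt_ne x)] at h1
  rw [r1, ee_apply, ee_apply, if_neg (nxt_ne x).symm, if_pos rfl, if_pos rfl] at h2
  have h3 : (u' j0 0) x = ((x.1 : ℂ) + 1) * (ff X x ^ n - ff X (nxt x) ^ n) := by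
    linear_combination ((x.1 : ℂ) + 1) * h1 - h2
  have h4 : ‖(u' j0 0) x‖ ≤ ‖X ^ n‖ := by
    calc ‖(u' j0 0) x‖ ≤ ‖u' j0 0‖ := norm_coord_le _ _
      _ ≤ ‖u' j0‖ := norm_coord_le _ _
      _ ≤ ‖u'‖ := norm_coord_le _ _
      _ ≤ ‖X ^ n‖ * ‖ee (nxt x)‖ := hu'
      _ = ‖X ^ n‖ := by rw [ee_norm, mul_one]
  rw [h3, norm_mul] at h4
  have e2 : ‖(x.1 : ℂ) + 1‖ = (x.1 : ℝ) + 1 := by
    have := Complex.norm_natCast (x.1 + 1)
    push_cast at this
    exact this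
  rwa [e2] at h4

/-- No power bounded intertwiner of `T` and `-T`. -/
theorem no_power_bounded (X' : HH WW →L[ℂ] HH WW) (h1 : X * X' = 1) (h2 : X' * X = 1)
    (hX : X * TX = (-1 : ℂ) • (TX * X)) (M : ℝ) (hM : ∀ n : ℕ, ‖X ^ n‖ ≤ M)
    (hM' : ∀ n : ℕ, ‖X' ^ n‖ ≤ M) : False := by
  have hne : ∀ x, ff X x ≠ 0 := by
    intro x h0
    have h3 := X_ee X hX x
    rw [h0, zero_smul] at h3
    have h4 : X' (X (kap (ee x))) = kap (ee x) := by
      rw [← mul_apply_eq_comp, h2]; rfl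
    rw [h3, map_zero] at h4
    exact kap_ee_ne x h4.symm
  have hX'e : ∀ x, X' (kap (ee x)) = (ff X x)⁻¹ • kap (ee x) := by
    intro x
    have h4 : X' (X (kap (ee x))) = kap (ee x) := by
      rw [← mul_apply_eq_comp, h2]; rfl
    rw [X_ee X hX x, map_smul] at h4
    rw [← h4, smul_smul, inv_mul_cancel₀ (hne x), one_smul, h4]
  have hX'p : ∀ n x, (X' ^ n) (kap (ee x)) = ((ff X x)⁻¹) ^ n • kap (ee x) := by
    intro n x
    induction n with
    | zero => simp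
    | succ n ih => rw [pow_succ, mul_apply_eq_comp, hX'e, map_smul, ih, smul_smul, ← pow_succ']
  have hinv : ∀ n x, ‖((ff X x)⁻¹) ^ n‖ ≤ M := by
    intro n x
    have h5 := (X' ^ n).le_opNorm (kap (ee x))
    rw [hX'p, norm_smul, kap_norm, ee_norm, mul_one, mul_one] at h5
    exact h5.trans (hM' n)
  obtain ⟨r, hr⟩ := exists_nat_ge (2 * M ^ 2)
  have hM0 : 0 ≤ M := (norm_nonneg _).trans (hM 0)
  -- equality of neighbours on the cycle r
  have hnb : ∀ i : ZMod (2 * (r + 1)), ff X ⟨r, i⟩ = ff X ⟨r, i + 1⟩ := by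
    intro i
    have hq : ff X ⟨r, i⟩ / ff X ⟨r, i + 1⟩ = 1 := by
      apply rigid
      intro n
      have h6 := ff_nxt X hX n ⟨r, i⟩
      have h6' : ((r : ℝ) + 1) * ‖ff X ⟨r, i⟩ ^ n - ff X ⟨r, i + 1⟩ ^ n‖ ≤ M :=
        h6.trans (hM n)
      have h7 := hinv n ⟨r, i + 1⟩
      have h8 : (ff X ⟨r, i⟩ / ff X ⟨r, i + 1⟩) ^ n - 1 =
          (ff X ⟨r, i⟩ ^ n - ff X ⟨r, i + 1⟩ ^ n) * ((ff X ⟨r, i + 1⟩)⁻¹) ^ n := by
        have := pow_ne_zero n (hne ⟨r, i + 1⟩)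
        rw [div_pow, inv_pow]
        field_simp
      rw [h8, norm_mul]
      have hr1 : (0 : ℝ) < (r : ℝ) + 1 := by positivity
      have h9 : ‖ff X ⟨r, i⟩ ^ n - ff X ⟨r, i + 1⟩ ^ n‖ ≤ M / ((r : ℝ) + 1) := by
        rw [le_div_iff₀ hr1, mul_comm]; exact h6'
      calc ‖ff X ⟨r, i⟩ ^ n - ff X ⟨r, i + 1⟩ ^ n‖ * ‖((ff X ⟨r, i + 1⟩)⁻¹) ^ n‖
          ≤ M / ((r : ℝ) + 1) * M := by gcongr
        _ = M ^ 2 / ((r : ℝ) + 1) := by ring
        _ ≤ 1 / 2 := by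
            rw [div_le_div_iff₀ hr1 (by norm_num)]
            linarith
    rw [div_eq_one_iff_eq (hne _)] at hq
    exact hq
  have hconst : ∀ k : ℕ, ff X ⟨r, (k : ZMod (2 * (r + 1)))⟩ = ff X ⟨r, 0⟩ := by
    intro k
    induction k with
    | zero => simp
    | succ k ih => rw [← ih, Nat.cast_succ, ← hnb]
  have h10 := ff_hlf X hX ⟨r, 0⟩
  have h11 : hlf ⟨r, 0⟩ = ⟨r, ((r + 1 : ℕ) : ZMod (2 * (r + 1)))⟩ := by
    unfold hlf
    show (⟨r, 0 + ((r + 1 : ℕ) : ZMod (2 * (r + 1)))⟩ : Io) = _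
    rw [zero_add]
  rw [h11, hconst] at h10
  apply hne ⟨r, 0⟩
  linear_combination (1 / 2 : ℂ) * h10

end X

end Pool.Agent.H434R3.WH
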