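import Pool.Agent.H434R3.WH10

set_option autoImplicit false

namespace Pool.Agent.H434R3.WH

section abs

variable {E : Type} [NormedAddCommGroup E] [InnerProductSpace ℂ E] [CompleteSpace E]

lemma norm_unit_le (V : E →L[ℂ] E) (h : star V * V = 1) : ‖V‖ ≤ 1 := by
  have h1 : ‖star V * V‖ = ‖V‖ * ‖V‖ := CStarRing.norm_star_mul_self
  have h2 : ‖(1 : E →L[ℂ] E)‖ ≤ 1 := ContinuousLinearMap.norm_id_le
  rw [h] at h1
  have h3 := norm_nonneg V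
  nlinarith

lemma conjpow (Sv Si : E →L[ℂ] E) (s1 : Sv * Si = 1) (s2 : Si * Sv = 1) (V : E →L[ℂ] E)
    (n : ℕ) : (Si * V * Sv) ^ n = Si * V ^ n * Sv := by
  induction n with
  | zero => simp [s2]
  | succ n ih =>
    rw [pow_succ, ih]
    calc Si * V ^ n * Sv * (Si * V * Sv) = Si * V ^ n * (Sv * Si) * V * Sv := by
          simp only [mul_assoc]
      _ = Si * V ^ (n + 1) * Sv := by rw [s1, mul_one, pow_succ]; simp only [mul_assoc]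

lemma upow (Sv Si : E →L[ℂ] E) (s1 : Sv * Si = 1) (s2 : Si * Sv = 1) (V : E →L[ℂ] E)
    (hV : ∀ n : ℕ, ‖V ^ n‖ ≤ 1) (n : ℕ) : ‖(Si * V * Sv) ^ n‖ ≤ ‖Si‖ * ‖Sv‖ := by
  rw [conjpow Sv Si s1 s2]
  calc ‖Si * V ^ n * Sv‖ ≤ ‖Si * V ^ n‖ * ‖Sv‖ := norm_mul_le _ _
    _ ≤ (‖Si‖ * ‖V ^ n‖) * ‖Sv‖ := by gcongr; exact norm_mul_le _ _
    _ ≤ (‖Si‖ * 1) * ‖Sv‖ := by gcongr; exact hV n
    _ = ‖Si‖ * ‖Sv‖ := by rw [mul_one]

lemma pow_norm_le (V : E →L[ℂ] E) (h : ‖V‖ ≤ 1) (n : ℕ) : ‖V ^ n‖ ≤ 1 := by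
  induction n with
  | zero => rw [pow_zero]; exact ContinuousLinearMap.norm_id_le
  | succ n ih =>
    rw [pow_succ]
    refine (norm_mul_le _ _).trans ?_
    exact mul_le_one₀ ih (norm_nonneg _) h

theorem extract (T Sv Si U U' : E →L[ℂ] E) (s1 : Sv * Si = 1) (s2 : Si * Sv = 1)
    (u1 : U' * U = 1) (u2 : U * U' = 1) (n1 : ‖U‖ ≤ 1) (n2 : ‖U'‖ ≤ 1)
    (hrel : (-1 : ℂ) • (Sv * T * Si) = U * (Sv * T * Si) * U') :
    ∃ X X' : E →L[ℂ] E, X * X' = 1 ∧ X' * X = 1 ∧ X * T = (-1 : ℂ) • (T * X) ∧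
      (∀ n : ℕ, ‖X ^ n‖ ≤ ‖Si‖ * ‖Sv‖) ∧ (∀ n : ℕ, ‖X' ^ n‖ ≤ ‖Si‖ * ‖Sv‖) := by
  refine ⟨Si * U * Sv, Si * U' * Sv, ?_, ?_, ?_, upow Sv Si s1 s2 U (pow_norm_le U n1),
    upow Sv Si s1 s2 U' (pow_norm_le U' n2)⟩
  · calc Si * U * Sv * (Si * U' * Sv) = Si * U * (Sv * Si) * U' * Sv := by
          simp only [mul_assoc]
      _ = Si * (U * U') * Sv := by rw [s1, mul_one]; simp only [mul_assoc]
      _ = 1 := by rw [u2, mul_one, s2]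
  · calc Si * U' * Sv * (Si * U * Sv) = Si * U' * (Sv * Si) * U * Sv := by
          simp only [mul_assoc]
      _ = Si * (U' * U) * Sv := by rw [s1, mul_one]; simp only [mul_assoc]
      _ = 1 := by rw [u1, mul_one, s2]
  · have h5 : U * (Sv * T * Si) = (-1 : ℂ) • (Sv * T * Si * U) := by
      rw [← smul_mul_assoc, hrel]
      calc U * (Sv * T * Si) = U * (Sv * T * Si) * (U' * U) := by
            rw [u1, mul_one]
        _ = U * (Sv * T * Si) * U' * U := by simp only [mul_assoc]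
    calc Si * U * Sv * T = Si * U * Sv * T * (Si * Sv) := by
          rw [s2, mul_one]
      _ = Si * (U * (Sv * T * Si)) * Sv := by simp only [mul_assoc]
      _ = Si * ((-1 : ℂ) • (Sv * T * Si * U)) * Sv := by rw [h5]
      _ = (-1 : ℂ) • ((Si * Sv) * T * (Si * U * Sv)) := by
          rw [mul_smul_comm, smul_mul_assoc]; simp only [mul_assoc]
      _ = (-1 : ℂ) • (T * (Si * U * Sv)) := by rw [s2, one_mul]

lemma spec_sub (T : E →L[ℂ] E) (h : ‖T‖ ≤ 1) :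
    spectrum ℂ T ⊆ Metric.closedBall (0 : ℂ) 1 := by
  have h1 := spectrum.subset_closedBall_norm_mul (𝕜 := ℂ) T
  refine h1.trans (Metric.closedBall_subset_closedBall ?_)
  have h3 : ‖(1 : E →L[ℂ] E)‖ ≤ 1 := ContinuousLinearMap.norm_id_le
  calc ‖T‖ * ‖(1 : E →L[ℂ] E)‖ ≤ 1 * 1 := by gcongr
    _ = 1 := by norm_num

/-- The conclusion of the question implies the existence of a power bounded intertwiner
of `T` and `-T`. -/
theorem from_homog (T : E →L[ℂ] E)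
    (h : ∃ S : (E →L[ℂ] E)ˣ, ∀ (θ : ℝ) (a : ℂ), ‖a‖ < 1 →
        ∃ U ∈ unitary (E →L[ℂ] E),
          Complex.exp ((θ : ℂ) * Complex.I) •
              (((S : E →L[ℂ] E) * T * ((S⁻¹ : (E →L[ℂ] E)ˣ) : E →L[ℂ] E)
                  - a • (1 : E →L[ℂ] E)) *
                Ring.inverse ((1 : E →L[ℂ] E) - (starRingEnd ℂ a) •
                  ((S : E →L[ℂ] E) * T * ((S⁻¹ : (E →L[ℂ] E)ˣ) : E →L[ℂ] E))))
            = U * ((S : E →L[ℂ] E) * T * ((S⁻¹ : (E →L[ℂ] E)ˣ) : E →L[ℂ] E)) * star U) :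
    ∃ (X X' : E →L[ℂ] E) (M : ℝ), X * X' = 1 ∧ X' * X = 1 ∧ X * T = (-1 : ℂ) • (T * X) ∧
      (∀ n : ℕ, ‖X ^ n‖ ≤ M) ∧ (∀ n : ℕ, ‖X' ^ n‖ ≤ M) := by
  obtain ⟨S, hS⟩ := h
  obtain ⟨U, hU, hrel⟩ := hS Real.pi 0 (by simp)
  rw [Complex.exp_pi_mul_I, map_zero, zero_smul, zero_smul, sub_zero, sub_zero, Ring.inverse_one,
    mul_one] at hrel
  have u1 : star U * U = 1 := (Unitary.mem_iff.mp hU).1
  have u2 : U * star U = 1 := (Unitary.mem_iff.mp hU).2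
  have n1 := norm_unit_le U u1
  have n2 : ‖star U‖ ≤ 1 := by rw [norm_star]; exact n1
  obtain ⟨X, X', a1, a2, a3, a4, a5⟩ := extract T S.val (S⁻¹).val U (star U) S.mul_inv S.inv_mul
    u1 u2 n1 n2 hrel
  exact ⟨X, X', _, a1, a2, a3, a4, a5⟩

end abs

end Pool.Agent.H434R3.WH
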