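import Pool.Agent.H434R3.WH1

set_option autoImplicit false

namespace Pool.Agent.H434R3.WH

variable {W : Type} [NormedAddCommGroup W] [InnerProductSpace ℂ W]

/-- scalar weights -/
noncomputable def rho (G : ℕ → (W →L[ℂ] W)ˣ) (n : ℕ) : ℝ :=
  1 / (2 * (n + 1) * (‖((G n)⁻¹ : (W →L[ℂ] W)ˣ).val‖ * ‖(G (n + 1)).val‖ + 1))

lemma rho_pos (G : ℕ → (W →L[ℂ] W)ˣ) (n : ℕ) : 0 < rho G n := by
  unfold rho; positivity

lemma rho_le (G : ℕ → (W →L[ℂ] W)ˣ) (n : ℕ) : rho G n ≤ 1 / (2 * (n + 1)) := by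
  unfold rho
  apply one_div_le_one_div_of_le (by positivity)
  have h1 : (0 : ℝ) ≤ ‖((G n)⁻¹ : (W →L[ℂ] W)ˣ).val‖ * ‖(G (n + 1)).val‖ := by positivity
  have h2 : (0 : ℝ) < 2 * ((n : ℝ) + 1) := by positivity
  nlinarith

/-- operator weights -/
noncomputable def wA (G : ℕ → (W →L[ℂ] W)ˣ) (n : ℕ) : W →L[ℂ] W :=
  (rho G n : ℂ) • (((G n)⁻¹ : (W →L[ℂ] W)ˣ).val * (G (n + 1)).val)

lemma wA_norm (G : ℕ → (W →L[ℂ] W)ˣ) (n : ℕ) : ‖wA G n‖ ≤ 1 / (2 * (n + 1)) := by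
  unfold wA
  rw [norm_smul, Complex.norm_real, Real.norm_of_nonneg (rho_pos G n).le]
  have h0 : ‖((G n)⁻¹ : (W →L[ℂ] W)ˣ).val * (G (n + 1)).val‖ ≤
      ‖((G n)⁻¹ : (W →L[ℂ] W)ˣ).val‖ * ‖(G (n + 1)).val‖ := norm_mul_le _ _
  set q : ℝ := ‖((G n)⁻¹ : (W →L[ℂ] W)ˣ).val‖ * ‖(G (n + 1)).val‖ with hq
  have hq0 : 0 ≤ q := by positivity
  have h2 : (0 : ℝ) < 2 * ((n : ℝ) + 1) := by positivity
  calc rho G n * ‖((G n)⁻¹ : (W →L[ℂ] W)ˣ).val * (G (n + 1)).val‖ ≤ rho G n * q := by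
        gcongr
        exact (rho_pos G n).le
    _ = (1 / (2 * (n + 1))) * (q / (q + 1)) := by
        unfold rho
        rw [← hq]
        field_simp
    _ ≤ (1 / (2 * (n + 1))) * 1 := by
        gcongr
        rw [div_le_one (by positivity)]
        linarith
    _ = _ := mul_one _

lemma wA_norm_half (G : ℕ → (W →L[ℂ] W)ˣ) (n : ℕ) : ‖wA G n‖ ≤ 1 / 2 := by
  refine (wA_norm G n).trans ?_
  apply one_div_le_one_div_of_le (by norm_num)
  have : (0 : ℝ) ≤ n := Nat.cast_nonneg n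
  linarith

lemma wA_eq_zero (G : ℕ → (W →L[ℂ] W)ˣ) (n : ℕ) (w : W) (h : wA G n w = 0) : w = 0 := by
  unfold wA at h
  rw [smul_apply, smul_eq_zero] at h
  rcases h with h | h
  · exact absurd h (by exact_mod_cast (rho_pos G n).ne')
  · have h2 : (((G (n + 1))⁻¹ : (W →L[ℂ] W)ˣ).val * (G n).val)
        ((((G n)⁻¹ : (W →L[ℂ] W)ˣ).val * (G (n + 1)).val) w) = 0 := by rw [h, map_zero]
    rw [← mul_apply_eq_comp] at h2
    have h3 : ((G (n + 1))⁻¹ : (W →L[ℂ] W)ˣ).val * (G n).val *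
        (((G n)⁻¹ : (W →L[ℂ] W)ˣ).val * (G (n + 1)).val) = 1 := by
      rw [mul_assoc, ← mul_assoc (G n).val, Units.mul_inv, one_mul, Units.inv_mul]
    rw [h3] at h2
    simpa using h2

/-- coefficient of the second part -/
noncomputable def wF (Z : W →L[ℂ] W) (n : ℕ) : W →L[ℂ] W :=
  if n % 4 = 0 then (1 / 4 : ℂ) • Z else 0

lemma wF_norm (Z : W →L[ℂ] W) (hZ : ‖Z‖ ≤ 1) (n : ℕ) : ‖wF Z n‖ ≤ 1 / 4 := by
  unfold wF
  split_ifs
  · rw [norm_smul]
    norm_num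
    linarith
  · simp

lemma add_inj (k : ℕ) : Function.Injective (fun n : ℕ => n + k) := fun a b h => by
  simpa using h

/-- The basic operator `C₀`, a backward operator shift with an additional second diagonal. -/
noncomputable def C0 (G : ℕ → (W →L[ℂ] W)ˣ) (Z : W →L[ℂ] W) (hZ : ‖Z‖ ≤ 1) :
    L2 ℕ W →L[ℂ] L2 ℕ W :=
  wc (fun n : ℕ => n + 1) (add_inj 1) (wA G) (1 / 2) (wA_norm_half G) +
  wc (fun n : ℕ => n + 2) (add_inj 2) (wF Z) (1 / 4) (wF_norm Z hZ)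

variable (G : ℕ → (W →L[ℂ] W)ˣ) (Z : W →L[ℂ] W) (hZ : ‖Z‖ ≤ 1)

lemma C0_apply (x : L2 ℕ W) (n : ℕ) :
    C0 G Z hZ x n = wA G n (x (n + 1)) + wF Z n (x (n + 2)) := rfl

lemma C0_norm : ‖C0 G Z hZ‖ ≤ 1 := by
  have h1 := wc_norm_le (fun n : ℕ => n + 1) (add_inj 1) (wA G) (1 / 2) (wA_norm_half G)
    (by norm_num)
  have h2 := wc_norm_le (fun n : ℕ => n + 2) (add_inj 2) (wF Z) (1 / 4) (wF_norm Z hZ)
    (by norm_num)
  have h3 := norm_add_le
    (wc (fun n : ℕ => n + 1) (add_inj 1) (wA G) (1 / 2) (wA_norm_half G))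
    (wc (fun n : ℕ => n + 2) (add_inj 2) (wF Z) (1 / 4) (wF_norm Z hZ))
  unfold C0
  linarith

lemma C0_step (x : L2 ℕ W) (n : ℕ) (h : ∀ k, n ≤ k → C0 G Z hZ x k = 0) :
    ∀ k, n + 1 ≤ k → x k = 0 := by
  have key : ∀ k, n ≤ k → k % 4 ≠ 0 → x (k + 1) = 0 := by
    intro k hk h4
    have h1 := h k hk
    rw [C0_apply] at h1
    unfold wF at h1
    rw [if_neg h4] at h1
    simp only [zero_apply, add_zero] at h1
    exact wA_eq_zero G k _ h1
  intro k hk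
  obtain ⟨l, rfl⟩ : ∃ l, k = l + 1 := ⟨k - 1, by omega⟩
  have hl : n ≤ l := by omega
  by_cases h4 : l % 4 = 0
  · have h2 : x (l + 2) = 0 := key (l + 1) (by omega) (by omega)
    have h1 := h l hl
    rw [C0_apply, h2, map_zero, add_zero] at h1
    exact wA_eq_zero G l _ h1
  · exact key l hl h4

lemma C0_step' (x : L2 ℕ W) (n : ℕ) (h : ∀ k, n + 1 ≤ k → x k = 0) :
    ∀ k, n ≤ k → C0 G Z hZ x k = 0 := by
  intro k hk
  rw [C0_apply, h (k + 1) (by omega), h (k + 2) (by omega), map_zero, map_zero, add_zero]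

/-- `C₀` has no nonzero eigenvalue. -/
lemma C0_eig (y : L2 ℕ W) (c : ℂ) (hc : c ≠ 0) (h : C0 G Z hZ y = c • y) : y = 0 := by
  have hcpos : 0 < ‖c‖ := norm_pos_iff.mpr hc
  have h1 : ∀ n, c • y n = wA G n (y (n + 1)) + wF Z n (y (n + 2)) := by
    intro n
    rw [← C0_apply G Z hZ, h, L2_smul]
  have h2 : ∀ n, ‖c‖ * ‖y n‖ = ‖wA G n (y (n + 1)) + wF Z n (y (n + 2))‖ := by
    intro n
    rw [← h1, norm_smul]
  -- large index
  obtain ⟨n0, hn0⟩ := exists_nat_gt (1 / ‖c‖ + 1 / ‖c‖ ^ 2)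
  have hbig : ∀ n : ℕ, n0 ≤ n → 1 / (2 * ((n : ℝ) + 1)) ≤ ‖c‖ / 2 ∧
      1 / (2 * ((n : ℝ) + 1)) ≤ ‖c‖ ^ 2 / 2 := by
    intro n hn
    have hn' : (n0 : ℝ) ≤ n := by exact_mod_cast hn
    have e1 : 1 / ‖c‖ ≤ (n : ℝ) + 1 := by
      have : 0 ≤ 1 / ‖c‖ ^ 2 := by positivity
      linarith
    have e2 : 1 / ‖c‖ ^ 2 ≤ (n : ℝ) + 1 := by
      have : 0 ≤ 1 / ‖c‖ := by positivity
      linarith
    rw [div_le_iff₀ hcpos] at e1
    rw [div_le_iff₀ (by positivity)] at e2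
    constructor
    · rw [div_le_div_iff₀ (by positivity) (by norm_num)]
      nlinarith
    · rw [div_le_div_iff₀ (by positivity) (by norm_num)]
      nlinarith
  -- one step bound off the windows
  have off : ∀ n : ℕ, n % 4 ≠ 0 → ‖c‖ * ‖y n‖ ≤ 1 / (2 * ((n : ℝ) + 1)) * ‖y (n + 1)‖ := by
    intro n hn
    rw [h2]
    unfold wF
    rw [if_neg hn]
    simp only [zero_apply, add_zero]
    exact (wA G n).le_of_opNorm_le (wA_norm G n) _
  have step : ∀ j : ℕ, ∀ n : ℕ, n0 ≤ n → ‖y n‖ ≤ ‖y‖ / 2 ^ j := by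
    intro j
    induction j with
    | zero =>
      intro n _
      simpa using norm_coord_le y n
    | succ j ih =>
      have offb : ∀ n : ℕ, n0 ≤ n → n % 4 ≠ 0 → ‖y n‖ ≤ 1 / 2 * ‖y (n + 1)‖ := by
        intro n hn h4
        have e1 := off n h4
        have e2 := (hbig n hn).1
        have e3 : ‖c‖ * ‖y n‖ ≤ ‖c‖ * (1 / 2 * ‖y (n + 1)‖) := by
          refine e1.trans ?_
          have := mul_le_mul_of_nonneg_right e2 (norm_nonneg (y (n + 1)))
          linarith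
        exact le_of_mul_le_mul_left e3 hcpos
      intro n hn
      have target : ‖y‖ / 2 ^ (j + 1) = 1 / 2 * (‖y‖ / 2 ^ j) := by
        rw [pow_succ]; field_simp
      rw [target]
      by_cases h4 : n % 4 = 0
      · -- window
        have e1 : ‖c‖ * ‖y n‖ ≤ 1 / 2 * ‖y (n + 1)‖ + 1 / 4 * ‖y (n + 2)‖ := by
          rw [h2]
          refine (norm_add_le _ _).trans ?_
          have a1 := (wA G n).le_of_opNorm_le (wA_norm_half G n) (y (n + 1))
          have a2 := (wF Z n).le_of_opNorm_le (wF_norm Z hZ n) (y (n + 2))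
          linarith
        have e2 : ‖y (n + 1)‖ ≤ 1 / 2 * ‖y (n + 2)‖ := offb (n + 1) (by omega) (by omega)
        have e3 : ‖c‖ * ‖y (n + 2)‖ ≤ 1 / (2 * (((n + 2 : ℕ) : ℝ) + 1)) * ‖y (n + 3)‖ :=
          off (n + 2) (by omega)
        have e4 := (hbig (n + 2) (by omega)).2
        have e5 := ih (n + 3) (by omega)
        have e6 : ‖c‖ * ‖y n‖ ≤ 1 / 2 * ‖y (n + 2)‖ := by
          have := norm_nonneg (y (n + 2))
          linarith
        have e7 : ‖c‖ * ‖y (n + 2)‖ ≤ ‖c‖ ^ 2 / 2 * ‖y (n + 3)‖ :=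
          e3.trans (mul_le_mul_of_nonneg_right e4 (norm_nonneg _))
        have e8 : ‖y (n + 2)‖ ≤ ‖c‖ / 2 * ‖y (n + 3)‖ := by
          have : ‖c‖ * ‖y (n + 2)‖ ≤ ‖c‖ * (‖c‖ / 2 * ‖y (n + 3)‖) := by
            calc _ ≤ _ := e7
              _ = _ := by ring
          exact le_of_mul_le_mul_left this hcpos
        have e9 : ‖c‖ * ‖y n‖ ≤ ‖c‖ * (1 / 2 * (‖y‖ / 2 ^ j)) := by
          have h10 : ‖c‖ / 2 * ‖y (n + 3)‖ ≤ ‖c‖ / 2 * (‖y‖ / 2 ^ j) := by
            gcongr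
          have h11 : 0 ≤ ‖c‖ * (‖y‖ / 2 ^ j) := by positivity
          nlinarith
        exact le_of_mul_le_mul_left e9 hcpos
      · have e1 := offb n hn h4
        have e2 := ih (n + 1) (by omega)
        linarith
  have large : ∀ n : ℕ, n0 ≤ n → y n = 0 := by
    intro n hn
    have hlim : Filter.Tendsto (fun j : ℕ => ‖y‖ / 2 ^ j) Filter.atTop (nhds 0) := by
      have := tendsto_pow_atTop_nhds_zero_of_lt_one (r := (1 / 2 : ℝ)) (by norm_num) (by norm_num)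
      have h3 := this.const_mul ‖y‖
      rw [mul_zero] at h3
      refine h3.congr (fun j => ?_)
      rw [one_div, inv_pow, div_eq_mul_inv]
    have h4 : ‖y n‖ ≤ 0 := ge_of_tendsto' hlim (fun j => step j n hn)
    exact norm_le_zero_iff.mp h4
  have all : ∀ d n : ℕ, n0 ≤ n + d → y n = 0 := by
    intro d
    induction d with
    | zero => intro n hn; exact large n (by simpa using hn)
    | succ d ih =>
      intro n hn
      have a1 : y (n + 1) = 0 := ih (n + 1) (by omega)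
      have a2 : y (n + 2) = 0 := ih (n + 2) (by omega)
      have := h1 n
      rw [a1, a2, map_zero, map_zero, add_zero, smul_eq_zero] at this
      exact this.resolve_left hc
  exact L2ext fun n => all n0 n (by omega)

end Pool.Agent.H434R3.WH
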