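import Pool.Agent.H434R3.WH1

set_option autoImplicit false

namespace Pool.Agent.H434R3.WH

open scoped ComplexConjugate InnerProductSpace

variable {K : Type} [NormedAddCommGroup K] [InnerProductSpace ℂ K] [CompleteSpace K]

/-- Möbius transform of an operator. -/
noncomputable def Phi (a : ℂ) (B : K →L[ℂ] K) : K →L[ℂ] K :=
  (B - a • (1 : K →L[ℂ] K)) * Ring.inverse ((1 : K →L[ℂ] K) - (conj a) • B)

lemma unit_den (a : ℂ) (B : K →L[ℂ] K) (ha : ‖a‖ < 1) (hB : ‖B‖ ≤ 1) :
    IsUnit ((1 : K →L[ℂ] K) - (conj a) • B) := by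
  apply isUnit_one_sub_of_norm_lt_one
  rw [norm_smul, RCLike.norm_conj]
  calc ‖a‖ * ‖B‖ ≤ ‖a‖ * 1 := by gcongr
    _ < 1 := by linarith

lemma Phi_mul_den (a : ℂ) (B : K →L[ℂ] K) (ha : ‖a‖ < 1) (hB : ‖B‖ ≤ 1) :
    Phi a B * ((1 : K →L[ℂ] K) - (conj a) • B) = B - a • (1 : K →L[ℂ] K) := by
  unfold Phi
  rw [mul_assoc, Ring.inverse_mul_cancel _ (unit_den a B ha hB), mul_one]

lemma Phi_unique (a : ℂ) (B X : K →L[ℂ] K) (ha : ‖a‖ < 1) (hB : ‖B‖ ≤ 1)
    (h : X * ((1 : K →L[ℂ] K) - (conj a) • B) = B - a • (1 : K →L[ℂ] K)) :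
    X = Phi a B := by
  have hu := unit_den a B ha hB
  unfold Phi
  rw [← h, mul_assoc, Ring.mul_inverse_cancel _ hu, mul_one]

lemma key_ineq (a : ℂ) (B : K →L[ℂ] K) (ha : ‖a‖ < 1) (hB : ‖B‖ ≤ 1) (y : K) :
    ‖B y - a • y‖ ≤ ‖y - (conj a) • B y‖ := by
  apply le_of_sq_le_sq _ (norm_nonneg _)
  rw [@norm_sub_sq ℂ, @norm_sub_sq ℂ, inner_smul_right, inner_smul_right, norm_smul, norm_smul,
    RCLike.norm_conj]
  have h1 : ‖B y‖ ≤ ‖y‖ := by
    have := B.le_of_opNorm_le hB y
    simpa using this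
  have h2 : RCLike.re (a * ⟪B y, y⟫_ℂ) = RCLike.re (conj a * ⟪y, B y⟫_ℂ) := by
    rw [← inner_conj_symm y (B y), ← map_mul, RCLike.conj_re]
  rw [h2]
  have h3 : ‖B y‖ ^ 2 ≤ ‖y‖ ^ 2 := by gcongr
  have h4 : ‖a‖ ^ 2 ≤ 1 := by
    have := norm_nonneg a
    nlinarith
  nlinarith

lemma Phi_norm (a : ℂ) (B : K →L[ℂ] K) (ha : ‖a‖ < 1) (hB : ‖B‖ ≤ 1) : ‖Phi a B‖ ≤ 1 := by
  refine ContinuousLinearMap.opNorm_le_bound _ zero_le_one (fun x => ?_)
  have hu := unit_den a B ha hB
  set D := (1 : K →L[ℂ] K) - (conj a) • B with hD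
  set y := Ring.inverse D x with hy
  have h1 : D y = x := by
    rw [hy, ← mul_apply_eq_comp, Ring.mul_inverse_cancel _ hu, one_apply_eq_self]
  have h2 : Phi a B x = B y - a • y := by
    unfold Phi
    rw [mul_apply_eq_comp]
    simp [hy, hD]
  have h3 : D y = y - (conj a) • B y := by simp [hD]
  rw [h2, one_mul]
  have := key_ineq a B ha hB y
  rw [← h3, h1] at this
  exact this

lemma Phi_zero (B : K →L[ℂ] K) : Phi 0 B = B := by
  unfold Phi
  simp

/-- injectivity of `Phi a B` when `a` is no eigenvalue of `B` -/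
lemma Phi_inj (a : ℂ) (B : K →L[ℂ] K) (ha : ‖a‖ < 1) (hB : ‖B‖ ≤ 1)
    (h : ∀ y, B y = a • y → y = 0) (x : K) (hx : Phi a B x = 0) : x = 0 := by
  have hu := unit_den a B ha hB
  set D := (1 : K →L[ℂ] K) - (conj a) • B with hD
  set y := Ring.inverse D x with hy
  have h1 : D y = x := by
    rw [hy, ← mul_apply_eq_comp, Ring.mul_inverse_cancel _ hu, one_apply_eq_self]
  have h2 : Phi a B x = B y - a • y := by
    unfold Phi
    rw [mul_apply_eq_comp]
    simp [hy, hD]
  rw [h2, sub_eq_zero] at hx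
  rw [← h1, h y hx, map_zero]

lemma Phi_conj (a : ℂ) (B : K →L[ℂ] K) (ha : ‖a‖ < 1) (hB : ‖B‖ ≤ 1)
    (P P' B' : K →L[ℂ] K) (h1 : P * P' = 1) (h2 : P' * P = 1) (hB' : ‖B'‖ ≤ 1)
    (h : P * B = B' * P) : P * Phi a B * P' = Phi a B' := by
  apply Phi_unique a B' _ ha hB'
  have e1 : P' * B' = B * P' := by
    calc P' * B' = P' * B' * (P * P') := by rw [h1, mul_one]
      _ = P' * (B' * P) * P' := by simp only [mul_assoc]
      _ = P' * (P * B) * P' := by rw [h]
      _ = (P' * P) * B * P' := by simp only [mul_assoc]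
      _ = B * P' := by rw [h2, one_mul]
  have e2 : P' * ((1 : K →L[ℂ] K) - (conj a) • B') = ((1 : K →L[ℂ] K) - (conj a) • B) * P' := by
    rw [mul_sub, sub_mul, mul_one, one_mul, mul_smul_comm, smul_mul_assoc, e1]
  rw [mul_assoc, e2, ← mul_assoc, mul_assoc P, Phi_mul_den a B ha hB, mul_sub, sub_mul, h,
    mul_smul_comm, mul_one, smul_mul_assoc, h1, mul_assoc, h1, mul_one]

/-- the point `a''` -/
noncomputable def mpt (t b a : ℂ) : ℂ := t * ((a + b) / (1 + (conj b) * a))

/-- the rotation factor -/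
noncomputable def mrot (t b a : ℂ) : ℂ := t * ((1 + b * conj a) / (1 + (conj b) * a))

lemma den_ne (b a : ℂ) (hb : ‖b‖ < 1) (ha : ‖a‖ < 1) : 1 + (conj b) * a ≠ 0 := by
  intro h
  have h1 : ‖(conj b) * a‖ = 1 := by
    have : (conj b) * a = -1 := by linear_combination h
    rw [this]; simp
  rw [norm_mul, RCLike.norm_conj] at h1
  have := norm_nonneg a
  have := norm_nonneg b
  nlinarith

lemma mrot_norm (t b a : ℂ) (ht : ‖t‖ = 1) (hb : ‖b‖ < 1) (ha : ‖a‖ < 1) :
    ‖mrot t b a‖ = 1 := by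
  unfold mrot
  have h0 := den_ne b a hb ha
  have h1 : (1 + b * conj a) = conj (1 + (conj b) * a) := by simp
  rw [norm_mul, ht, one_mul, norm_div, h1, RCLike.norm_conj]
  exact div_self (norm_ne_zero_iff.mpr h0)

lemma mpt_norm (t b a : ℂ) (ht : ‖t‖ = 1) (hb : ‖b‖ < 1) (ha : ‖a‖ < 1) :
    ‖mpt t b a‖ < 1 := by
  unfold mpt
  have h0 := den_ne b a hb ha
  rw [norm_mul, ht, one_mul, norm_div, div_lt_one (norm_pos_iff.mpr h0)]
  apply lt_of_pow_lt_pow_left₀ 2 (norm_nonneg _)
  rw [← Complex.normSq_eq_norm_sq, ← Complex.normSq_eq_norm_sq, Complex.normSq_add,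
    Complex.normSq_add]
  have e1 : (1 * conj ((conj b) * a)).re = (a * conj b).re := by
    simp [Complex.mul_re]; ring
  rw [e1]
  have e2 : Complex.normSq ((conj b) * a) = Complex.normSq a * Complex.normSq b := by
    rw [Complex.normSq_mul, Complex.normSq_conj, mul_comm]
  rw [e2]
  have ha' : Complex.normSq a < 1 := by
    rw [Complex.normSq_eq_norm_sq]
    have := norm_nonneg a
    nlinarith
  have hb' : Complex.normSq b < 1 := by
    rw [Complex.normSq_eq_norm_sq]
    have := norm_nonneg b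
    nlinarith
  have : Complex.normSq (1 : ℂ) = 1 := by simp
  rw [this]
  nlinarith

/-- Composition of Möbius maps at the level of operators. -/
lemma Phi_comp (t b a : ℂ) (B : K →L[ℂ] K) (ht : ‖t‖ = 1) (hb : ‖b‖ < 1) (ha : ‖a‖ < 1)
    (hB : ‖B‖ ≤ 1) :
    Phi (mpt t b a) (mrot t b a • B) * ((1 : K →L[ℂ] K) - (conj b) • Phi a B)
      = t • (Phi a B - b • (1 : K →L[ℂ] K)) := by
  have hu := unit_den a B ha hB
  have h0 := den_ne b a hb ha
  set D := (1 : K →L[ℂ] K) - (conj a) • B with hD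
  have hcB : ‖mrot t b a • B‖ ≤ 1 := by
    rw [norm_smul, mrot_norm t b a ht hb ha, one_mul]; exact hB
  have hm := mpt_norm t b a ht hb ha
  have hP := Phi_mul_den (mpt t b a) (mrot t b a • B) hm hcB
  have hPa := Phi_mul_den a B ha hB
  rw [← hD] at hPa
  -- cancel D on the right
  have key : Phi (mpt t b a) (mrot t b a • B) * ((1 : K →L[ℂ] K) - (conj b) • Phi a B) * D
      = t • (Phi a B - b • (1 : K →L[ℂ] K)) * D := by
    have e1 : ((1 : K →L[ℂ] K) - (conj b) • Phi a B) * D
        = (1 + (conj b) * a) • ((1 : K →L[ℂ] K) - (conj (mpt t b a)) • (mrot t b a • B)) := by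
      rw [sub_mul, one_mul, smul_mul_assoc, hPa, hD]
      have h5 : conj (mpt t b a) * mrot t b a * (1 + (conj b) * a) = conj a + conj b := by
        have ht' : conj t * t = 1 := by
          rw [mul_comm, Complex.mul_conj, Complex.normSq_eq_norm_sq, ht]; simp
        have h6 : (1 + b * conj a) ≠ 0 := by
          have : (1 + b * conj a) = conj (1 + (conj b) * a) := by simp
          rw [this]
          exact (map_ne_zero _).mpr h0
        have h10 : conj (mpt t b a) = conj t * ((conj a + conj b) / (1 + b * conj a)) := by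
          unfold mpt
          simp only [map_mul, map_div₀, map_add, map_one, Complex.conj_conj]
        rw [h10]
        unfold mrot
        calc conj t * ((conj a + conj b) / (1 + b * conj a)) *
              (t * ((1 + b * conj a) / (1 + conj b * a))) * (1 + conj b * a)
            = (conj t * t) * (conj a + conj b) * ((1 + b * conj a) / (1 + b * conj a)) *
              ((1 + conj b * a) / (1 + conj b * a)) := by ring
          _ = conj a + conj b := by
              rw [ht', div_self h6, div_self h0]; ring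
      rw [smul_smul (conj (mpt t b a)) (mrot t b a) B, smul_sub (1 + (conj b) * a),
        smul_smul (1 + (conj b) * a),
        show (1 + (conj b) * a) * (conj (mpt t b a) * mrot t b a) = conj a + conj b from by
          rw [← h5]; ring]
      module
    rw [mul_assoc, e1, mul_smul_comm, hP, smul_mul_assoc, sub_mul, hPa, smul_mul_assoc, one_mul, hD]
    have h8 : (1 + (conj b) * a) * mrot t b a = t * (1 + b * conj a) := by
      unfold mrot
      field_simp
    have h9 : (1 + (conj b) * a) * mpt t b a = t * (a + b) := by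
      unfold mpt
      field_simp
    rw [smul_sub, smul_smul, smul_smul, h8, h9]
    module
  exact hu.mul_right_cancel key

end Pool.Agent.H434R3.WH
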