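import Pool.Agent.H434R3.WH3

set_option autoImplicit false

namespace Pool.Agent.H434R3.WH

open scoped ComplexConjugate

/-- open unit disc -/
abbrev Dsk := {a : ℂ // ‖a‖ < 1}

/-- index set -/
abbrev Idx := Dsk × Circle

lemma exists_sr (v : Circle) : ∃ s : Circle, s * s = v := by
  refine ⟨Circle.exp (Complex.arg v / 2), ?_⟩
  rw [← Circle.exp_add, add_halves, Circle.exp_arg]

/-- a square root on the circle -/
noncomputable def sr (v : Circle) : Circle := Classical.choose (exists_sr v)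

lemma sr_sq (v : Circle) : sr v * sr v = v := Classical.choose_spec (exists_sr v)

section pu

variable {J : Type} {K : Type} [NormedAddCommGroup K] [InnerProductSpace ℂ K]

/-- unit given by a permutation and invertible blocks -/
noncomputable def pu (e : J ≃ J) (U U' : J → K →L[ℂ] K) (M : ℝ) (hU : ∀ j, ‖U j‖ ≤ M)
    (hU' : ∀ j, ‖U' j‖ ≤ M) (h1 : ∀ j, U j * U' j = 1) (h2 : ∀ j, U' j * U j = 1) :
    (L2 J K →L[ℂ] L2 J K)ˣ where
  val := wc e e.injective U M hU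
  inv := wc e.symm e.symm.injective (fun i => U' (e.symm i)) M (fun i => hU' _)
  val_inv := opext fun x j => by
    rw [mul_apply_eq_comp, wc_apply, wc_apply, e.symm_apply_apply, ← mul_apply_eq_comp, h1]
    rfl
  inv_val := opext fun x i => by
    rw [mul_apply_eq_comp, wc_apply, wc_apply, e.apply_symm_apply, ← mul_apply_eq_comp, h2]
    rfl

end pu

lemma mpt_inj (t b a1 a2 : ℂ) (ht : ‖t‖ = 1) (hb : ‖b‖ < 1) (h1 : ‖a1‖ < 1) (h2 : ‖a2‖ < 1)
    (h : mpt t b a1 = mpt t b a2) : a1 = a2 := by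
  unfold mpt at h
  have ht0 : t ≠ 0 := by intro h0; rw [h0] at ht; simp at ht
  have e1 := den_ne b a1 hb h1
  have e2 := den_ne b a2 hb h2
  have h3 := mul_left_cancel₀ ht0 h
  rw [div_eq_div_iff e1 e2] at h3
  have h4 : (a1 - a2) * (1 - b * conj b) = 0 := by linear_combination h3
  rcases mul_eq_zero.mp h4 with h5 | h5
  · exact sub_eq_zero.mp h5
  · exfalso
    have h6 : b * conj b = 1 := by linear_combination -h5
    rw [Complex.mul_conj, Complex.normSq_eq_norm_sq] at h6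
    have h7 : ‖b‖ ^ 2 = 1 := by exact_mod_cast h6
    have := norm_nonneg b
    nlinarith

lemma mpt_surj (t b w : ℂ) (ht : ‖t‖ = 1) (hb : ‖b‖ < 1) (hw : ‖w‖ < 1) :
    ∃ a : ℂ, ‖a‖ < 1 ∧ mpt t b a = w := by
  have ht0 : t ≠ 0 := by intro h0; rw [h0] at ht; simp at ht
  have hti : ‖t⁻¹ * w‖ < 1 := by rw [norm_mul, norm_inv, ht]; simpa using hw
  have hb' : ‖-b‖ < 1 := by simpa using hb
  refine ⟨mpt 1 (-b) (t⁻¹ * w), mpt_norm _ _ _ (by simp) hb' hti, ?_⟩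
  have e1 := den_ne (-b) (t⁻¹ * w) hb' hti
  have e2 := den_ne b (mpt 1 (-b) (t⁻¹ * w)) hb (mpt_norm _ _ _ (by simp) hb' hti)
  set z := t⁻¹ * w with hz
  have hw' : w = t * z := by rw [hz]; field_simp
  rw [hw']
  have hAq : mpt 1 (-b) z * (1 + conj (-b) * z) = z - b := by
    unfold mpt
    rw [one_mul, div_mul_cancel₀ _ e1]
    ring
  show t * ((mpt 1 (-b) z + b) / (1 + conj b * mpt 1 (-b) z)) = t * z
  congr 1
  rw [div_eq_iff e2]
  apply mul_right_cancel₀ e1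
  simp only [map_neg] at hAq ⊢
  linear_combination (1 - z * conj b) * hAq

/-- rotation factor as an element of the circle -/
noncomputable def crot (t : Circle) (b a : Dsk) : Circle :=
  ⟨mrot t b a, mem_sphere_zero_iff_norm.2 (mrot_norm t b a (Circle.norm_coe t) b.2 a.2)⟩

lemma crot_coe (t : Circle) (b a : Dsk) : ((crot t b a : Circle) : ℂ) = mrot t b a := rfl

/-- action on the index set -/
noncomputable def sg (t : Circle) (b : Dsk) (j : Idx) : Idx :=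
  (⟨mpt t b j.1, mpt_norm _ _ _ (Circle.norm_coe t) b.2 j.1.2⟩, crot t b j.1 * crot t b j.1 * j.2)

lemma sg_bij (t : Circle) (b : Dsk) : Function.Bijective (sg t b) := by
  constructor
  · rintro ⟨a1, v1⟩ ⟨a2, v2⟩ h
    have h1 : mpt t b a1 = mpt t b a2 := congrArg (fun j : Idx => (j.1 : ℂ)) h
    have h2 : a1 = a2 := Subtype.ext (mpt_inj _ _ _ _ (Circle.norm_coe t) b.2 a1.2 a2.2 h1)
    subst h2
    have h3 : crot t b a1 * crot t b a1 * v1 = crot t b a1 * crot t b a1 * v2 :=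
      congrArg (fun j : Idx => j.2) h
    rw [mul_left_cancel h3]
  · rintro ⟨w, v⟩
    obtain ⟨a, ha, hw⟩ := mpt_surj t b w (Circle.norm_coe t) b.2 w.2
    refine ⟨(⟨a, ha⟩, (crot t b ⟨a, ha⟩ * crot t b ⟨a, ha⟩)⁻¹ * v), ?_⟩
    unfold sg
    exact Prod.ext (Subtype.ext hw) (mul_inv_cancel_left _ _)

/-- the permutation of the index set -/
noncomputable def se (t : Circle) (b : Dsk) : Idx ≃ Idx := Equiv.ofBijective _ (sg_bij t b)

lemma se_apply (t : Circle) (b : Dsk) (j : Idx) : se t b j = sg t b j := rfl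

lemma sr_cases (t : Circle) (b : Dsk) (j : Idx) :
    mrot t b j.1 * (sr j.2 : ℂ) = (sr (sg t b j).2 : ℂ) ∨
    mrot t b j.1 * (sr j.2 : ℂ) = -(sr (sg t b j).2 : ℂ) := by
  apply mul_self_eq_mul_self_iff.mp
  have h1 := sr_sq j.2
  have h2 := sr_sq (sg t b j).2
  have h1' : (sr j.2 : ℂ) * (sr j.2 : ℂ) = (j.2 : ℂ) := by
    rw [← Circle.coe_mul, h1]
  have h2' : (sr (sg t b j).2 : ℂ) * (sr (sg t b j).2 : ℂ) = ((sg t b j).2 : ℂ) := by
    rw [← Circle.coe_mul, h2]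
  rw [h2']
  show _ = ((crot t b j.1 * crot t b j.1 * j.2 : Circle) : ℂ)
  rw [Circle.coe_mul, Circle.coe_mul, crot_coe, ← h1']
  ring

variable {K : Type} [NormedAddCommGroup K] [InnerProductSpace ℂ K] [CompleteSpace K]

/-- blocks of the big operator -/
noncomputable def Tb (C : K →L[ℂ] K) (j : Idx) : K →L[ℂ] K :=
  Phi j.1 ((sr j.2 : ℂ) • C)

lemma smulC_norm (C : K →L[ℂ] K) (hC : ‖C‖ ≤ 1) (c : ℂ) (hc : ‖c‖ = 1) : ‖c • C‖ ≤ 1 := by
  rw [norm_smul, hc, one_mul]; exact hC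

lemma Tb_norm (C : K →L[ℂ] K) (hC : ‖C‖ ≤ 1) (j : Idx) : ‖Tb C j‖ ≤ 1 :=
  Phi_norm _ _ j.1.2 (smulC_norm C hC _ (Circle.norm_coe _))

/-- The big operator. -/
noncomputable def BigT (C : K →L[ℂ] K) (hC : ‖C‖ ≤ 1) : L2 Idx K →L[ℂ] L2 Idx K :=
  blk (Tb C) 1 (Tb_norm C hC)

lemma BigT_apply (C : K →L[ℂ] K) (hC : ‖C‖ ≤ 1) (x : L2 Idx K) (j : Idx) :
    BigT C hC x j = Tb C j (x j) := rfl

lemma BigT_norm (C : K →L[ℂ] K) (hC : ‖C‖ ≤ 1) : ‖BigT C hC‖ ≤ 1 :=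
  blk_norm_le _ _ _ zero_le_one

open Classical in
/-- Part (i): uniformly bounded intertwiners. -/
theorem intertwine (C : K →L[ℂ] K) (hC : ‖C‖ ≤ 1) (P P' : K →L[ℂ] K) (M : ℝ)
    (hM : 1 ≤ M) (hP : ‖P‖ ≤ M) (hP' : ‖P'‖ ≤ M) (h1 : P * P' = 1) (h2 : P' * P = 1)
    (h : P * C = -(C * P)) (t : Circle) (b : Dsk) :
    ∃ Γ : (L2 Idx K →L[ℂ] L2 Idx K)ˣ,
      ‖(Γ : L2 Idx K →L[ℂ] L2 Idx K)‖ ≤ M ∧
      ‖((Γ⁻¹ : (L2 Idx K →L[ℂ] L2 Idx K)ˣ) : L2 Idx K →L[ℂ] L2 Idx K)‖ ≤ M ∧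
      (t : ℂ) • Phi (b : ℂ) (BigT C hC) =
        (Γ : L2 Idx K →L[ℂ] L2 Idx K) * BigT C hC *
          ((Γ⁻¹ : (L2 Idx K →L[ℂ] L2 Idx K)ˣ) : L2 Idx K →L[ℂ] L2 Idx K) := by
  set cnd : Idx → Prop := fun j => mrot t b j.1 * (sr j.2 : ℂ) = (sr (sg t b j).2 : ℂ) with hcnd
  set U : Idx → K →L[ℂ] K := fun j => if cnd j then 1 else P with hU
  set U' : Idx → K →L[ℂ] K := fun j => if cnd j then 1 else P' with hU'
  have n1 : ∀ j, ‖U j‖ ≤ M := by
    intro j
    simp only [hU]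
    split_ifs
    · exact ContinuousLinearMap.norm_id_le.trans hM
    · exact hP
  have n2 : ∀ j, ‖U' j‖ ≤ M := by
    intro j
    simp only [hU']
    split_ifs
    · exact ContinuousLinearMap.norm_id_le.trans hM
    · exact hP'
  have i1 : ∀ j, U j * U' j = 1 := by
    intro j
    simp only [hU, hU']
    split_ifs
    · simp
    · exact h1
  have i2 : ∀ j, U' j * U j = 1 := by
    intro j
    simp only [hU, hU']
    split_ifs
    · simp
    · exact h2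
  refine ⟨pu (se t b) U U' M n1 n2 i1 i2, wc_norm_le _ _ _ _ _ (by linarith),
    wc_norm_le _ _ _ _ _ (by linarith), ?_⟩
  set Γ := pu (se t b) U U' M n1 n2 i1 i2 with hΓ
  have hu := unit_den (b : ℂ) (BigT C hC) b.2 (BigT_norm C hC)
  -- block identity
  have blockid : ∀ j, U j * Tb C (se t b j) * U' j * ((1 : K →L[ℂ] K) - (conj (b : ℂ)) • Tb C j)
      = (t : ℂ) • (Tb C j - (b : ℂ) • (1 : K →L[ℂ] K)) := by
    intro j
    have hB : ‖(sr j.2 : ℂ) • C‖ ≤ 1 := smulC_norm C hC _ (Circle.norm_coe _)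
    have hcomp := Phi_comp (t : ℂ) b j.1 ((sr j.2 : ℂ) • C) (Circle.norm_coe t) b.2 j.1.2 hB
    have hmn : ‖mpt (t : ℂ) b j.1‖ < 1 := mpt_norm _ _ _ (Circle.norm_coe t) b.2 j.1.2
    have e : U j * Tb C (se t b j) * U' j
        = Phi (mpt (t : ℂ) b j.1) (mrot t b j.1 • (sr j.2 : ℂ) • C) := by
      have hT : Tb C (se t b j) = Phi (mpt (t : ℂ) b j.1) ((sr (sg t b j).2 : ℂ) • C) := rfl
      rw [hT]
      by_cases hc : cnd j
      · have hc' : mrot t b j.1 * (sr j.2 : ℂ) = (sr (sg t b j).2 : ℂ) := hc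
        simp only [hU, hU', if_pos hc, one_mul, mul_one]
        rw [smul_smul, hc']
      · have hc' := (sr_cases t b j).resolve_left hc
        simp only [hU, hU', if_neg hc]
        rw [smul_smul, hc']
        refine Phi_conj _ _ hmn (smulC_norm C hC _ (Circle.norm_coe _)) P P' _ h1 h2
          (smulC_norm C hC _ (by rw [norm_neg]; exact Circle.norm_coe _)) ?_
        rw [mul_smul_comm, h, smul_mul_assoc, neg_smul, smul_neg]
    rw [e]
    exact hcomp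
  have main : (Γ : L2 Idx K →L[ℂ] L2 Idx K) * BigT C hC *
          ((Γ⁻¹ : (L2 Idx K →L[ℂ] L2 Idx K)ˣ) : L2 Idx K →L[ℂ] L2 Idx K) *
          ((1 : L2 Idx K →L[ℂ] L2 Idx K) - (conj (b : ℂ)) • BigT C hC)
        = (t : ℂ) • (BigT C hC - (b : ℂ) • (1 : L2 Idx K →L[ℂ] L2 Idx K)) := by
    apply opext
    intro x j
    have hb := congrArg (fun (A : K →L[ℂ] K) => A (x j)) (blockid j)
    have lhs : ((Γ : L2 Idx K →L[ℂ] L2 Idx K) * BigT C hC *
          ((Γ⁻¹ : (L2 Idx K →L[ℂ] L2 Idx K)ˣ) : L2 Idx K →L[ℂ] L2 Idx K) *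
          ((1 : L2 Idx K →L[ℂ] L2 Idx K) - (conj (b : ℂ)) • BigT C hC)) x j
        = U j (Tb C (se t b j) (U' ((se t b).symm (se t b j))
          (x ((se t b).symm (se t b j)) - (conj (b : ℂ)) •
            Tb C ((se t b).symm (se t b j)) (x ((se t b).symm (se t b j)))))) := rfl
    rw [lhs, Equiv.symm_apply_apply]
    have rhs : ((t : ℂ) • (BigT C hC - (b : ℂ) • (1 : L2 Idx K →L[ℂ] L2 Idx K))) x j
        = (t : ℂ) • (Tb C j (x j) - (b : ℂ) • x j) := rfl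
    rw [rhs]
    exact hb
  unfold Phi
  rw [← smul_mul_assoc, ← main, mul_assoc, Ring.mul_inverse_cancel _ hu, mul_one]

end Pool.Agent.H434R3.WH
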