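import Pool.Agent.H434R3.WH2
import Pool.Agent.H434R3.WH4

set_option autoImplicit false
set_option linter.unusedSectionVars false

namespace Pool.Agent.H434R3.WH

open scoped ComplexConjugate

variable {W : Type} [NormedAddCommGroup W] [InnerProductSpace ℂ W] [CompleteSpace W]

/-- The Hilbert space of the construction. -/
noncomputable abbrev HH (W : Type) [NormedAddCommGroup W] := L2 Idx (L2 ℕ W)

/-- levels below `n` over the centre of the disc -/
def InE (n : ℕ) (x : HH W) : Prop :=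
  (∀ j : Idx, (j.1 : ℂ) ≠ 0 → x j = 0) ∧ (∀ j : Idx, ∀ k, n ≤ k → x j k = 0)

lemma hext {x y : HH W} (h : ∀ j k, x j k = y j k) : x = y :=
  L2ext fun j => L2ext fun k => h j k

lemma InE.mono {n m : ℕ} (h : n ≤ m) {x : HH W} (hx : InE n x) : InE m x :=
  ⟨hx.1, fun j k hk => hx.2 j k (h.trans hk)⟩

lemma InE_zero {x : HH W} (hx : InE 0 x) : x = 0 :=
  hext fun j k => hx.2 j k (Nat.zero_le k)

/-- Σ -/
noncomputable def Sg : HH W →L[ℂ] HH W :=
  blk (fun j => (sr j.2 : ℂ) • (1 : L2 ℕ W →L[ℂ] L2 ℕ W)) 1 (fun j => by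
    rw [norm_smul, Circle.norm_coe, one_mul]; exact ContinuousLinearMap.norm_id_le)

/-- inverse of Σ -/
noncomputable def Sg' : HH W →L[ℂ] HH W :=
  blk (fun j => ((sr j.2)⁻¹ : Circle).val • (1 : L2 ℕ W →L[ℂ] L2 ℕ W)) 1 (fun j => by
    rw [norm_smul, Circle.norm_coe, one_mul]; exact ContinuousLinearMap.norm_id_le)

/-- lift of an operator on `W` -/
noncomputable def Lf (A : W →L[ℂ] W) : HH W →L[ℂ] HH W := cst (cst A)

/-- lift of the matrix units -/
noncomputable def Mh (p q : ℕ) : HH W →L[ℂ] HH W := cst (mu p q)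

lemma Sg_apply (x : HH W) (j : Idx) (k : ℕ) : Sg x j k = (sr j.2 : ℂ) • x j k := rfl

lemma Sg'_apply (x : HH W) (j : Idx) (k : ℕ) :
    Sg' x j k = ((sr j.2)⁻¹ : Circle).val • x j k := rfl

lemma Lf_apply (A : W →L[ℂ] W) (x : HH W) (j : Idx) (k : ℕ) : Lf A x j k = A (x j k) := rfl

lemma Mh_apply (p q : ℕ) (x : HH W) (j : Idx) (k : ℕ) :
    Mh p q x j k = if k = p then x j q else 0 := by
  show (mu p q (x j) : L2 ℕ W) k = _
  rw [mu_apply]

lemma Sg_norm (x : HH W) : ‖Sg x‖ ≤ ‖x‖ := by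
  have h : ‖(Sg : HH W →L[ℂ] HH W)‖ ≤ 1 := blk_norm_le _ _ _ zero_le_one
  simpa using (Sg : HH W →L[ℂ] HH W).le_of_opNorm_le h x

lemma Sg'_norm (x : HH W) : ‖Sg' x‖ ≤ ‖x‖ := by
  have h : ‖(Sg' : HH W →L[ℂ] HH W)‖ ≤ 1 := blk_norm_le _ _ _ zero_le_one
  simpa using (Sg' : HH W →L[ℂ] HH W).le_of_opNorm_le h x

lemma Lf_norm (A : W →L[ℂ] W) (x : HH W) : ‖Lf A x‖ ≤ ‖A‖ * ‖x‖ := by
  have h : ‖(Lf A : HH W →L[ℂ] HH W)‖ ≤ ‖A‖ := (cst_norm_le _).trans (cst_norm_le _)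
  exact (Lf A : HH W →L[ℂ] HH W).le_of_opNorm_le h x

lemma Mh_norm (p q : ℕ) (x : HH W) : ‖Mh p q x‖ ≤ ‖x‖ := by
  have h : ‖(Mh p q : HH W →L[ℂ] HH W)‖ ≤ 1 := (cst_norm_le _).trans (mu_norm_le p q)
  simpa using (Mh p q : HH W →L[ℂ] HH W).le_of_opNorm_le h x

lemma Sg_pow_apply (n : ℕ) (x : HH W) (j : Idx) (k : ℕ) :
    (Sg ^ n) x j k = (sr j.2 : ℂ) ^ n • x j k := by
  induction n with
  | zero => simp
  | succ n ih => rw [pow_succ', mul_apply_eq_comp, Sg_apply, ih, smul_smul, pow_succ']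

lemma Sg_pow_norm (n : ℕ) (x : HH W) : ‖(Sg ^ n) x‖ ≤ ‖x‖ := by
  induction n with
  | zero => simp
  | succ n ih => rw [pow_succ', mul_apply_eq_comp]; exact (Sg_norm _).trans ih

lemma Sg'_pow_norm (n : ℕ) (x : HH W) : ‖(Sg' ^ n) x‖ ≤ ‖x‖ := by
  induction n with
  | zero => simp
  | succ n ih => rw [pow_succ', mul_apply_eq_comp]; exact (Sg'_norm _).trans ih

lemma Sg'_pow_apply (n : ℕ) (x : HH W) (j : Idx) (k : ℕ) :
    (Sg' ^ n) x j k = ((sr j.2)⁻¹ : Circle).val ^ n • x j k := by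
  induction n with
  | zero => simp
  | succ n ih => rw [pow_succ', mul_apply_eq_comp, Sg'_apply, ih, smul_smul, pow_succ']

lemma Sg_Sg' (n : ℕ) (x : HH W) : (Sg ^ n) ((Sg' ^ n) x) = x := by
  apply hext
  intro j k
  rw [Sg_pow_apply, Sg'_pow_apply, smul_smul, ← mul_pow]
  have : (sr j.2 : ℂ) * ((sr j.2)⁻¹ : Circle).val = 1 := by
    show (sr j.2 : ℂ) * (((sr j.2)⁻¹ : Circle) : ℂ) = 1
    rw [← Circle.coe_mul, mul_inv_cancel, Circle.coe_one]
  rw [this, one_pow, one_smul]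

variable (G : ℕ → (W →L[ℂ] W)ˣ) (Z : W →L[ℂ] W) (hZ : ‖Z‖ ≤ 1)

/-- the operator -/
noncomputable def TT : HH W →L[ℂ] HH W := BigT (C0 G Z hZ) (C0_norm G Z hZ)

lemma TT_apply (x : HH W) (j : Idx) : TT G Z hZ x j = Tb (C0 G Z hZ) j (x j) := rfl

lemma TT_apply0 (x : HH W) (j : Idx) (hj : (j.1 : ℂ) = 0) (k : ℕ) :
    TT G Z hZ x j k = (sr j.2 : ℂ) • (wA G k (x j (k + 1)) + wF Z k (x j (k + 2))) := by
  rw [TT_apply]
  unfold Tb
  rw [hj, Phi_zero]
  rfl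

lemma Tb_zero (j : Idx) (hj : (j.1 : ℂ) ≠ 0) (y : L2 ℕ W) (h : Tb (C0 G Z hZ) j y = 0) :
    y = 0 := by
  refine Phi_inj _ _ j.1.2 (smulC_norm _ (C0_norm G Z hZ) _ (Circle.norm_coe _)) ?_ y h
  intro z hz
  have hs : (sr j.2 : ℂ) ≠ 0 := Circle.coe_ne_zero _
  refine C0_eig G Z hZ z ((sr j.2 : ℂ)⁻¹ * (j.1 : ℂ)) (mul_ne_zero (inv_ne_zero hs) hj) ?_
  rw [mul_smul, ← hz, smul_apply, smul_smul, inv_mul_cancel₀ hs, one_smul]

lemma step_down {n : ℕ} {x : HH W} (h : InE n (TT G Z hZ x)) : InE (n + 1) x := by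
  have h1 : ∀ j : Idx, (j.1 : ℂ) ≠ 0 → x j = 0 := by
    intro j hj
    exact Tb_zero G Z hZ j hj _ (h.1 j hj)
  refine ⟨h1, ?_⟩
  intro j k hk
  by_cases hj : (j.1 : ℂ) = 0
  · refine C0_step G Z hZ (x j) n (fun l hl => ?_) k hk
    have h2 := h.2 j l hl
    rw [TT_apply0 G Z hZ x j hj, smul_eq_zero] at h2
    rw [C0_apply]
    exact h2.resolve_left (Circle.coe_ne_zero _)
  · rw [h1 j hj]; rfl

lemma step_up {n : ℕ} {x : HH W} (h : InE (n + 1) x) : InE n (TT G Z hZ x) := by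
  constructor
  · intro j hj
    rw [TT_apply, h.1 j hj, map_zero]
  · intro j k hk
    by_cases hj : (j.1 : ℂ) = 0
    · rw [TT_apply0 G Z hZ x j hj, h.2 j (k + 1) (by omega), h.2 j (k + 2) (by omega), map_zero,
        map_zero, add_zero, smul_zero]
    · rw [TT_apply, h.1 j hj, map_zero]; rfl

lemma pow_up {n : ℕ} : ∀ (m : ℕ) {x : HH W}, InE (m + n) x → InE n ((TT G Z hZ ^ m) x) := by
  intro m
  induction m with
  | zero => intro x h; simpa using h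
  | succ m ih =>
    intro x h
    rw [pow_succ, mul_apply_eq_comp]
    exact ih (step_up G Z hZ (by rwa [show m + 1 + n = m + n + 1 by ring] at h))

lemma pow_down : ∀ (m : ℕ) {x : HH W}, (TT G Z hZ ^ m) x = 0 → InE m x := by
  intro m
  induction m with
  | zero =>
    intro x h
    have : x = 0 := by simpa using h
    subst this
    exact ⟨fun j _ => rfl, fun j k _ => rfl⟩
  | succ m ih =>
    intro x h
    rw [pow_succ, mul_apply_eq_comp] at h
    exact step_down G Z hZ (ih h)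

lemma pow_zero' {m : ℕ} {x : HH W} (h : InE m x) : (TT G Z hZ ^ m) x = 0 :=
  InE_zero (pow_up G Z hZ (n := 0) m (by simpa using h))

section inter

variable (X : HH W →L[ℂ] HH W) (ε : ℂ) (hε : ε * ε = 1)
  (hX : X * TT G Z hZ = ε • (TT G Z hZ * X))

include hX in
lemma X_pow (m : ℕ) : X * TT G Z hZ ^ m = ε ^ m • (TT G Z hZ ^ m * X) := by
  induction m with
  | zero => simp
  | succ m ih =>
    rw [pow_succ, ← mul_assoc, ih, smul_mul_assoc, mul_assoc, hX, mul_smul_comm, smul_smul,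
      ← mul_assoc, pow_succ]

include hε hX in
lemma X_inv {m : ℕ} {x : HH W} (h : InE m x) : InE m (X x) := by
  apply pow_down G Z hZ
  have h1 : (X * TT G Z hZ ^ m) x = 0 := by
    rw [mul_apply_eq_comp, pow_zero' G Z hZ h, map_zero]
  rw [X_pow G Z hZ X ε hX m, smul_apply, smul_eq_zero, mul_apply_eq_comp] at h1
  rcases h1 with h1 | h1
  · exfalso
    have hne : ε ≠ 0 := by
      intro h0
      rw [h0] at hε
      simp at hε
    exact pow_ne_zero m hne h1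
  · exact h1

end inter

/-- products of the scalar weights -/
noncomputable def bt : ℕ → ℝ
  | 0 => 1
  | (n + 1) => bt n * rho G n

lemma bt_pos (n : ℕ) : 0 < bt G n := by
  induction n with
  | zero => simp [bt]
  | succ n ih => rw [bt]; exact mul_pos ih (rho_pos G n)

lemma G_wA (n : ℕ) (w : W) : (G n).val (wA G n w) = (rho G n : ℂ) • (G (n + 1)).val w := by
  unfold wA
  rw [smul_apply, map_smul, mul_apply_eq_comp, ← mul_apply_eq_comp (G n).val, Units.mul_inv]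
  rfl

variable (hG : ∀ n, n % 4 ≠ 3 → G n = 1)

include hG in
lemma TP (n : ℕ) : ∀ {x : HH W}, InE (n + 1) x → ∀ j : Idx, (j.1 : ℂ) = 0 →
    (TT G Z hZ ^ n) x j 0 = ((sr j.2 : ℂ) ^ n * (bt G n : ℂ)) • (G n).val (x j n) := by
  induction n with
  | zero =>
    intro x _ j _
    rw [hG 0 (by norm_num)]
    simp [bt]
  | succ n ih =>
    intro x hx j hj
    rw [pow_succ, mul_apply_eq_comp, ih (step_up G Z hZ hx) j hj, TT_apply0 G Z hZ x j hj,
      hx.2 j (n + 2) (le_refl _), map_zero, add_zero, map_smul, G_wA, smul_smul, smul_smul, bt]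
    congr 1
    push_cast
    ring

include hG in
lemma L00 (n : ℕ) {x : HH W} (hx : InE (n + 1) x) :
    (TT G Z hZ ^ n) x = (bt G n : ℂ) • (Sg ^ n) (Lf (G n).val (Mh 0 n x)) := by
  have h1 : InE 1 ((TT G Z hZ ^ n) x) := pow_up G Z hZ n hx
  apply hext
  intro j k
  have r : ((bt G n : ℂ) • (Sg ^ n) (Lf (G n).val (Mh 0 n x))) j k
      = (bt G n : ℂ) • ((Sg ^ n) (Lf (G n).val (Mh 0 n x)) j k) := rfl
  rw [r, Sg_pow_apply, Lf_apply, Mh_apply]
  by_cases hk : k = 0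
  · subst hk
    rw [if_pos rfl]
    by_cases hj : (j.1 : ℂ) = 0
    · rw [TP G Z hZ hG n hx j hj, smul_smul, mul_comm]
    · rw [h1.1 j hj, hx.1 j hj, L2_zero, L2_zero, map_zero, smul_zero, smul_zero]
  · rw [h1.2 j k (by omega), if_neg hk, map_zero, smul_zero, smul_zero]

lemma InE_Mh (n : ℕ) {u : HH W} (hu : InE 1 u) : InE (n + 1) (Mh n 0 u) := by
  constructor
  · intro j hj
    apply L2ext
    intro k
    rw [Mh_apply, hu.1 j hj]
    split_ifs <;> rfl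
  · intro j k hk
    rw [Mh_apply, if_neg (by omega)]

lemma Mh_Mh (n : ℕ) {u : HH W} (hu : InE 1 u) : Mh 0 n (Mh n 0 u) = u := by
  apply hext
  intro j k
  rw [Mh_apply, Mh_apply, if_pos rfl]
  by_cases hk : k = 0
  · rw [if_pos hk, hk]
  · rw [if_neg hk, hu.2 j k (by omega)]

include hG in
lemma L0 (X : HH W →L[ℂ] HH W) (ε : ℂ) (hε : ε * ε = 1)
    (hX : X * TT G Z hZ = ε • (TT G Z hZ * X)) (n : ℕ) {u : HH W} (hu : InE 1 u) :
    X ((Sg ^ n) (Lf (G n).val u)) =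
      ε ^ n • (Sg ^ n) (Lf (G n).val (Mh 0 n (X (Mh n 0 u)))) := by
  have hz := InE_Mh n hu
  have hXz := X_inv G Z hZ X ε hε hX hz
  have h1 := L00 G Z hZ hG n hz
  rw [Mh_Mh n hu] at h1
  have h2 := L00 G Z hZ hG n hXz
  have h3 : (X * TT G Z hZ ^ n) (Mh n 0 u) = (ε ^ n • (TT G Z hZ ^ n * X)) (Mh n 0 u) := by
    rw [X_pow G Z hZ X ε hX n]
  rw [mul_apply_eq_comp, smul_apply, mul_apply_eq_comp, h1, h2, map_smul, smul_comm (ε ^ n)] at h3
  have hb : (bt G n : ℂ) ≠ 0 := by exact_mod_cast (bt_pos G n).ne'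
  exact smul_right_injective _ hb h3

end Pool.Agent.H434R3.WH
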