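import Pool.Agent.H434R3.WH5

set_option autoImplicit false
set_option linter.unusedSectionVars false

namespace Pool.Agent.H434R3.WH

open scoped ComplexConjugate

variable {W : Type} [NormedAddCommGroup W] [InnerProductSpace ℂ W] [CompleteSpace W]
variable (G : ℕ → (W →L[ℂ] W)ˣ) (Z : W →L[ℂ] W) (hZ : ‖Z‖ ≤ 1)
variable (hG : ∀ n, n % 4 ≠ 3 → G n = 1)

lemma wA_scalar (hG : ∀ n, n % 4 ≠ 3 → G n = 1) (n : ℕ) (h1 : n % 4 ≠ 3)
    (h2 : (n + 1) % 4 ≠ 3) (w : W) : wA G n w = (rho G n : ℂ) • w := by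
  unfold wA
  rw [hG n h1, hG (n + 1) h2]
  simp

lemma InE_Sg {n : ℕ} {x : HH W} (h : InE n x) : InE n (Sg x) := by
  constructor
  · intro j hj
    apply L2ext
    intro k
    rw [Sg_apply, h.1 j hj, L2_zero, smul_zero]
  · intro j k hk
    rw [Sg_apply, h.2 j k hk, smul_zero]

lemma InE_Sgpow {n : ℕ} {x : HH W} (h : InE n x) (m : ℕ) : InE n ((Sg ^ m) x) := by
  constructor
  · intro j hj
    apply L2ext
    intro k
    rw [Sg_pow_apply, h.1 j hj, L2_zero, smul_zero]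
  · intro j k hk
    rw [Sg_pow_apply, h.2 j k hk, smul_zero]

lemma InE_Sg'pow {n : ℕ} {x : HH W} (h : InE n x) (m : ℕ) : InE n ((Sg' ^ m) x) := by
  constructor
  · intro j hj
    apply L2ext
    intro k
    rw [Sg'_pow_apply, h.1 j hj, L2_zero, smul_zero]
  · intro j k hk
    rw [Sg'_pow_apply, h.2 j k hk, smul_zero]

lemma InE_Lf {n : ℕ} {x : HH W} (h : InE n x) (A : W →L[ℂ] W) : InE n (Lf A x) := by
  constructor
  · intro j hj
    apply L2ext
    intro k
    rw [Lf_apply, h.1 j hj, L2_zero, map_zero]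
  · intro j k hk
    rw [Lf_apply, h.2 j k hk, map_zero]

include hG in
/-- action of `T` on the lift of a level zero vector to level `m + 2` -/
lemma T_lift (m : ℕ) (hm : m % 4 = 0) {u : HH W} (hu : InE 1 u) :
    TT G Z hZ (Mh (m + 2) 0 u) = (rho G (m + 1) : ℂ) • Sg (Mh (m + 1) 0 u) +
      (1 / 4 : ℂ) • Mh m 0 (Sg (Lf Z u)) := by
  apply hext
  intro j k
  have r : ((rho G (m + 1) : ℂ) • Sg (Mh (m + 1) 0 u) +
      (1 / 4 : ℂ) • Mh m 0 (Sg (Lf Z u)) : HH W) j k =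
      (rho G (m + 1) : ℂ) • (Sg (Mh (m + 1) 0 u) j k) +
        (1 / 4 : ℂ) • (Mh m 0 (Sg (Lf Z u)) j k) := rfl
  rw [r, Sg_apply, Mh_apply, Mh_apply, Sg_apply, Lf_apply]
  by_cases hj : (j.1 : ℂ) = 0
  · rw [TT_apply0 G Z hZ _ j hj, Mh_apply, Mh_apply]
    by_cases h1 : k = m + 1
    · subst h1
      rw [if_pos rfl, if_neg (by omega), if_pos rfl, if_neg (by omega), map_zero, add_zero,
        wA_scalar G hG (m + 1) (by omega) (by omega), smul_zero, add_zero, smul_comm]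
    · by_cases h2 : k = m
      · subst h2
        rw [if_neg (by omega), if_pos rfl, if_neg (by omega), if_pos rfl, map_zero, zero_add,
          smul_zero, smul_zero, zero_add]
        unfold wF
        rw [if_pos hm, smul_apply, smul_comm]
      · rw [if_neg (by omega), if_neg (by omega), if_neg h1, if_neg h2]
        simp
  · rw [TT_apply, hu.1 j hj, L2_zero]
    have : Mh (m + 2) 0 u j = 0 := by
      apply L2ext
      intro l
      rw [Mh_apply, hu.1 j hj]
      split_ifs <;> rfl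
    rw [this, map_zero]
    simp

include hG in
/-- level `m` component of `T y` for `y` of level below `m + 3` -/
lemma T_comp (m : ℕ) (hm : m % 4 = 0) {y : HH W} (hy : InE (m + 3) y) :
    Mh 0 m (TT G Z hZ y) = (rho G m : ℂ) • Sg (Mh 0 (m + 1) y) +
      (1 / 4 : ℂ) • Sg (Lf Z (Mh 0 (m + 2) y)) := by
  apply hext
  intro j k
  have r : ((rho G m : ℂ) • Sg (Mh 0 (m + 1) y) +
      (1 / 4 : ℂ) • Sg (Lf Z (Mh 0 (m + 2) y)) : HH W) j k =
      (rho G m : ℂ) • (Sg (Mh 0 (m + 1) y) j k) +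
        (1 / 4 : ℂ) • (Sg (Lf Z (Mh 0 (m + 2) y)) j k) := rfl
  rw [r, Sg_apply, Mh_apply, Sg_apply, Lf_apply, Mh_apply, Mh_apply]
  by_cases hk : k = 0
  · subst hk
    rw [if_pos rfl, if_pos rfl, if_pos rfl]
    by_cases hj : (j.1 : ℂ) = 0
    · rw [TT_apply0 G Z hZ _ j hj, wA_scalar G hG m (by omega) (by omega)]
      unfold wF
      rw [if_pos hm, smul_add, smul_apply, smul_comm, smul_comm (1 / 4 : ℂ)]
    · rw [TT_apply, hy.1 j hj, map_zero]
      simp [L2_zero]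
  · rw [if_neg hk, if_neg hk, if_neg hk]
    simp

section inter

variable (X : HH W →L[ℂ] HH W) (ε : ℂ) (hε : ε * ε = 1)
  (hX : X * TT G Z hZ = ε • (TT G Z hZ * X))

include hG hε hX in
lemma window (m : ℕ) (hm : m % 4 = 0) {x : HH W} (hx : InE 1 x) :
    ‖Sg (X (Lf Z x)) - ε • Lf Z (X (Sg x))‖ ≤
      4 * (rho G m + rho G (m + 1)) * ‖X‖ * ‖x‖ := by
  -- u with Σ^{m+1} u = x
  set u : HH W := (Sg' ^ (m + 1)) x with hu_def
  have hu : InE 1 u := InE_Sg'pow hx _
  have hux : (Sg ^ (m + 1)) u = x := Sg_Sg' (m + 1) x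
  have hun : ‖u‖ ≤ ‖x‖ := Sg'_pow_norm _ _
  have hεm : ε ^ m * ε ^ m = 1 := by rw [← mul_pow, hε, one_pow]
  set z : HH W := Mh (m + 2) 0 u with hz
  have hzE : InE (m + 3) z := InE_Mh (m + 2) hu
  have hXz : InE (m + 3) (X z) := X_inv G Z hZ X ε hε hX hzE
  -- main relation
  have e1 : X (TT G Z hZ z) = ε • TT G Z hZ (X z) := by
    rw [← mul_apply_eq_comp, hX]; rfl
  have e2 := congrArg (fun y => Mh 0 m y) e1
  simp only [map_smul] at e2
  rw [T_comp G Z hZ hG m hm hXz, T_lift G Z hZ hG m hm hu, map_add, map_smul, map_smul, map_add,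
    map_smul, map_smul] at e2
  -- scalar level formulas
  have l1 := L0 G Z hZ hG X ε hε hX m (InE_Sg (InE_Lf hu Z))
  rw [hG m (by omega)] at l1
  have l2 := L0 G Z hZ hG X ε hε hX (m + 2) hu
  rw [hG (m + 2) (by omega)] at l2
  have one_lf : ∀ y : HH W, Lf ((1 : (W →L[ℂ] W)ˣ) : W →L[ℂ] W) y = y := fun y => rfl
  rw [one_lf, one_lf] at l1 l2
  rw [← hz] at l2
  set p : HH W := Mh 0 m (X (Mh m 0 (Sg (Lf Z u)))) with hp
  set q : HH W := Mh 0 (m + 2) (X z) with hq
  set r1 : HH W := Mh 0 m (X (Sg (Mh (m + 1) 0 u))) with hr1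
  set r2 : HH W := Mh 0 (m + 1) (X z) with hr2
  -- l1 : X (Σ^m Σ Z u) = ε^m Σ^m p ;  l2 : X (Σ^(m+2) u) = ε^(m+2) Σ^(m+2) q
  have c1 : (Sg ^ m) (Sg (Lf Z u)) = Lf Z x := by
    rw [← hux]
    apply hext
    intro j k
    rw [Sg_pow_apply, Sg_apply, Lf_apply, Lf_apply, Sg_pow_apply, map_smul, smul_smul, pow_succ]
  have c2 : (Sg ^ (m + 2)) u = Sg x := by
    rw [← hux, pow_succ', mul_apply_eq_comp]
  rw [c1] at l1
  rw [c2] at l2
  have l1' : (Sg ^ m) p = ε ^ m • X (Lf Z x) := by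
    rw [l1, smul_smul, hεm, one_smul]
  have l2' : (Sg ^ (m + 2)) q = ε ^ m • X (Sg x) := by
    rw [l2, smul_smul]
    have : ε ^ m * ε ^ (m + 2) = 1 := by
      rw [pow_add, ← mul_assoc, hεm, one_mul, pow_two, hε]
    rw [this, one_smul]
  -- apply Σ^{m+1}
  have e3 := congrArg (fun y => (Sg ^ (m + 1)) y) e2
  simp only [map_add, map_smul] at e3
  have f1 : (Sg ^ (m + 1)) p = ε ^ m • Sg (X (Lf Z x)) := by
    rw [pow_succ', mul_apply_eq_comp, l1', map_smul]
  have f2 : (Sg ^ (m + 1)) (Sg (Lf Z q)) = ε ^ m • Lf Z (X (Sg x)) := by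
    have : (Sg ^ (m + 1)) (Sg (Lf Z q)) = Lf Z ((Sg ^ (m + 2)) q) := by
      apply hext
      intro j k
      rw [Sg_pow_apply, Sg_apply, Lf_apply, Lf_apply, Sg_pow_apply, map_smul, smul_smul,
        ← pow_succ]
    rw [this, l2', map_smul]
  rw [f1, f2] at e3
  -- isolate
  have e4 : ε ^ m • (Sg (X (Lf Z x)) - ε • Lf Z (X (Sg x))) =
      (4 * ε * (rho G m : ℂ)) • (Sg ^ (m + 1)) (Sg r2) -
        (4 * (rho G (m + 1) : ℂ)) • (Sg ^ (m + 1)) r1 := by
    have e5 := congrArg (fun y => (4 : ℂ) • y) e3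
    simp only [smul_add, smul_smul] at e5
    rw [smul_sub, smul_smul]
    have h4 : (4 : ℂ) * (1 / 4 * ε ^ m) = ε ^ m := by ring
    have h5 : (4 : ℂ) * (ε * (1 / 4 * ε ^ m)) = ε ^ m * ε := by ring
    rw [h4, h5] at e5
    have h6 : (4 : ℂ) * (ε * (rho G m : ℂ)) = 4 * ε * (rho G m : ℂ) := by ring
    rw [h6] at e5
    rw [sub_eq_sub_iff_add_eq_add, add_comm (ε ^ m • Sg (X (Lf Z x)))]
    exact e5
  have hεn : ‖ε‖ = 1 := by
    have h : ‖ε‖ * ‖ε‖ = 1 := by rw [← norm_mul, hε, norm_one]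
    have h0 := norm_nonneg ε
    exact (mul_self_eq_one_iff.mp h).resolve_right (by linarith)
  have n0 : ‖ε ^ m • (Sg (X (Lf Z x)) - ε • Lf Z (X (Sg x)))‖ =
      ‖Sg (X (Lf Z x)) - ε • Lf Z (X (Sg x))‖ := by
    rw [norm_smul, norm_pow, hεn, one_pow, one_mul]
  rw [← n0, e4]
  have hr2n : ‖(Sg ^ (m + 1)) (Sg r2)‖ ≤ ‖X‖ * ‖x‖ := by
    refine (Sg_pow_norm _ _).trans ((Sg_norm _).trans ((Mh_norm _ _ _).trans ?_))
    refine (X.le_opNorm _).trans ?_
    gcongr
    exact (Mh_norm _ _ _).trans hun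
  have hr1n : ‖(Sg ^ (m + 1)) r1‖ ≤ ‖X‖ * ‖x‖ := by
    refine (Sg_pow_norm _ _).trans ((Mh_norm _ _ _).trans ?_)
    refine (X.le_opNorm _).trans ?_
    gcongr
    exact (Sg_norm _).trans ((Mh_norm _ _ _).trans hun)
  refine (norm_sub_le _ _).trans ?_
  rw [norm_smul, norm_smul, norm_mul, norm_mul, norm_mul, hεn, Complex.norm_real,
    Complex.norm_real, Real.norm_of_nonneg (rho_pos G m).le,
    Real.norm_of_nonneg (rho_pos G (m + 1)).le]
  have h44 : ‖(4 : ℂ)‖ = 4 := by norm_num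
  rw [h44]
  have a1 := mul_le_mul_of_nonneg_left hr2n (rho_pos G m).le
  have a2 := mul_le_mul_of_nonneg_left hr1n (rho_pos G (m + 1)).le
  calc 4 * 1 * rho G m * ‖(Sg ^ (m + 1)) (Sg r2)‖ +
        4 * rho G (m + 1) * ‖(Sg ^ (m + 1)) r1‖
      = 4 * (rho G m * ‖(Sg ^ (m + 1)) (Sg r2)‖) +
        4 * (rho G (m + 1) * ‖(Sg ^ (m + 1)) r1‖) := by ring
    _ ≤ 4 * (rho G m * (‖X‖ * ‖x‖)) + 4 * (rho G (m + 1) * (‖X‖ * ‖x‖)) :=
        add_le_add (mul_le_mul_of_nonneg_left a1 (by norm_num))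
          (mul_le_mul_of_nonneg_left a2 (by norm_num))
    _ = 4 * (rho G m + rho G (m + 1)) * ‖X‖ * ‖x‖ := by ring

include hG hε hX in
/-- exact commutation relation on level zero -/
lemma exact_rel {x : HH W} (hx : InE 1 x) :
    Sg (X (Lf Z x)) = ε • Lf Z (X (Sg x)) := by
  rw [← sub_eq_zero, ← norm_le_zero_iff]
  have hlim : Filter.Tendsto (fun k : ℕ => 4 * (1 / (2 * (((4 * k : ℕ) : ℝ) + 1)) +
      1 / (2 * (((4 * k + 1 : ℕ) : ℝ) + 1))) * ‖X‖ * ‖x‖) Filter.atTop (nhds 0) := by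
    have t1 : Filter.Tendsto (fun k : ℕ => 1 / (2 * (((4 * k : ℕ) : ℝ) + 1)))
        Filter.atTop (nhds 0) := by
      have := tendsto_one_div_add_atTop_nhds_zero_nat (𝕜 := ℝ)
      refine squeeze_zero (fun k => by positivity) (fun k => ?_) this
      apply one_div_le_one_div_of_le (by positivity)
      push_cast
      have : (0 : ℝ) ≤ k := Nat.cast_nonneg k
      linarith
    have t2 : Filter.Tendsto (fun k : ℕ => 1 / (2 * (((4 * k + 1 : ℕ) : ℝ) + 1)))
        Filter.atTop (nhds 0) := by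
      have := tendsto_one_div_add_atTop_nhds_zero_nat (𝕜 := ℝ)
      refine squeeze_zero (fun k => by positivity) (fun k => ?_) this
      apply one_div_le_one_div_of_le (by positivity)
      push_cast
      have : (0 : ℝ) ≤ k := Nat.cast_nonneg k
      linarith
    have t3 := (((t1.add t2).const_mul 4).mul_const ‖X‖).mul_const ‖x‖
    simpa using t3
  refine ge_of_tendsto' hlim (fun k => ?_)
  refine (window G Z hZ hG X ε hε hX (4 * k) (by omega) hx).trans ?_
  have h1 := rho_le G (4 * k)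
  have h2 := rho_le G (4 * k + 1)
  gcongr

end inter

open Classical in
/-- embedding of `W` as level zero at the index `(0, 1)` -/
noncomputable def kap (w : W) : HH W := lp.single 2 ((⟨0, by simp⟩, 1) : Idx) (lp.single 2 0 w)

/-- the base index -/
noncomputable def j0 : Idx := (⟨0, by simp⟩, 1)

lemma kap_apply (w : W) (j : Idx) (k : ℕ) [Decidable (j = j0)] :
    kap w j k = if j = j0 then (if k = 0 then w else 0) else 0 := by
  classical
  unfold kap
  by_cases hj : j = j0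
  · rw [if_pos hj, hj]
    unfold j0
    rw [lp.single_apply_self]
    by_cases hk : k = 0
    · rw [if_pos hk, hk, lp.single_apply_self]
    · rw [if_neg hk, lp.single_apply_ne _ _ _ hk]
  · rw [if_neg hj]
    have : (lp.single 2 ((⟨0, by simp⟩, 1) : Idx) (lp.single 2 0 w : L2 ℕ W) : HH W) j = 0 := by
      rw [lp.single_apply_ne]
      exact hj
    rw [this]
    rfl

lemma kap_norm (w : W) : ‖kap w‖ = ‖w‖ := by
  classical
  unfold kap
  rw [lp.norm_single (by norm_num), lp.norm_single (by norm_num)]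

lemma kap_InE (w : W) : InE 1 (kap w) := by
  classical
  constructor
  · intro j hj
    apply L2ext
    intro k
    rw [kap_apply, if_neg]
    · rfl
    · rintro rfl
      exact hj rfl
  · intro j k hk
    rw [kap_apply, if_neg (show k ≠ 0 by omega)]
    simp

lemma kap_smul (c : ℂ) (w : W) : kap (c • w) = c • kap w := by
  classical
  apply hext
  intro j k
  have : (c • kap w : HH W) j k = c • (kap w j k) := rfl
  rw [this, kap_apply, kap_apply]
  split_ifs <;> simp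

lemma Lf_kap (A : W →L[ℂ] W) (w : W) : Lf A (kap w) = kap (A w) := by
  classical
  apply hext
  intro j k
  rw [Lf_apply, kap_apply, kap_apply]
  split_ifs <;> simp

lemma Sg_kap (w : W) : Sg (kap w) = (sr 1 : ℂ) • kap w := by
  classical
  apply hext
  intro j k
  have : ((sr 1 : ℂ) • kap w : HH W) j k = (sr 1 : ℂ) • (kap w j k) := rfl
  rw [this, Sg_apply, kap_apply]
  by_cases hj : j = j0
  · rw [hj]; rfl
  · rw [if_neg hj, smul_zero, smul_zero]

end Pool.Agent.H434R3.WH
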