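import Pool.Agent.H434R3.WH6

set_option autoImplicit false
set_option linter.unusedSectionVars false

namespace Pool.Agent.H434R3.WH

open scoped ComplexConjugate

variable {W : Type} [NormedAddCommGroup W] [InnerProductSpace ℂ W] [CompleteSpace W]
variable (G : ℕ → (W →L[ℂ] W)ˣ) (Z : W →L[ℂ] W) (hZ : ‖Z‖ ≤ 1)
variable (hG : ∀ n, n % 4 ≠ 3 → G n = 1)
variable (X : HH W →L[ℂ] HH W) (ε : ℂ) (hε : ε * ε = 1)
  (hX : X * TT G Z hZ = ε • (TT G Z hZ * X))

lemma Sgpow_kap (n : ℕ) (w : W) : (Sg ^ n) (kap w) = (sr 1 : ℂ) ^ n • kap w := by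
  induction n with
  | zero => simp
  | succ n ih => rw [pow_succ, mul_apply_eq_comp, Sg_kap, map_smul, ih, smul_smul, ← pow_succ']

include hε in
lemma eps_norm : ‖ε‖ = 1 := by
  have h : ‖ε‖ * ‖ε‖ = 1 := by rw [← norm_mul, hε, norm_one]
  have h0 := norm_nonneg ε
  exact (mul_self_eq_one_iff.mp h).resolve_right (by linarith)

include hG hε hX in
lemma L1 (n : ℕ) (w : W) :
    ∃ u' : HH W, ‖u'‖ ≤ ‖X‖ * ‖w‖ ∧ X (kap ((G n).val w)) = Lf (G n).val u' := by
  have h := L0 G Z hZ hG X ε hε hX n (kap_InE w)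
  rw [Lf_kap, Sgpow_kap, map_smul] at h
  have hs : (sr 1 : ℂ) ^ n ≠ 0 := pow_ne_zero n (Circle.coe_ne_zero _)
  refine ⟨((sr 1 : ℂ) ^ n)⁻¹ • ε ^ n • (Sg ^ n) (Mh 0 n (X (Mh n 0 (kap w)))), ?_, ?_⟩
  · rw [norm_smul, norm_smul, norm_inv, norm_pow, Circle.norm_coe, one_pow, inv_one, one_mul,
      norm_pow, eps_norm ε hε, one_pow, one_mul]
    refine (Sg_pow_norm _ _).trans ((Mh_norm _ _ _).trans ((X.le_opNorm _).trans ?_))
    gcongr
    exact (Mh_norm _ _ _).trans (kap_norm w).le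
  · rw [map_smul, map_smul]
    have e : Lf (G n).val ((Sg ^ n) (Mh 0 n (X (Mh n 0 (kap w))))) =
        (Sg ^ n) (Lf (G n).val (Mh 0 n (X (Mh n 0 (kap w))))) := by
      apply hext
      intro j k
      rw [Lf_apply, Sg_pow_apply, Sg_pow_apply, Lf_apply, map_smul]
    rw [e, ← h, smul_smul, inv_mul_cancel₀ hs, one_smul]

variable (hZZ : Z * Z = 1)

include hG hε hX in
lemma R1 (w : W) : Sg (X (kap (Z w))) = (ε * (sr 1 : ℂ)) • Lf Z (X (kap w)) := by
  have h := exact_rel G Z hZ hG X ε hε hX (kap_InE w)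
  rw [Lf_kap, Sg_kap, map_smul, map_smul, smul_smul] at h
  exact h

lemma sr1_sq : (sr 1 : ℂ) * (sr 1 : ℂ) = 1 := by
  rw [← Circle.coe_mul, sr_sq, Circle.coe_one]

include hG hε hX hZZ in
lemma supp (w : W) : X (kap w) = kap ((X (kap w)) j0 0) := by
  classical
  have hE : InE 1 (X (kap w)) := X_inv G Z hZ X ε hε hX (kap_InE w)
  have hZZw : ∀ v, Z (Z v) = v := fun v => by
    rw [← mul_apply_eq_comp, hZZ]; rfl
  have h1 := R1 G Z hZ hG X ε hε hX w
  have h2 := R1 G Z hZ hG X ε hε hX (Z w)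
  rw [hZZw] at h2
  have h3 : Sg (Sg (X (kap w))) = X (kap w) := by
    rw [h2, map_smul]
    have e : Sg (Lf Z (X (kap (Z w)))) = Lf Z (Sg (X (kap (Z w)))) := by
      apply hext
      intro j k
      rw [Sg_apply, Lf_apply, Lf_apply, Sg_apply, map_smul]
    rw [e, h1, map_smul, smul_smul]
    have e2 : Lf Z (Lf Z (X (kap w))) = X (kap w) := by
      apply hext
      intro j k
      rw [Lf_apply, Lf_apply, hZZw]
    rw [e2]
    have e3 : ε * (sr 1 : ℂ) * (ε * (sr 1 : ℂ)) = 1 := by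
      have := sr1_sq
      linear_combination (sr 1 : ℂ) * (sr 1 : ℂ) * hε + this
    rw [e3, one_smul]
  apply hext
  intro j k
  rw [kap_apply]
  by_cases hj : j = j0
  · rw [if_pos hj]
    by_cases hk : k = 0
    · rw [if_pos hk, hj, hk]
    · rw [if_neg hk]
      exact hE.2 j k (by omega)
  · rw [if_neg hj]
    by_cases ha : (j.1 : ℂ) = 0
    · have hv : j.2 ≠ 1 := by
        intro hv
        apply hj
        unfold j0
        exact Prod.ext (Subtype.ext ha) hv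
      have h4 := congrArg (fun y : HH W => y j k) h3
      simp only [Sg_apply, smul_smul] at h4
      have h5 : (sr j.2 : ℂ) * (sr j.2 : ℂ) = (j.2 : ℂ) := by
        rw [← Circle.coe_mul, sr_sq]
      rw [h5] at h4
      have h6 : ((j.2 : ℂ) - 1) • X (kap w) j k = 0 := by
        rw [sub_smul, one_smul, h4, sub_self]
      rcases smul_eq_zero.mp h6 with h7 | h7
      · exfalso
        apply hv
        rw [← Circle.coe_inj, Circle.coe_one]
        exact sub_eq_zero.mp h7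
      · exact h7
    · rw [hE.1 j ha]; rfl

include hG hε hX hZZ in
lemma anti (w : W) : X (kap (Z w)) = ε • Lf Z (X (kap w)) := by
  have h1 := R1 G Z hZ hG X ε hε hX w
  rw [supp G Z hZ hG X ε hε hX hZZ (Z w), Sg_kap, ← supp G Z hZ hG X ε hε hX hZZ (Z w),
    mul_comm, mul_smul] at h1
  exact smul_right_injective _ (Circle.coe_ne_zero _) h1

/-- rigidity of powers close to one -/
lemma rigid (z : ℂ) (h : ∀ n : ℕ, ‖z ^ n - 1‖ ≤ 1 / 2) : z = 1 := by
  by_contra hne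
  have hδ : 0 < ‖z - 1‖ := norm_pos_iff.mpr (sub_ne_zero.mpr hne)
  have key : ∀ k : ℕ, (3 / 2 : ℝ) ^ k * ‖z - 1‖ ≤ ‖z ^ (2 ^ k) - 1‖ := by
    intro k
    induction k with
    | zero => simp
    | succ k ih =>
      have e1 : z ^ (2 ^ (k + 1)) - 1 = (z ^ (2 ^ k) - 1) * (z ^ (2 ^ k) + 1) := by
        rw [pow_succ 2 k, pow_mul]; ring
      rw [e1, norm_mul]
      have e2 : (3 / 2 : ℝ) ≤ ‖z ^ (2 ^ k) + 1‖ := by
        have e3 : ‖(2 : ℂ)‖ ≤ ‖z ^ (2 ^ k) + 1‖ + ‖z ^ (2 ^ k) - 1‖ := by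
          have : (2 : ℂ) = (z ^ (2 ^ k) + 1) - (z ^ (2 ^ k) - 1) := by ring
          rw [this]
          exact norm_sub_le _ _
        have e4 := h (2 ^ k)
        have e5 : ‖(2 : ℂ)‖ = 2 := by norm_num
        linarith
      calc (3 / 2 : ℝ) ^ (k + 1) * ‖z - 1‖ = ((3 / 2 : ℝ) ^ k * ‖z - 1‖) * (3 / 2) := by ring
        _ ≤ ‖z ^ (2 ^ k) - 1‖ * ‖z ^ (2 ^ k) + 1‖ := by gcongr
  obtain ⟨k, hk⟩ := pow_unbounded_of_one_lt (1 / ‖z - 1‖) (show (1 : ℝ) < 3 / 2 by norm_num)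
  rw [div_lt_iff₀ hδ] at hk
  have := (key k).trans (h (2 ^ k))
  linarith

end Pool.Agent.H434R3.WH
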