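import Pool.Agent.H434R3.WH7

set_option autoImplicit false
set_option linter.unusedSectionVars false

namespace Pool.Agent.H434R3.WH

open scoped ComplexConjugate

instance nz (r : ℕ) : NeZero (2 * (r + 1)) := ⟨by omega⟩

/-- disjoint union of cycles of even length -/
abbrev Io := Σ r : ℕ, ZMod (2 * (r + 1))

/-- the coefficient Hilbert space -/
noncomputable abbrev WW := L2 Io ℂ

/-- antipode -/
def hlf (x : Io) : Io := ⟨x.1, x.2 + ((x.1 + 1 : ℕ) : ZMod (2 * (x.1 + 1)))⟩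

/-- neighbour -/
def nxt (x : Io) : Io := ⟨x.1, x.2 + 1⟩

lemma hlf_hlf (x : Io) : hlf (hlf x) = x := by
  unfold hlf
  have h : ((x.1 + 1 : ℕ) : ZMod (2 * (x.1 + 1))) + ((x.1 + 1 : ℕ) : ZMod (2 * (x.1 + 1))) = 0 := by
    rw [← Nat.cast_add, ← two_mul]
    exact ZMod.natCast_self _
  show (⟨x.1, x.2 + ((x.1 + 1 : ℕ) : ZMod (2 * (x.1 + 1))) +
    ((x.1 + 1 : ℕ) : ZMod (2 * (x.1 + 1)))⟩ : Io) = x
  rw [add_assoc, h, add_zero]

lemma hlf_inj : Function.Injective hlf := fun a b h => by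
  rw [← hlf_hlf a, h, hlf_hlf]

lemma nxt_ne (x : Io) : nxt x ≠ x := by
  obtain ⟨r, i⟩ := x
  unfold nxt
  intro h
  have h1 : i + 1 = i := by
    have := (Sigma.mk.inj_iff.mp h).2
    exact eq_of_heq this
  have h2 : (1 : ZMod (2 * (r + 1))) = 0 := by
    have := congrArg (fun y => y - i) h1
    simpa using this
  have h3 : ((1 : ℕ) : ZMod (2 * (r + 1))) = 0 := by exact_mod_cast h2
  rw [ZMod.natCast_eq_zero_iff] at h3
  have := Nat.le_of_dvd one_pos h3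
  omega

/-- the slowly varying phase -/
noncomputable def fc (x : Io) : ℂ := (ZMod.toCircle x.2 : Circle)

lemma fc_norm (x : Io) : ‖fc x‖ = 1 := Circle.norm_coe _

lemma fc_ne (x : Io) : fc x ≠ 0 := Circle.coe_ne_zero _

lemma toC_half (r : ℕ) : ((ZMod.toCircle (((r + 1 : ℕ) : ZMod (2 * (r + 1)))) : Circle) : ℂ) = -1 := by
  rw [ZMod.toCircle_natCast]
  have : (2 * (Real.pi : ℂ) * Complex.I * ((r + 1 : ℕ) : ℂ) / ((2 * (r + 1) : ℕ) : ℂ)) =
      Real.pi * Complex.I := by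
    push_cast
    have : ((r : ℂ) + 1) ≠ 0 := by exact_mod_cast Nat.succ_ne_zero r
    field_simp
  rw [this, Complex.exp_pi_mul_I]

lemma fc_hlf (x : Io) : fc (hlf x) = -fc x := by
  unfold fc hlf
  show ((ZMod.toCircle (x.2 + ((x.1 + 1 : ℕ) : ZMod (2 * (x.1 + 1)))) : Circle) : ℂ) = _
  rw [AddChar.map_add_eq_mul, Circle.coe_mul, toC_half]
  ring

lemma fc_nxt (x : Io) : ((x.1 : ℝ) + 1) * ‖fc x - fc (nxt x)‖ ≤ 4 := by
  unfold fc nxt
  show ((x.1 : ℝ) + 1) * ‖((ZMod.toCircle x.2 : Circle) : ℂ) -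
    ((ZMod.toCircle (x.2 + 1) : Circle) : ℂ)‖ ≤ 4
  rw [AddChar.map_add_eq_mul, Circle.coe_mul]
  have h1 : ((ZMod.toCircle (1 : ZMod (2 * (x.1 + 1))) : Circle) : ℂ) =
      Complex.exp (Complex.I * ((Real.pi / (x.1 + 1) : ℝ) : ℂ)) := by
    have := ZMod.toCircle_natCast (N := 2 * (x.1 + 1)) 1
    rw [Nat.cast_one] at this
    rw [this]
    congr 1
    push_cast
    have : ((x.1 : ℂ) + 1) ≠ 0 := by exact_mod_cast Nat.succ_ne_zero x.1
    field_simp
  have h2 : ((ZMod.toCircle x.2 : Circle) : ℂ) - ((ZMod.toCircle x.2 : Circle) : ℂ) *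
      ((ZMod.toCircle (1 : ZMod (2 * (x.1 + 1))) : Circle) : ℂ) =
      -(((ZMod.toCircle x.2 : Circle) : ℂ) *
        (((ZMod.toCircle (1 : ZMod (2 * (x.1 + 1))) : Circle) : ℂ) - 1)) := by ring
  rw [h2, norm_neg, norm_mul, Circle.norm_coe, one_mul, h1]
  have h3 := Real.norm_exp_I_mul_ofReal_sub_one_le (x := Real.pi / (x.1 + 1))
  have hpos : (0 : ℝ) < (x.1 : ℝ) + 1 := by positivity
  rw [Real.norm_of_nonneg (div_nonneg Real.pi_pos.le hpos.le)] at h3
  calc ((x.1 : ℝ) + 1) * ‖Complex.exp (Complex.I * ((Real.pi / (x.1 + 1) : ℝ) : ℂ)) - 1‖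
      ≤ ((x.1 : ℝ) + 1) * (Real.pi / (x.1 + 1)) := by gcongr
    _ = Real.pi := by field_simp
    _ ≤ 4 := Real.pi_le_four

/-- diagonal operators -/
noncomputable def dg (c : Io → ℂ) (C : ℝ) (h : ∀ x, ‖c x‖ ≤ C) : WW →L[ℂ] WW :=
  blk (fun x => c x • (1 : ℂ →L[ℂ] ℂ)) C (fun x => by
    rw [norm_smul]
    calc ‖c x‖ * ‖(1 : ℂ →L[ℂ] ℂ)‖ ≤ ‖c x‖ * 1 := by
          gcongr; exact ContinuousLinearMap.norm_id_le
      _ ≤ C := by rw [mul_one]; exact h x)

lemma dg_apply (c : Io → ℂ) (C : ℝ) (h : ∀ x, ‖c x‖ ≤ C) (w : WW) (x : Io) :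
    dg c C h w x = c x * w x := rfl

lemma dg_norm (c : Io → ℂ) (C : ℝ) (h : ∀ x, ‖c x‖ ≤ C) (hC : 0 ≤ C) : ‖dg c C h‖ ≤ C :=
  blk_norm_le _ _ _ hC

/-- J -/
noncomputable def JJ : WW →L[ℂ] WW := dg fc 1 (fun x => (fc_norm x).le)

/-- inverse of J -/
noncomputable def JJ' : WW →L[ℂ] WW :=
  dg (fun x => (fc x)⁻¹) 1 (fun x => by rw [norm_inv, fc_norm, inv_one])

lemma JJ_apply (w : WW) (x : Io) : JJ w x = fc x * w x := rfl
lemma JJ'_apply (w : WW) (x : Io) : JJ' w x = (fc x)⁻¹ * w x := rfl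

lemma JJ_JJ' : JJ * JJ' = 1 := opext fun w x => by
  rw [mul_apply_eq_comp, JJ_apply, JJ'_apply, ← mul_assoc, mul_inv_cancel₀ (fc_ne x), one_mul]
  rfl

lemma JJ'_JJ : JJ' * JJ = 1 := opext fun w x => by
  rw [mul_apply_eq_comp, JJ'_apply, JJ_apply, ← mul_assoc, inv_mul_cancel₀ (fc_ne x), one_mul]
  rfl

/-- Z -/
noncomputable def ZZ : WW →L[ℂ] WW :=
  wc hlf hlf_inj (fun _ => (1 : ℂ →L[ℂ] ℂ)) 1 (fun _ => ContinuousLinearMap.norm_id_le)

lemma ZZ_apply (w : WW) (x : Io) : ZZ w x = w (hlf x) := rfl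

lemma ZZ_norm : ‖ZZ‖ ≤ 1 := wc_norm_le _ _ _ _ _ zero_le_one

lemma ZZ_ZZ : ZZ * ZZ = 1 := opext fun w x => by
  rw [mul_apply_eq_comp, ZZ_apply, ZZ_apply, hlf_hlf]
  rfl

lemma JJ_ZZ : JJ * ZZ = -(ZZ * JJ) := opext fun w x => by
  rw [mul_apply_eq_comp, JJ_apply, ZZ_apply]
  show fc x * w (hlf x) = -(ZZ (JJ w) x)
  rw [ZZ_apply, JJ_apply, fc_hlf]
  ring

/-- first type of constraint -/
noncomputable def Ga (x : Io) (i : ℕ) : (WW →L[ℂ] WW)ˣ where
  val := dg (fun y => if y = x then 1 else ((i : ℂ) + 1)⁻¹) 1 (fun y => by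
    split_ifs
    · simp
    · rw [norm_inv]
      have : ‖(i : ℂ) + 1‖ = (i : ℝ) + 1 := by
        have := Complex.norm_natCast (i + 1)
        push_cast at this
        exact this
      rw [this]
      apply inv_le_one_of_one_le₀
      have : (0 : ℝ) ≤ i := Nat.cast_nonneg i
      linarith)
  inv := dg (fun y => if y = x then 1 else ((i : ℂ) + 1)) (i + 1) (fun y => by
    have : ‖(i : ℂ) + 1‖ = (i : ℝ) + 1 := by
      have := Complex.norm_natCast (i + 1)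
      push_cast at this
      exact this
    split_ifs
    · simp
    · rw [this])
  val_inv := opext fun w y => by
    rw [mul_apply_eq_comp, dg_apply, dg_apply]
    have : ((i : ℂ) + 1) ≠ 0 := by exact_mod_cast Nat.succ_ne_zero i
    show _ = w y
    split_ifs
    · simp
    · field_simp
  inv_val := opext fun w y => by
    rw [mul_apply_eq_comp, dg_apply, dg_apply]
    have : ((i : ℂ) + 1) ≠ 0 := by exact_mod_cast Nat.succ_ne_zero i
    show _ = w y
    split_ifs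
    · simp
    · field_simp

/-- `E_{x, nxt x}` -/
noncomputable def EE (x : Io) : WW →L[ℂ] WW := mu x (nxt x)

lemma EE_apply (x : Io) (w : WW) (y : Io) :
    EE x w y = if y = x then w (nxt x) else 0 := by
  unfold EE
  rw [mu_apply]

lemma EE_norm (x : Io) : ‖EE x‖ ≤ 1 := by
  unfold EE
  exact mu_norm_le _ _

lemma EE_EE (x : Io) : EE x * EE x = 0 := opext fun w y => by
  rw [mul_apply_eq_comp, EE_apply, EE_apply, if_neg (nxt_ne x)]
  split_ifs <;> rfl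

/-- second type of constraint -/
noncomputable def Gb (x : Io) : (WW →L[ℂ] WW)ˣ where
  val := 1 + ((x.1 : ℂ) + 1) • EE x
  inv := 1 - ((x.1 : ℂ) + 1) • EE x
  val_inv := by
    rw [mul_sub, add_mul, one_mul, mul_one, add_mul, one_mul, smul_mul_assoc, mul_smul_comm,
      EE_EE, smul_zero, smul_zero, add_zero, add_sub_cancel_right]
  inv_val := by
    rw [mul_add, sub_mul, one_mul, mul_one, sub_mul, one_mul, smul_mul_assoc, mul_smul_comm,
      EE_EE, smul_zero, smul_zero, sub_zero, sub_add_cancel]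

end Pool.Agent.H434R3.WH
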