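import Pool.Agent.H434R3.WH8

set_option autoImplicit false
set_option linter.unusedSectionVars false

namespace Pool.Agent.H434R3.WH

open scoped ComplexConjugate

/-- set of constraints -/
abbrev Cst := (Io × ℕ) ⊕ Io

/-- constraint operators -/
noncomputable def Gc : Cst → (WW →L[ℂ] WW)ˣ
  | Sum.inl p => Ga p.1 p.2
  | Sum.inr x => Gb x

lemma exists_enum : ∃ e : ℕ → Cst, Function.Surjective e := by
  have : ∀ r : ℕ, Countable (ZMod (2 * (r + 1))) := fun r => inferInstance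
  have : Nonempty Cst := ⟨Sum.inr ⟨0, 0⟩⟩
  exact exists_surjective_nat Cst

/-- enumeration of the constraints -/
noncomputable def enm : ℕ → Cst := Classical.choose exists_enum

lemma enm_surj : Function.Surjective enm := Classical.choose_spec exists_enum

/-- the sequence of operators -/
noncomputable def Gs (n : ℕ) : (WW →L[ℂ] WW)ˣ := if n % 4 = 3 then Gc (enm (n / 4)) else 1

lemma Gs_one : ∀ n, n % 4 ≠ 3 → Gs n = 1 := fun n h => by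
  unfold Gs; rw [if_neg h]

lemma Gs_surj (c : Cst) : ∃ n, Gs n = Gc c := by
  obtain ⟨k, hk⟩ := enm_surj c
  refine ⟨4 * k + 3, ?_⟩
  unfold Gs
  rw [if_pos (by omega), show (4 * k + 3) / 4 = k by omega, hk]

lemma Ga_apply (x : Io) (i : ℕ) (w : WW) (y : Io) :
    (Ga x i).val w y = (if y = x then 1 else ((i : ℂ) + 1)⁻¹) * w y := by
  rfl

lemma Ga_inv_apply (x : Io) (i : ℕ) (w : WW) (y : Io) :
    ((Ga x i)⁻¹ : (WW →L[ℂ] WW)ˣ).val w y = (if y = x then 1 else ((i : ℂ) + 1)) * w y := by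
  rfl

lemma Gb_apply (x : Io) (w : WW) (y : Io) :
    (Gb x).val w y = w y + ((x.1 : ℂ) + 1) * (if y = x then w (nxt x) else 0) := by
  have : (Gb x).val w y = w y + ((x.1 : ℂ) + 1) • (EE x w y) := rfl
  rw [this, EE_apply]
  rfl

lemma Gb_inv_apply (x : Io) (w : WW) (y : Io) :
    ((Gb x)⁻¹ : (WW →L[ℂ] WW)ˣ).val w y =
      w y - ((x.1 : ℂ) + 1) * (if y = x then w (nxt x) else 0) := by
  have : ((Gb x)⁻¹ : (WW →L[ℂ] WW)ˣ).val w y = w y - ((x.1 : ℂ) + 1) • (EE x w y) := rfl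
  rw [this, EE_apply]
  rfl

/-- conjugate of a diagonal unimodular operator under the constraint operators -/
lemma conj_bound (c : Io → ℂ) (hc : ∀ x, ‖c x‖ ≤ 1)
    (hc2 : ∀ x : Io, ((x.1 : ℝ) + 1) * ‖c x - c (nxt x)‖ ≤ 4) (n : ℕ) :
    ‖((Gs n)⁻¹ : (WW →L[ℂ] WW)ˣ).val * dg c 1 hc * (Gs n).val‖ ≤ 5 := by
  by_cases h : n % 4 = 3
  · have hn : Gs n = Gc (enm (n / 4)) := by unfold Gs; rw [if_pos h]
    rw [hn]
    rcases enm (n / 4) with ⟨x, i⟩ | x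
    · have : ((Gc (Sum.inl (x, i)))⁻¹ : (WW →L[ℂ] WW)ˣ).val * dg c 1 hc *
          (Gc (Sum.inl (x, i))).val = dg c 1 hc := by
        apply opext
        intro w y
        rw [mul_apply_eq_comp, mul_apply_eq_comp]
        show ((Ga x i)⁻¹ : (WW →L[ℂ] WW)ˣ).val (dg c 1 hc ((Ga x i).val w)) y = _
        rw [Ga_inv_apply, dg_apply, Ga_apply, dg_apply]
        have : ((i : ℂ) + 1) ≠ 0 := by exact_mod_cast Nat.succ_ne_zero i
        split_ifs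
        · ring
        · field_simp
      rw [this]
      exact (dg_norm c 1 hc zero_le_one).trans (by norm_num)
    · have : ((Gc (Sum.inr x))⁻¹ : (WW →L[ℂ] WW)ˣ).val * dg c 1 hc *
          (Gc (Sum.inr x)).val =
          dg c 1 hc + (((x.1 : ℂ) + 1) * (c x - c (nxt x))) • EE x := by
        apply opext
        intro w y
        rw [mul_apply_eq_comp, mul_apply_eq_comp]
        have r : (dg c 1 hc + (((x.1 : ℂ) + 1) * (c x - c (nxt x))) • EE x) w y =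
          dg c 1 hc w y + (((x.1 : ℂ) + 1) * (c x - c (nxt x))) * (EE x w y) := rfl
        rw [r]
        show ((Gb x)⁻¹ : (WW →L[ℂ] WW)ˣ).val (dg c 1 hc ((Gb x).val w)) y = _
        rw [Gb_inv_apply, dg_apply, dg_apply, Gb_apply, Gb_apply, dg_apply, EE_apply,
          if_neg (nxt_ne x)]
        by_cases hy : y = x
        · rw [if_pos hy, if_pos hy, hy]
          ring
        · rw [if_neg hy, if_neg hy]
          ring
      rw [this]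
      refine (norm_add_le _ _).trans ?_
      have h1 := dg_norm c 1 hc zero_le_one
      have h2 : ‖(((x.1 : ℂ) + 1) * (c x - c (nxt x))) • EE x‖ ≤ 4 := by
        rw [norm_smul, norm_mul]
        have h3 : ‖(x.1 : ℂ) + 1‖ = (x.1 : ℝ) + 1 := by
          have := Complex.norm_natCast (x.1 + 1)
          push_cast at this
          exact this
        rw [h3]
        calc ((x.1 : ℝ) + 1) * ‖c x - c (nxt x)‖ * ‖EE x‖ ≤ 4 * 1 := by
              gcongr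
              · exact hc2 x
              · exact EE_norm x
          _ = 4 := by norm_num
      linarith
  · rw [Gs_one n h]
    have : ((1 : (WW →L[ℂ] WW)ˣ)⁻¹ : (WW →L[ℂ] WW)ˣ).val * dg c 1 hc *
        (1 : (WW →L[ℂ] WW)ˣ).val = dg c 1 hc := by simp
    rw [this]
    exact (dg_norm c 1 hc zero_le_one).trans (by norm_num)

lemma fc_nxt' (x : Io) : ((x.1 : ℝ) + 1) * ‖(fc x)⁻¹ - (fc (nxt x))⁻¹‖ ≤ 4 := by
  have h : ‖(fc x)⁻¹ - (fc (nxt x))⁻¹‖ = ‖fc x - fc (nxt x)‖ := by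
    rw [inv_sub_inv (fc_ne x) (fc_ne (nxt x)), norm_div, norm_mul, fc_norm, fc_norm, mul_one,
      div_one, norm_sub_rev]
  rw [h]
  exact fc_nxt x

/-- blocks of the twisted intertwiner -/
noncomputable def Pn (n : ℕ) : WW →L[ℂ] WW :=
  (-1 : ℂ) ^ n • (((Gs n)⁻¹ : (WW →L[ℂ] WW)ˣ).val * JJ * (Gs n).val)

noncomputable def Pn' (n : ℕ) : WW →L[ℂ] WW :=
  (-1 : ℂ) ^ n • (((Gs n)⁻¹ : (WW →L[ℂ] WW)ˣ).val * JJ' * (Gs n).val)

lemma Pn_norm (n : ℕ) : ‖Pn n‖ ≤ 5 := by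
  unfold Pn
  rw [norm_smul, norm_pow, norm_neg, norm_one, one_pow, one_mul]
  exact conj_bound fc _ fc_nxt n

lemma Pn'_norm (n : ℕ) : ‖Pn' n‖ ≤ 5 := by
  unfold Pn'
  rw [norm_smul, norm_pow, norm_neg, norm_one, one_pow, one_mul]
  exact conj_bound (fun x => (fc x)⁻¹) _ fc_nxt' n

lemma Pn_Pn' (n : ℕ) : Pn n * Pn' n = 1 := by
  unfold Pn Pn'
  rw [smul_mul_smul_comm, ← mul_pow]
  have h : (-1 : ℂ) * -1 = 1 := by norm_num
  rw [h, one_pow, one_smul]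
  calc ((Gs n)⁻¹ : (WW →L[ℂ] WW)ˣ).val * JJ * (Gs n).val *
        (((Gs n)⁻¹ : (WW →L[ℂ] WW)ˣ).val * JJ' * (Gs n).val)
      = ((Gs n)⁻¹ : (WW →L[ℂ] WW)ˣ).val * JJ * ((Gs n).val *
        ((Gs n)⁻¹ : (WW →L[ℂ] WW)ˣ).val) * JJ' * (Gs n).val := by simp only [mul_assoc]
    _ = ((Gs n)⁻¹ : (WW →L[ℂ] WW)ˣ).val * (JJ * JJ') * (Gs n).val := by
        rw [Units.mul_inv, mul_one]; simp only [mul_assoc]
    _ = 1 := by rw [JJ_JJ', mul_one, Units.inv_mul]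

lemma Pn'_Pn (n : ℕ) : Pn' n * Pn n = 1 := by
  unfold Pn Pn'
  rw [smul_mul_smul_comm, ← mul_pow]
  have h : (-1 : ℂ) * -1 = 1 := by norm_num
  rw [h, one_pow, one_smul]
  calc ((Gs n)⁻¹ : (WW →L[ℂ] WW)ˣ).val * JJ' * (Gs n).val *
        (((Gs n)⁻¹ : (WW →L[ℂ] WW)ˣ).val * JJ * (Gs n).val)
      = ((Gs n)⁻¹ : (WW →L[ℂ] WW)ˣ).val * JJ' * ((Gs n).val *
        ((Gs n)⁻¹ : (WW →L[ℂ] WW)ˣ).val) * JJ * (Gs n).val := by simp only [mul_assoc]
    _ = ((Gs n)⁻¹ : (WW →L[ℂ] WW)ˣ).val * (JJ' * JJ) * (Gs n).val := by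
        rw [Units.mul_inv, mul_one]; simp only [mul_assoc]
    _ = 1 := by rw [JJ'_JJ, mul_one, Units.inv_mul]

lemma Pn_wA (n : ℕ) : Pn n * wA Gs n = -(wA Gs n * Pn (n + 1)) := by
  unfold Pn wA
  rw [smul_mul_smul_comm, smul_mul_smul_comm, ← neg_smul]
  have h1 : ((Gs n)⁻¹ : (WW →L[ℂ] WW)ˣ).val * JJ * (Gs n).val *
      (((Gs n)⁻¹ : (WW →L[ℂ] WW)ˣ).val * (Gs (n + 1)).val) =
      ((Gs n)⁻¹ : (WW →L[ℂ] WW)ˣ).val * JJ * (Gs (n + 1)).val := by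
    calc _ = ((Gs n)⁻¹ : (WW →L[ℂ] WW)ˣ).val * JJ * ((Gs n).val *
      ((Gs n)⁻¹ : (WW →L[ℂ] WW)ˣ).val) * (Gs (n + 1)).val := by simp only [mul_assoc]
      _ = _ := by rw [Units.mul_inv, mul_one]
  have h2 : ((Gs n)⁻¹ : (WW →L[ℂ] WW)ˣ).val * (Gs (n + 1)).val *
      (((Gs (n + 1))⁻¹ : (WW →L[ℂ] WW)ˣ).val * JJ * (Gs (n + 1)).val) =
      ((Gs n)⁻¹ : (WW →L[ℂ] WW)ˣ).val * JJ * (Gs (n + 1)).val := by
    calc _ = ((Gs n)⁻¹ : (WW →L[ℂ] WW)ˣ).val * ((Gs (n + 1)).val *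
      ((Gs (n + 1))⁻¹ : (WW →L[ℂ] WW)ˣ).val) * JJ * (Gs (n + 1)).val := by
          simp only [mul_assoc]
      _ = _ := by rw [Units.mul_inv, mul_one]
  rw [h1, h2]
  congr 1
  rw [pow_succ]
  ring

lemma Pn_wF (n : ℕ) : Pn n * wF ZZ n = -(wF ZZ n * Pn (n + 2)) := by
  unfold wF
  by_cases h : n % 4 = 0
  · rw [if_pos h]
    unfold Pn
    rw [Gs_one n (by omega), Gs_one (n + 2) (by omega)]
    have h1 : ((1 : (WW →L[ℂ] WW)ˣ)⁻¹ : (WW →L[ℂ] WW)ˣ).val * JJ *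
        (1 : (WW →L[ℂ] WW)ˣ).val = JJ := by simp
    rw [h1, smul_mul_smul_comm, smul_mul_smul_comm, JJ_ZZ, smul_neg]
    congr 2
    rw [pow_add]
    norm_num
    ring
  · rw [if_neg h]
    simp

/-- the intertwiner of `C₀` and `-C₀` -/
noncomputable def PP : L2 ℕ WW →L[ℂ] L2 ℕ WW := blk Pn 5 Pn_norm
noncomputable def PP' : L2 ℕ WW →L[ℂ] L2 ℕ WW := blk Pn' 5 Pn'_norm

lemma PP_norm : ‖PP‖ ≤ 5 := blk_norm_le _ _ _ (by norm_num)
lemma PP'_norm : ‖PP'‖ ≤ 5 := blk_norm_le _ _ _ (by norm_num)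

lemma PP_PP' : PP * PP' = 1 := opext fun x n => by
  show Pn n (Pn' n (x n)) = x n
  rw [← mul_apply_eq_comp, Pn_Pn']
  rfl

lemma PP'_PP : PP' * PP = 1 := opext fun x n => by
  show Pn' n (Pn n (x n)) = x n
  rw [← mul_apply_eq_comp, Pn'_Pn]
  rfl

lemma PP_C0 : PP * C0 Gs ZZ ZZ_norm = -(C0 Gs ZZ ZZ_norm * PP) := opext fun x n => by
  have e1 := congrArg (fun A : WW →L[ℂ] WW => A (x (n + 1))) (Pn_wA n)
  have e2 := congrArg (fun A : WW →L[ℂ] WW => A (x (n + 2))) (Pn_wF n)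
  show Pn n (wA Gs n (x (n + 1)) + wF ZZ n (x (n + 2))) =
    -(wA Gs n (Pn (n + 1) (x (n + 1))) + wF ZZ n (Pn (n + 2) (x (n + 2))))
  have e1' : Pn n (wA Gs n (x (n + 1))) = -(wA Gs n (Pn (n + 1) (x (n + 1)))) := e1
  have e2' : Pn n (wF ZZ n (x (n + 2))) = -(wF ZZ n (Pn (n + 2) (x (n + 2)))) := e2
  rw [map_add, e1', e2', neg_add]

end Pool.Agent.H434R3.WH
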